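import Pool.Agent.H99.GB.Fex
import Pool.Agent.H99.GB.Defs

/-!
# [H93 BK DEFS]  TwoSidedEveryExponent: `δ ≥ min (θ/3) (1/6)` for every `θ`

THEOREM (Fb3.fb3). `OneN s (δ + (1-θ)) (1-θ)` is false if `2δ < ρ`, `ρ < 1/3`, `3ρ/2 < θ`.

IDEA. As `H24/TS/Fbl` (`R = X^ρ`, `H ~ R`, blocks of length `m = X^θ`, `|EI n h| ≤ B x` on the block of `x`, `∑ B ≤ X^(1+δ+ε)`), but `m ≥ R^(3/2+ε)`
suffices instead of `m ≥ R^2`: `∑ |EI||G| ≤ V ∑ B + 5R ∑_{a(x) > V} a(x)`, `a(x)` = mean of `|G|` over the block, `V = √R X^ε`. The mean of `G^2`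
over the block is `≤ C R X^ε + fl(x)`, `fl` = pairs of frequencies with `|q-q'| ≤ D = R^2 X^ε/m ≤ R^(1/2)`, and
`∑_x fl(x)^2 ≤ X · #{close pairs of pairs} ≤ X^(1+ε) R D` by the spacing theorem Sp. So the bad part is `≤ 5R · R^(-3/2) · X R D X^ε < R X^(1-c)`.

SPACING (Sp.sp). `#{0 < |a-b|, |c-e| ≤ D, |1/a-1/b-1/c+1/e| ≤ μ/R^3} ≤ C μ² R^(1+ε) D`, `D² ≤ R`. With `d = b-a`, `d' = e-c`, `s = a+b`, `s' = c+e`: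
`|d s'² - d' s² - dd'(d'-d)| ≤ 64 μ R`; for fixed `d, d'` two solutions with `|s1 - s2| ≤ R/D` have differences `(δ, δ')` with
`|d δ'² - d' δ²| ≤ C μ |δ|` (Loc.loc); Fouvry - Iwaniec count (Fi.fi) of these: `≤ C μ (D·R/D)^(1+ε)`. Total `D (D² + μ R^(1+ε))`.
-/

set_option autoImplicit false

namespace Pool.Agent.H93.BK

open Finset Pool.Agent.H99.GB Pool.Agent.H24.AB

/-- `∑_ν exp(-πJ²(ν-β)²)` (`J ·` this is the Fourier transform of `exp(-π(x/J)²)` on `ℤ`) -/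
noncomputable def gj (J β : ℝ) : ℝ := ∑' ν : ℤ, Real.exp (-(Real.pi * J ^ 2 * ((ν : ℝ) - β) ^ 2))

/-- the part of `G` with frequencies `k/q` -/
noncomputable def Gk (R H k : ℕ) (x : ℤ) : ℂ := ∑ q ∈ QQ R, fc H ⟨q, k⟩ * ee ((x : ℝ) * ((k : ℝ) / q))

/-- the low frequencies of `G` -/
noncomputable def Lo (R H K n : ℕ) : ℝ := 2 * (∑ k ∈ Icc 1 K, Gk R H k n).re

/-- pairs of different primes of `QQ R` -/
def PQ (R : ℕ) : Finset (ℕ × ℕ) := (QQ R ×ˢ QQ R).filter (fun p => p.1 ≠ p.2)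

/-- coefficient and frequency of the pair `p` -/
noncomputable def ap (H k m : ℕ) (p : ℕ × ℕ) : ℂ :=
  fc H ⟨p.1, k⟩ * (starRingEnd ℂ) (fc H ⟨p.2, k⟩) * ((gj m ((k : ℝ) / p.1 - (k : ℝ) / p.2) : ℝ) : ℂ)

/-- off diagonal part of the local mean square of `Gk` -/
noncomputable def fl (R H k m : ℕ) (x : ℤ) : ℂ :=
  ∑ p ∈ PQ R, ap H k m p * ee ((x : ℝ) * ((k : ℝ) / p.1 - (k : ℝ) / p.2))

/-- the quadruples of the spacing theorem -/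
noncomputable def Qd (R D : ℕ) (μ : ℝ) : Finset (ℕ × ℕ × ℕ × ℕ) :=
  ((Ioc R (2 * R)) ×ˢ (Ioc R (2 * R)) ×ˢ (Ioc R (2 * R)) ×ˢ (Ioc R (2 * R))).filter (fun z =>
    z.1 ≠ z.2.1 ∧ z.2.2.1 ≠ z.2.2.2 ∧ |(z.1 : ℝ) - z.2.1| ≤ D ∧ |(z.2.2.1 : ℝ) - z.2.2.2| ≤ D ∧
      |1 / (z.1 : ℝ) - 1 / (z.2.1 : ℝ) - 1 / (z.2.2.1 : ℝ) + 1 / (z.2.2.2 : ℝ)| ≤ μ / (R : ℝ) ^ 3)

end Pool.Agent.H93.BK
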