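import Pool.Agent.H93.BK.Defs
import Pool.Agent.H24.AB.LSK
import Pool.Agent.H93.RS.Ls

/-!
# [H93 BK DG]  discrete gaussian Parseval
-/

set_option autoImplicit false

namespace Pool.Agent.H93.BK

open Finset

open Pool.Agent.H24.AB

theorem gj_nonneg (J β : ℝ) : 0 ≤ gj J β := by
  unfold gj
  exact tsum_nonneg fun _ => (Real.exp_pos _).le

/-- the geometric majorant -/
private noncomputable def gg (ν : ℤ) : ℝ := (1 / 4 : ℝ) ^ (ν.natAbs - 1)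

private theorem geo : HasSum gg (11 / 3) := by
  have h0 : HasSum (fun n : ℕ => (1 / 4 : ℝ) ^ n) (4 / 3) := by
    have h := hasSum_geometric_of_lt_one (r := (1 / 4 : ℝ)) (by norm_num) (by norm_num)
    have e : (1 - 1 / 4 : ℝ)⁻¹ = 4 / 3 := by norm_num
    rwa [e] at h
  have h1 : HasSum (fun n : ℕ => gg (n : ℤ)) (7 / 3) := by
    have e2 : (fun n : ℕ => gg ((n + 1 : ℕ) : ℤ)) = fun n : ℕ => (1 / 4 : ℝ) ^ n := by
      funext n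
      unfold gg
      have e3 : (((n + 1 : ℕ) : ℤ)).natAbs - 1 = n := by omega
      rw [e3]
    have e : (4 / 3 : ℝ) + ∑ i ∈ range 1, gg ((i : ℕ) : ℤ) = 7 / 3 := by
      rw [sum_range_one]
      unfold gg
      norm_num
    rw [← e]
    refine (hasSum_nat_add_iff (f := fun n : ℕ => gg (n : ℤ)) 1).1 ?_
    rw [e2]
    exact h0
  have h2 : HasSum (fun n : ℕ => gg (-((n : ℤ) + 1))) (4 / 3) := by
    have e2 : (fun n : ℕ => gg (-((n : ℤ) + 1))) = fun n : ℕ => (1 / 4 : ℝ) ^ n := by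
      funext n
      unfold gg
      have e3 : (-((n : ℤ) + 1)).natAbs - 1 = n := by omega
      rw [e3]
    rw [e2]
    exact h0
  have h3 : HasSum gg (7 / 3 + 4 / 3) := HasSum.of_nat_of_neg_add_one (f := gg) h1 h2
  have e : (7 / 3 + 4 / 3 : ℝ) = 11 / 3 := by norm_num
  rwa [e] at h3

private theorem exp_two_pi : Real.exp (-(2 * Real.pi)) ≤ 1 / 4 := by
  rw [Real.exp_neg, one_div]
  apply inv_anti₀ (by norm_num)
  have h := Real.add_one_le_exp (2 * Real.pi)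
  have h2 := Real.pi_gt_three
  linarith

private theorem term_le {J β : ℝ} (hJ : 1 ≤ J) (hβ : |β| ≤ 1 / 2) (ν : ℤ) :
    Real.exp (-(Real.pi * J ^ 2 * ((ν : ℝ) - β) ^ 2)) ≤
      Real.exp (-(Real.pi * J ^ 2 * β ^ 2)) * (1 / 4 : ℝ) ^ (ν.natAbs - 1) := by
  have hpi := Real.pi_pos
  have hJ2 : 1 ≤ J ^ 2 := by nlinarith
  obtain ⟨N, hN⟩ : ∃ N : ℕ, N = ν.natAbs := ⟨_, rfl⟩
  have hNr : (N : ℝ) = |(ν : ℝ)| := by
    rw [hN, Nat.cast_natAbs, Int.cast_abs]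
  have hsq : (ν : ℝ) ^ 2 = (N : ℝ) ^ 2 := by rw [hNr, sq_abs]
  have h1 : 2 * (ν : ℝ) * β ≤ N := by
    have e1 : (ν : ℝ) * β ≤ |(ν : ℝ) * β| := le_abs_self _
    rw [abs_mul, ← hNr] at e1
    have e2 : (N : ℝ) * |β| ≤ N * (1 / 2) := mul_le_mul_of_nonneg_left hβ (Nat.cast_nonneg _)
    linarith
  have h2 : β ^ 2 + ((N : ℝ) ^ 2 - N) ≤ ((ν : ℝ) - β) ^ 2 := by nlinarith
  have h3 : 0 ≤ (N : ℝ) ^ 2 - N := by
    rcases Nat.eq_zero_or_pos N with h | h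
    · rw [h]; norm_num
    · have : (1 : ℝ) ≤ N := by exact_mod_cast h
      nlinarith
  have h4 : Real.pi * J ^ 2 * β ^ 2 + Real.pi * ((N : ℝ) ^ 2 - N) ≤ Real.pi * J ^ 2 * ((ν : ℝ) - β) ^ 2 := by
    have e1 : Real.pi * J ^ 2 * (β ^ 2 + ((N : ℝ) ^ 2 - N)) ≤ Real.pi * J ^ 2 * ((ν : ℝ) - β) ^ 2 :=
      mul_le_mul_of_nonneg_left h2 (by positivity)
    have e2 : Real.pi * ((N : ℝ) ^ 2 - N) * 1 ≤ Real.pi * ((N : ℝ) ^ 2 - N) * J ^ 2 :=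
      mul_le_mul_of_nonneg_left hJ2 (by positivity)
    nlinarith
  have h5 : Real.exp (-(Real.pi * ((N : ℝ) ^ 2 - N))) ≤ (1 / 4 : ℝ) ^ (N - 1) := by
    rcases Nat.eq_zero_or_pos N with h | h
    · rw [h]; norm_num
    · obtain ⟨M, hM⟩ : ∃ M : ℕ, N = M + 1 := ⟨N - 1, by omega⟩
      rw [hM, Nat.add_sub_cancel]
      have e1 : Real.exp (-(Real.pi * (((M + 1 : ℕ) : ℝ) ^ 2 - ((M + 1 : ℕ) : ℝ)))) ≤ (Real.exp (-(2 * Real.pi))) ^ M := by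
        rw [← Real.exp_nat_mul]
        apply Real.exp_le_exp.2
        push_cast
        have e2 : (0 : ℝ) ≤ (M : ℝ) * ((M : ℝ) - 1) := by
          rcases Nat.eq_zero_or_pos M with h' | h'
          · rw [h']; norm_num
          · have : (1 : ℝ) ≤ M := by exact_mod_cast h'
            nlinarith
        nlinarith
      exact e1.trans (pow_le_pow_left₀ (Real.exp_pos _).le exp_two_pi M)
  rw [← hN]
  calc Real.exp (-(Real.pi * J ^ 2 * ((ν : ℝ) - β) ^ 2))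
      ≤ Real.exp (-(Real.pi * J ^ 2 * β ^ 2) + -(Real.pi * ((N : ℝ) ^ 2 - N))) := by
        apply Real.exp_le_exp.2
        linarith
    _ = Real.exp (-(Real.pi * J ^ 2 * β ^ 2)) * Real.exp (-(Real.pi * ((N : ℝ) ^ 2 - N))) := Real.exp_add _ _
    _ ≤ _ := mul_le_mul_of_nonneg_left h5 (Real.exp_pos _).le

theorem gj_le {J β : ℝ} (hJ : 1 ≤ J) (hβ : |β| ≤ 1 / 2) : gj J β ≤ 4 * Real.exp (-(Real.pi * J ^ 2 * β ^ 2)) := by
  obtain ⟨E, hE⟩ : ∃ E : ℝ, E = Real.exp (-(Real.pi * J ^ 2 * β ^ 2)) := ⟨_, rfl⟩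
  have hE0 : 0 ≤ E := by rw [hE]; exact (Real.exp_pos _).le
  have h1 := geo.mul_left E
  have h2 : ∀ ν : ℤ, Real.exp (-(Real.pi * J ^ 2 * ((ν : ℝ) - β) ^ 2)) ≤ E * gg ν := by
    intro ν
    rw [hE]
    exact term_le hJ hβ ν
  have h3 : Summable fun ν : ℤ => Real.exp (-(Real.pi * J ^ 2 * ((ν : ℝ) - β) ^ 2)) :=
    Summable.of_nonneg_of_le (fun _ => (Real.exp_pos _).le) h2 h1.summable
  unfold gj
  rw [← hE]
  have h4 := h3.tsum_le_tsum h2 h1.summable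
  rw [h1.tsum_eq] at h4
  linarith

/-- `∑_{x ∈ ℤ} exp(-π(x/J)²) e(xβ) = J gj J β` -/
theorem poisson {J : ℝ} (hJ : 0 < J) (β : ℝ) :
    ∑' x : ℤ, ((Real.exp (-(Real.pi * ((x : ℝ) / J) ^ 2)) : ℝ) : ℂ) * ee ((x : ℝ) * β) = ((J * gj J β : ℝ) : ℂ) := by
  have hJc : (J : ℂ) ≠ 0 := by exact_mod_cast hJ.ne'
  have ha : 0 < (((1 / J ^ 2 : ℝ)) : ℂ).re := by
    rw [Complex.ofReal_re]
    positivity
  have key := Complex.tsum_exp_neg_quadratic ha (Complex.I * β)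
  have h1 : ∀ x : ℤ, ((Real.exp (-(Real.pi * ((x : ℝ) / J) ^ 2)) : ℝ) : ℂ) * ee ((x : ℝ) * β) =
      Complex.exp (-Real.pi * ((1 / J ^ 2 : ℝ) : ℂ) * (x : ℂ) ^ 2 + 2 * Real.pi * (Complex.I * β) * x) := by
    intro x
    unfold ee
    rw [Complex.ofReal_exp, ← Complex.exp_add]
    congr 1
    push_cast
    ring
  have h2 : ∀ x : ℤ, Complex.exp (-Real.pi / ((1 / J ^ 2 : ℝ) : ℂ) * ((x : ℂ) + Complex.I * (Complex.I * β)) ^ 2) =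
      ((Real.exp (-(Real.pi * J ^ 2 * ((x : ℝ) - β) ^ 2)) : ℝ) : ℂ) := by
    intro x
    rw [Complex.ofReal_exp]
    congr 1
    have e1 : (x : ℂ) + Complex.I * (Complex.I * β) = x - β := by
      rw [← mul_assoc, Complex.I_mul_I]
      ring
    rw [e1]
    push_cast
    field_simp
  have h3 : (1 : ℂ) / ((1 / J ^ 2 : ℝ) : ℂ) ^ (1 / 2 : ℂ) = J := by
    have e1 : (1 / 2 : ℂ) = ((1 / 2 : ℝ) : ℂ) := by push_cast; ring
    rw [e1, ← Complex.ofReal_cpow (by positivity)]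
    have e2 : (1 / J ^ 2 : ℝ) ^ (1 / 2 : ℝ) = 1 / J := by
      rw [← Real.sqrt_eq_rpow, Real.sqrt_div zero_le_one, Real.sqrt_one, Real.sqrt_sq hJ.le]
    rw [e2]
    push_cast
    field_simp
  rw [tsum_congr h1, key, tsum_congr h2, h3, ← Complex.ofReal_tsum]
  unfold gj
  push_cast
  rfl

private theorem summ {J : ℝ} (hJ : 0 < J) : Summable fun x : ℤ => Real.exp (-(Real.pi * ((x : ℝ) / J) ^ 2)) := by
  obtain ⟨r, hr⟩ : ∃ r : ℝ, r = Real.exp (-(Real.pi / J ^ 2)) := ⟨_, rfl⟩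
  have hpi := Real.pi_pos
  have hr0 : 0 ≤ r := by rw [hr]; exact (Real.exp_pos _).le
  have hr1 : r < 1 := by
    rw [hr]
    have h : 0 < Real.pi / J ^ 2 := by positivity
    have h' : Real.exp (-(Real.pi / J ^ 2)) < Real.exp 0 := Real.exp_lt_exp.2 (by linarith)
    rwa [Real.exp_zero] at h'
  have h0 : Summable fun n : ℕ => r ^ n := summable_geometric_of_lt_one hr0 hr1
  have h1 : ∀ n : ℕ, Real.exp (-(Real.pi * ((n : ℝ) / J) ^ 2)) ≤ r ^ n := by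
    intro n
    rw [hr, ← Real.exp_nat_mul]
    apply Real.exp_le_exp.2
    have e1 : (n : ℝ) ≤ (n : ℝ) ^ 2 := by
      rcases Nat.eq_zero_or_pos n with h | h
      · rw [h]; norm_num
      · have : (1 : ℝ) ≤ n := by exact_mod_cast h
        nlinarith
    have e2 : (n : ℝ) * (Real.pi / J ^ 2) ≤ (n : ℝ) ^ 2 * (Real.pi / J ^ 2) :=
      mul_le_mul_of_nonneg_right e1 (by positivity)
    have e3 : Real.pi * ((n : ℝ) / J) ^ 2 = (n : ℝ) ^ 2 * (Real.pi / J ^ 2) := by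
      field_simp
    rw [e3]
    linarith
  apply Summable.of_nat_of_neg
  · refine Summable.of_nonneg_of_le (fun _ => (Real.exp_pos _).le) (fun n => ?_) h0
    push_cast
    exact h1 n
  · refine Summable.of_nonneg_of_le (fun _ => (Real.exp_pos _).le) (fun n => ?_) h0
    push_cast
    rw [neg_div, neg_sq]
    exact h1 n

/-- exact Parseval -/
private theorem par {ι : Type} (P : Finset ι) (a : ι → ℂ) (β : ι → ℝ) {J : ℝ} (hJ : 0 < J) :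
    HasSum (fun x : ℤ => ((Real.exp (-(Real.pi * ((x : ℝ) / J) ^ 2)) * ‖∑ p ∈ P, a p * ee ((x : ℝ) * β p)‖ ^ 2 : ℝ) : ℂ))
      (∑ p ∈ P, ∑ p' ∈ P, a p * (starRingEnd ℂ) (a p') * ((J * gj J (β p - β p') : ℝ) : ℂ)) := by
  have h1 : ∀ p p' : ι, HasSum (fun x : ℤ => a p * (starRingEnd ℂ) (a p') *
      (((Real.exp (-(Real.pi * ((x : ℝ) / J) ^ 2)) : ℝ) : ℂ) * ee ((x : ℝ) * (β p - β p'))))
      (a p * (starRingEnd ℂ) (a p') * ((J * gj J (β p - β p') : ℝ) : ℂ)) := by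
    intro p p'
    apply HasSum.mul_left
    rw [← poisson hJ]
    apply Summable.hasSum
    apply Summable.of_norm
    have e : (fun x : ℤ => ‖((Real.exp (-(Real.pi * ((x : ℝ) / J) ^ 2)) : ℝ) : ℂ) * ee ((x : ℝ) * (β p - β p'))‖) =
        fun x : ℤ => Real.exp (-(Real.pi * ((x : ℝ) / J) ^ 2)) := by
      funext x
      rw [norm_mul, ee_norm, mul_one, Complex.norm_real, Real.norm_of_nonneg (Real.exp_pos _).le]
    rw [e]
    exact summ hJ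
  have h2 := hasSum_sum (s := P) fun p _ => hasSum_sum (s := P) fun p' _ => h1 p p'
  have h3 : (fun x : ℤ => ((Real.exp (-(Real.pi * ((x : ℝ) / J) ^ 2)) * ‖∑ p ∈ P, a p * ee ((x : ℝ) * β p)‖ ^ 2 : ℝ) : ℂ)) =
      fun x : ℤ => ∑ p ∈ P, ∑ p' ∈ P, a p * (starRingEnd ℂ) (a p') *
        (((Real.exp (-(Real.pi * ((x : ℝ) / J) ^ 2)) : ℝ) : ℂ) * ee ((x : ℝ) * (β p - β p'))) := by
    funext x
    obtain ⟨w, hw⟩ : ∃ w : ℝ, w = Real.exp (-(Real.pi * ((x : ℝ) / J) ^ 2)) := ⟨_, rfl⟩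
    rw [← hw]
    rw [Complex.ofReal_mul, Complex.ofReal_pow, ← Complex.mul_conj', map_sum, sum_mul_sum, mul_sum]
    refine sum_congr rfl fun p _ => ?_
    rw [mul_sum]
    refine sum_congr rfl fun p' _ => ?_
    rw [map_mul, ee_conj]
    have e1 : (x : ℝ) * (β p - β p') = (x : ℝ) * β p + -((x : ℝ) * β p') := by ring
    rw [e1, ee_add]
    ring
  rw [h3]
  exact h2

private theorem wlow {J : ℕ} (hJ : 1 ≤ J) {x : ℕ} (hx : x ≤ J) : 1 ≤ 24 * Real.exp (-(Real.pi * ((x : ℝ) / J) ^ 2)) := by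
  have hJ0 : (0 : ℝ) < J := by exact_mod_cast hJ
  have h1 : (x : ℝ) / J ≤ 1 := by
    rw [div_le_one hJ0]
    exact_mod_cast hx
  have h0 : 0 ≤ (x : ℝ) / J := by positivity
  have h2 : ((x : ℝ) / J) ^ 2 ≤ 1 := pow_le_one₀ h0 h1
  have h3 : Real.exp (-Real.pi) ≤ Real.exp (-(Real.pi * ((x : ℝ) / J) ^ 2)) := by
    apply Real.exp_le_exp.2
    have := mul_le_mul_of_nonneg_left h2 Real.pi_pos.le
    linarith
  have h4 : Real.exp Real.pi ≤ 24 := Pool.Agent.H93.RS.Ls.exp_pi_le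
  have h5 : Real.exp (-Real.pi) * Real.exp Real.pi = 1 := by
    rw [← Real.exp_add]
    norm_num
  have h6 : 0 < Real.exp (-Real.pi) := Real.exp_pos _
  nlinarith

/-- the common step: block sum against the exact value -/
private theorem blk {ι : Type} (P : Finset ι) (a : ι → ℂ) (β : ι → ℝ) {J : ℕ} (hJ : 1 ≤ J) :
    ∑ x ∈ range (J + 1), ‖∑ p ∈ P, a p * ee ((x : ℝ) * β p)‖ ^ 2 ≤
      24 * ‖∑ p ∈ P, ∑ p' ∈ P, a p * (starRingEnd ℂ) (a p') * (((J : ℝ) * gj J (β p - β p') : ℝ) : ℂ)‖ := by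
  have hJ0 : (0 : ℝ) < J := by exact_mod_cast hJ
  have h1 := par P a β hJ0
  obtain ⟨Z, hZ⟩ : ∃ Z : ℂ, Z = ∑ p ∈ P, ∑ p' ∈ P, a p * (starRingEnd ℂ) (a p') * (((J : ℝ) * gj J (β p - β p') : ℝ) : ℂ) :=
    ⟨_, rfl⟩
  rw [← hZ] at h1 ⊢
  obtain ⟨f, hf⟩ : ∃ f : ℤ → ℝ, f = fun x : ℤ => Real.exp (-(Real.pi * ((x : ℝ) / J) ^ 2)) *
    ‖∑ p ∈ P, a p * ee ((x : ℝ) * β p)‖ ^ 2 := ⟨_, rfl⟩
  have hf0 : ∀ x, 0 ≤ f x := by
    intro x
    rw [hf]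
    exact mul_nonneg (Real.exp_pos _).le (sq_nonneg _)
  have h2 : HasSum (fun x => ((f x : ℝ) : ℂ)) Z := by
    rw [hf]
    exact h1
  have h3 : HasSum f Z.re := by
    have := Complex.hasSum_re h2
    exact this
  obtain ⟨S, hS⟩ : ∃ S : Finset ℤ, S = (range (J + 1)).map ⟨fun n : ℕ => (n : ℤ), Nat.cast_injective⟩ := ⟨_, rfl⟩
  have h4 : ∑ x ∈ S, f x ≤ Z.re := sum_le_hasSum S (fun x _ => hf0 x) h3
  rw [hS, sum_map] at h4
  have h5 : ∑ x ∈ range (J + 1), ‖∑ p ∈ P, a p * ee ((x : ℝ) * β p)‖ ^ 2 ≤ ∑ x ∈ range (J + 1), 24 * f (x : ℤ) := by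
    refine sum_le_sum fun x hx => ?_
    rw [mem_range] at hx
    have h6 := wlow hJ (x := x) (by omega)
    rw [hf]
    have h7 : 0 ≤ ‖∑ p ∈ P, a p * ee ((x : ℝ) * β p)‖ ^ 2 := sq_nonneg _
    push_cast
    nlinarith
  rw [← mul_sum] at h5
  have h8 : Z.re ≤ ‖Z‖ := Complex.re_le_norm Z
  have h9 : ∑ x ∈ range (J + 1), f (x : ℤ) ≤ Z.re := h4
  linarith

/-- `exp(-π(x/J)²) ≥ 1/24` for `0 ≤ x ≤ J` -/
theorem dg1 {ι : Type} (P : Finset ι) (a : ι → ℂ) (β : ι → ℝ) {J : ℕ} (hJ : 1 ≤ J) :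
    ∑ x ∈ range (J + 1), ‖∑ p ∈ P, a p * ee ((x : ℝ) * β p)‖ ^ 2 ≤
      24 * J * ∑ p ∈ P, ∑ p' ∈ P, ‖a p‖ * ‖a p'‖ * gj J (β p - β p') := by
  refine (blk P a β hJ).trans ?_
  have h1 : ‖∑ p ∈ P, ∑ p' ∈ P, a p * (starRingEnd ℂ) (a p') * (((J : ℝ) * gj J (β p - β p') : ℝ) : ℂ)‖ ≤
      ∑ p ∈ P, ∑ p' ∈ P, (J : ℝ) * (‖a p‖ * ‖a p'‖ * gj J (β p - β p')) := by
    refine (norm_sum_le _ _).trans (sum_le_sum fun p _ => (norm_sum_le _ _).trans (sum_le_sum fun p' _ => ?_))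
    rw [norm_mul, norm_mul, RCLike.norm_conj, Complex.norm_real, Real.norm_of_nonneg
      (mul_nonneg (Nat.cast_nonneg _) (gj_nonneg _ _))]
    apply le_of_eq
    ring
  have h2 : ∑ p ∈ P, ∑ p' ∈ P, (J : ℝ) * (‖a p‖ * ‖a p'‖ * gj J (β p - β p')) =
      J * ∑ p ∈ P, ∑ p' ∈ P, ‖a p‖ * ‖a p'‖ * gj J (β p - β p') := by
    rw [mul_sum]
    refine sum_congr rfl fun p _ => ?_
    rw [mul_sum]
  rw [h2] at h1
  calc _ ≤ 24 * (J * ∑ p ∈ P, ∑ p' ∈ P, ‖a p‖ * ‖a p'‖ * gj J (β p - β p')) := by linarith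
    _ = _ := by ring

/-- the same with centre `x0`, exact: local mean square = diagonal + `fl` -/
theorem dg2 (R H k m : ℕ) (hm : 1 ≤ m) (x0 : ℕ) :
    ∑ n ∈ Icc x0 (x0 + m), ‖Gk R H k n‖ ^ 2 ≤ 24 * m * (4 * ∑ q ∈ Pool.Agent.H99.GB.QQ R, ‖Pool.Agent.H99.GB.fc H ⟨q, k⟩‖ ^ 2 + ‖fl R H k m x0‖) := by
  obtain ⟨Q, hQ⟩ : ∃ Q : Finset ℕ, Q = Pool.Agent.H99.GB.QQ R := ⟨_, rfl⟩
  obtain ⟨c, hc⟩ : ∃ c : ℕ → ℂ, c = fun q => Pool.Agent.H99.GB.fc H ⟨q, k⟩ := ⟨_, rfl⟩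
  obtain ⟨a, ha⟩ : ∃ a : ℕ → ℂ, a = fun q => c q * ee ((x0 : ℝ) * ((k : ℝ) / q)) := ⟨_, rfl⟩
  obtain ⟨β, hβ⟩ : ∃ β : ℕ → ℝ, β = fun q : ℕ => (k : ℝ) / (q : ℝ) := ⟨_, rfl⟩
  have h1 := blk Q a β hm
  have h2 : ∑ n ∈ Icc x0 (x0 + m), ‖Gk R H k n‖ ^ 2 = ∑ x ∈ range (m + 1), ‖∑ p ∈ Q, a p * ee ((x : ℝ) * β p)‖ ^ 2 := by
    have e1 : Icc x0 (x0 + m) = Ico x0 (x0 + (m + 1)) := by
      ext i
      rw [mem_Icc, mem_Ico]
      omega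
    rw [e1, sum_Ico_eq_sum_range]
    have e2 : x0 + (m + 1) - x0 = m + 1 := by omega
    rw [e2]
    refine sum_congr rfl fun x _ => ?_
    congr 2
    unfold Gk
    rw [← hQ]
    refine sum_congr rfl fun q _ => ?_
    rw [ha, hβ, hc]
    dsimp only
    rw [mul_assoc, ← ee_add]
    congr 2
    push_cast
    ring
  rw [h2]
  refine h1.trans ?_
  have h3 : ∑ p ∈ Q, ∑ p' ∈ Q, a p * (starRingEnd ℂ) (a p') * (((m : ℝ) * gj m (β p - β p') : ℝ) : ℂ) =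
      (m : ℂ) * (∑ p ∈ Q, c p * (starRingEnd ℂ) (c p) * ((gj m 0 : ℝ) : ℂ) + fl R H k m x0) := by
    have e1 : ∀ p p' : ℕ, a p * (starRingEnd ℂ) (a p') * (((m : ℝ) * gj m (β p - β p') : ℝ) : ℂ) =
        (m : ℂ) * (c p * (starRingEnd ℂ) (c p') * ((gj m ((k : ℝ) / p - (k : ℝ) / p') : ℝ) : ℂ) *
          ee ((x0 : ℝ) * ((k : ℝ) / p - (k : ℝ) / p'))) := by
      intro p p'
      rw [ha, hβ]
      dsimp only
      rw [map_mul, ee_conj]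
      have e3 : (x0 : ℝ) * ((k : ℝ) / p - (k : ℝ) / p') = (x0 : ℝ) * ((k : ℝ) / p) + -((x0 : ℝ) * ((k : ℝ) / p')) := by
        ring
      rw [e3, ee_add]
      push_cast
      ring
    have e2 : fl R H k m x0 = ∑ p ∈ (Q ×ˢ Q).filter (fun p => p.1 ≠ p.2), c p.1 * (starRingEnd ℂ) (c p.2) *
        ((gj m ((k : ℝ) / p.1 - (k : ℝ) / p.2) : ℝ) : ℂ) * ee ((x0 : ℝ) * ((k : ℝ) / p.1 - (k : ℝ) / p.2)) := by
      unfold fl PQ ap
      rw [hQ, hc]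
      push_cast
      rfl
    have e4 : ∑ p ∈ Q, ∑ p' ∈ Q, a p * (starRingEnd ℂ) (a p') * (((m : ℝ) * gj m (β p - β p') : ℝ) : ℂ) =
        ∑ p ∈ Q ×ˢ Q, (m : ℂ) * (c p.1 * (starRingEnd ℂ) (c p.2) * ((gj m ((k : ℝ) / p.1 - (k : ℝ) / p.2) : ℝ) : ℂ) *
          ee ((x0 : ℝ) * ((k : ℝ) / p.1 - (k : ℝ) / p.2))) := by
      rw [sum_product]
      exact sum_congr rfl fun p _ => sum_congr rfl fun p' _ => e1 p p'
    rw [e4, ← mul_sum, e2, ← sum_filter_add_sum_filter_not (Q ×ˢ Q) (fun p => p.1 ≠ p.2), add_comm]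
    congr 2
    have e5 : (Q ×ˢ Q).filter (fun p => ¬ p.1 ≠ p.2) = Q.map ⟨fun q => (q, q), fun x y h => (Prod.mk.inj h).1⟩ := by
      ext p
      rw [mem_filter, mem_product, mem_map]
      constructor
      · rintro ⟨⟨g1, g2⟩, g3⟩
        rw [not_not] at g3
        exact ⟨p.1, g1, by
          change (p.1, p.1) = p
          rw [Prod.ext_iff]
          exact ⟨rfl, g3⟩⟩
      · rintro ⟨q, g1, g2⟩
        change (q, q) = p at g2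
        rw [← g2]
        exact ⟨⟨g1, g1⟩, by simp⟩
    rw [e5, sum_map]
    refine sum_congr rfl fun q _ => ?_
    change c q * (starRingEnd ℂ) (c q) * ((gj m ((k : ℝ) / q - (k : ℝ) / q) : ℝ) : ℂ) *
          ee ((x0 : ℝ) * ((k : ℝ) / q - (k : ℝ) / q)) = _
    rw [sub_self, mul_zero, ee_zero, mul_one]
  rw [h3, norm_mul, Complex.norm_natCast]
  have hg0 : gj m 0 ≤ 4 := by
    have g1 := gj_le (J := m) (β := 0) (by exact_mod_cast hm) (by norm_num)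
    norm_num at g1
    exact g1
  have h4 : ‖∑ p ∈ Q, c p * (starRingEnd ℂ) (c p) * ((gj m 0 : ℝ) : ℂ)‖ ≤ 4 * ∑ q ∈ Q, ‖c q‖ ^ 2 := by
    rw [mul_sum]
    refine (norm_sum_le _ _).trans (sum_le_sum fun q _ => ?_)
    rw [norm_mul, norm_mul, RCLike.norm_conj, Complex.norm_real, Real.norm_of_nonneg (gj_nonneg _ _)]
    have : 0 ≤ ‖c q‖ * ‖c q‖ := mul_self_nonneg _
    nlinarith
  have h5 : ‖∑ p ∈ Q, c p * (starRingEnd ℂ) (c p) * ((gj m 0 : ℝ) : ℂ) + fl R H k m x0‖ ≤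
      4 * ∑ q ∈ Q, ‖c q‖ ^ 2 + ‖fl R H k m x0‖ := (norm_add_le _ _).trans (by linarith)
  have h6 : (m : ℝ) * ‖∑ p ∈ Q, c p * (starRingEnd ℂ) (c p) * ((gj m 0 : ℝ) : ℂ) + fl R H k m x0‖ ≤
      m * (4 * ∑ q ∈ Q, ‖c q‖ ^ 2 + ‖fl R H k m x0‖) := mul_le_mul_of_nonneg_left h5 (Nat.cast_nonneg _)
  have h7 : (4 * ∑ q ∈ Pool.Agent.H99.GB.QQ R, ‖Pool.Agent.H99.GB.fc H ⟨q, k⟩‖ ^ 2 + ‖fl R H k m x0‖) =
      4 * ∑ q ∈ Q, ‖c q‖ ^ 2 + ‖fl R H k m x0‖ := by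
    rw [hQ, hc]
  rw [h7]
  calc _ ≤ 24 * (m * (4 * ∑ q ∈ Q, ‖c q‖ ^ 2 + ‖fl R H k m x0‖)) := by linarith
    _ = _ := by ring

end Pool.Agent.H93.BK
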