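import Mathlib

/-!
# [H93 BK FI]  Fouvry - Iwaniec counting
-/

set_option autoImplicit false

namespace Pool.Agent.H93.BK

open Finset

private theorem spaced {α : Type} (T : Finset α) (f : α → ℝ) (a L δ : ℝ) (hδ : 0 < δ) (hL : 0 ≤ L)
    (h1 : ∀ x ∈ T, a ≤ f x ∧ f x ≤ a + L) (h2 : ∀ x ∈ T, ∀ y ∈ T, x ≠ y → δ ≤ |f x - f y|) :
    (T.card : ℝ) ≤ 1 + L / δ := by
  classical
  have hinj : Set.InjOn (fun x => ⌊(f x - a) / δ⌋₊) (T : Set α) := by
    intro x hx y hy hxy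
    by_contra hne
    have h := h2 x hx y hy hne
    have hx1 := h1 x hx
    have hy1 := h1 y hy
    simp only at hxy
    have ex := Nat.floor_le (div_nonneg (sub_nonneg.2 hx1.1) hδ.le)
    have ey := Nat.floor_le (div_nonneg (sub_nonneg.2 hy1.1) hδ.le)
    have fx := Nat.lt_floor_add_one ((f x - a) / δ)
    have fy := Nat.lt_floor_add_one ((f y - a) / δ)
    rw [hxy] at ex fx
    have h5 : |(f x - a) / δ - (f y - a) / δ| < 1 := by rw [abs_lt]; constructor <;> linarith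
    have e : (f x - a) / δ - (f y - a) / δ = (f x - f y) / δ := by ring
    rw [e, abs_div, abs_of_pos hδ, div_lt_one hδ] at h5
    linarith
  have hmap : ∀ x ∈ T, ⌊(f x - a) / δ⌋₊ ∈ range (⌊L / δ⌋₊ + 1) := by
    intro x hx
    rw [mem_range, Nat.lt_succ_iff]
    apply Nat.floor_le_floor
    apply div_le_div_of_nonneg_right _ hδ.le
    linarith [(h1 x hx).2]
  have h4 := card_le_card_of_injOn _ hmap hinj
  rw [card_range] at h4
  have h3 : (T.card : ℝ) ≤ ((⌊L / δ⌋₊ + 1 : ℕ) : ℝ) := by exact_mod_cast h4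
  push_cast at h3
  have := Nat.floor_le (div_nonneg hL hδ.le)
  linarith

private theorem cfib {α β : Type} [DecidableEq β] (s : Finset α) (t : Finset β) (f : α → β)
    (hf : ∀ a ∈ s, f a ∈ t) (M : ℝ) (h : ∀ b ∈ t, ((s.filter (fun a => f a = b)).card : ℝ) ≤ M) :
    (s.card : ℝ) ≤ t.card * M := by
  rw [card_eq_sum_card_fiberwise hf]
  push_cast
  calc ∑ b ∈ t, ((s.filter (fun a => f a = b)).card : ℝ) ≤ ∑ _b ∈ t, M := sum_le_sum h
    _ = t.card * M := by rw [sum_const, nsmul_eq_mul]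

/-- two fractions -/
private theorem frac {b c b' c' : ℕ} {B : ℝ} (hb : 0 < b) (hb' : 0 < b') (h1 : (b : ℝ) ≤ B) (h2 : (b' : ℝ) ≤ B)
    (hc : Nat.Coprime b c) (hc' : Nat.Coprime b' c') (hne : ¬ (b = b' ∧ c = c')) :
    1 / B ^ 2 ≤ |(c : ℝ) / b - (c' : ℝ) / b'| := by
  have hbr : (0 : ℝ) < b := by exact_mod_cast hb
  have hbr' : (0 : ℝ) < b' := by exact_mod_cast hb'
  have hB : 0 < B := lt_of_lt_of_le hbr h1
  have e : (c : ℝ) / b - (c' : ℝ) / b' = ((c : ℝ) * b' - c' * b) / (b * b') := by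
    field_simp
  have hne2 : (c : ℤ) * b' - c' * b ≠ 0 := by
    intro h0
    apply hne
    have h3 : c * b' = c' * b := by
      have : (c : ℤ) * b' = c' * b := by linarith
      exact_mod_cast this
    have d1 : b ∣ b' := by
      have : b ∣ c * b' := ⟨c', by rw [h3, mul_comm]⟩
      exact hc.dvd_of_dvd_mul_left this
    have d2 : b' ∣ b := by
      have : b' ∣ c' * b := ⟨c, by rw [← h3, mul_comm]⟩
      exact hc'.dvd_of_dvd_mul_left this
    have hbb : b = b' := Nat.dvd_antisymm d1 d2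
    refine ⟨hbb, ?_⟩
    subst hbb
    exact Nat.eq_of_mul_eq_mul_right hb h3
  have h4 : (1 : ℝ) ≤ |(c : ℝ) * b' - c' * b| := by
    have : (1 : ℤ) ≤ |(c : ℤ) * b' - c' * b| := Int.one_le_abs hne2
    exact_mod_cast this
  rw [e, abs_div, abs_of_pos (mul_pos hbr hbr')]
  apply div_le_div₀ (abs_nonneg _) h4 (mul_pos hbr hbr')
  rw [sq]
  exact mul_le_mul h1 h2 hbr'.le hB.le

/-- the basic inequality -/
private theorem near {v u b c ν : ℝ} (hv : 0 < v) (hu : 0 < u) (hb : 0 < b) (hc : 0 < c) (h1 : v ≤ 16 * u)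
    (h : |v * c ^ 2 - u * b ^ 2| ≤ ν * b) : |c - b * √(u / v)| ≤ 4 * ν / v := by
  set w := √(u / v) with hw
  have hw2 : w ^ 2 = u / v := by rw [hw]; exact Real.sq_sqrt (by positivity)
  have hw4 : 1 / 4 ≤ w := by
    rw [hw]
    apply Real.le_sqrt_of_sq_le
    rw [le_div_iff₀ hv]
    linarith
  have e : v * c ^ 2 - u * b ^ 2 = v * ((c - b * w) * (c + b * w)) := by
    have : u = v * w ^ 2 := by rw [hw2]; field_simp
    rw [this]; ring
  rw [e, abs_mul, abs_mul, abs_of_pos hv, abs_of_pos (a := c + b * w) (by positivity)] at h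
  have h2 : b / 4 ≤ c + b * w := by nlinarith
  have h3 : v * (|c - b * w| * (b / 4)) ≤ ν * b := by
    refine le_trans ?_ h
    apply mul_le_mul_of_nonneg_left _ hv.le
    exact mul_le_mul_of_nonneg_left h2 (abs_nonneg _)
  rw [le_div_iff₀ hv]
  have h4 : (|c - b * w| * v) * b ≤ (4 * ν) * b := by linarith
  exact le_of_mul_le_mul_right h4 hb

/-- the quadruples -/
private noncomputable def Sq (D Y : ℕ) (ν : ℝ) : Finset (ℕ × ℕ × ℕ × ℕ) :=
  ((Icc 1 D) ×ˢ (Icc 1 D) ×ˢ (Icc 1 Y) ×ˢ (Icc 1 Y)).filter (fun z : ℕ × ℕ × ℕ × ℕ =>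
      Nat.Coprime z.1 z.2.1 ∧ Nat.Coprime z.2.2.1 z.2.2.2 ∧ z.1 ≤ 16 * z.2.1 ∧ z.2.1 ≤ 16 * z.1 ∧
        |(z.1 : ℝ) * (z.2.2.2 : ℝ) ^ 2 - (z.2.1 : ℝ) * (z.2.2.1 : ℝ) ^ 2| ≤ ν * z.2.2.1)

private theorem mem_Sq {D Y : ℕ} {ν : ℝ} {z : ℕ × ℕ × ℕ × ℕ} (h : z ∈ Sq D Y ν) :
    1 ≤ z.1 ∧ z.1 ≤ D ∧ 1 ≤ z.2.1 ∧ 1 ≤ z.2.2.1 ∧ z.2.2.1 ≤ Y ∧ 1 ≤ z.2.2.2 ∧
    Nat.Coprime z.1 z.2.1 ∧ Nat.Coprime z.2.2.1 z.2.2.2 ∧ z.1 ≤ 16 * z.2.1 ∧ z.2.1 ≤ 16 * z.1 ∧
        |(z.1 : ℝ) * (z.2.2.2 : ℝ) ^ 2 - (z.2.1 : ℝ) * (z.2.2.1 : ℝ) ^ 2| ≤ ν * z.2.2.1 := by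
  rw [Sq, mem_filter, mem_product, mem_product, mem_product, mem_Icc, mem_Icc, mem_Icc, mem_Icc] at h
  obtain ⟨⟨h1, h2, h3, h4⟩, h5, h6, h7, h8, h9⟩ := h
  exact ⟨h1.1, h1.2, h2.1, h3.1, h3.2, h4.1, h5, h6, h7, h8, h9⟩

/-- a dyadic block -/
private theorem block (D Y : ℕ) (ν : ℝ) (hν : 0 ≤ ν) (V B : ℕ) (hV : 1 ≤ V) (hB : 1 ≤ B) :
    (((Sq D Y ν).filter (fun z => V ≤ z.1 ∧ z.1 < 2 * V ∧ B ≤ z.2.2.1 ∧ z.2.2.1 < 2 * B)).card : ℝ) ≤
      1100 * (1 + ν) * (V * B) := by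
  set T := (Sq D Y ν).filter (fun z => V ≤ z.1 ∧ z.1 < 2 * V ∧ B ≤ z.2.2.1 ∧ z.2.2.1 < 2 * B) with hT
  have hVr : (1 : ℝ) ≤ V := by exact_mod_cast hV
  have hBr : (1 : ℝ) ≤ B := by exact_mod_cast hB
  have hV0 : (0 : ℝ) < V := by linarith
  have hB0 : (0 : ℝ) < B := by linarith
  have hVB : (0 : ℝ) < (V : ℝ) * B := by positivity
  rcases le_or_gt V B with hle | hlt
  · -- fix (v,u)
    have hler : (V : ℝ) ≤ B := by exact_mod_cast hle
    have key := cfib T ((Ico V (2 * V)) ×ˢ (Ico 0 (32 * V))) (fun z => (z.1, z.2.1)) (by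
      intro z hz
      rw [hT, mem_filter] at hz
      obtain ⟨hz1, hz2, hz3, hz4, hz5⟩ := hz
      obtain ⟨a1, a2, a3, a4, a5, a6, a7, a8, a9, a10, a11⟩ := mem_Sq hz1
      rw [mem_product, mem_Ico, mem_Ico]
      refine ⟨⟨hz2, hz3⟩, Nat.zero_le _, ?_⟩
      simp only
      omega) (1 + (8 * ν / (V * B)) / (1 / (2 * B) ^ 2)) (by
      intro p _
      apply spaced _ (fun z => (z.2.2.2 : ℝ) / z.2.2.1) (√((p.2 : ℝ) / p.1) - 4 * ν / (V * B)) _ _ (by positivity) (by positivity)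
      · intro z hz
        rw [mem_filter, hT, mem_filter] at hz
        obtain ⟨⟨hz1, hz2, hz3, hz4, hz5⟩, hz6⟩ := hz
        obtain ⟨a1, a2, a3, a4, a5, a6, a7, a8, a9, a10, a11⟩ := mem_Sq hz1
        have b1 : (1 : ℝ) ≤ z.1 := by exact_mod_cast a1
        have b3 : (1 : ℝ) ≤ z.2.1 := by exact_mod_cast a3
        have b4 : (1 : ℝ) ≤ z.2.2.1 := by exact_mod_cast a4
        have b6 : (1 : ℝ) ≤ z.2.2.2 := by exact_mod_cast a6
        have b9 : (z.1 : ℝ) ≤ 16 * z.2.1 := by exact_mod_cast a9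
        have c2 : (V : ℝ) ≤ z.1 := by exact_mod_cast hz2
        have c4 : (B : ℝ) ≤ z.2.2.1 := by exact_mod_cast hz4
        have hn := near (by linarith) (by linarith) (by linarith) (by linarith) b9 a11
        rw [← hz6]
        simp only
        have hn2 : |(z.2.2.2 : ℝ) / z.2.2.1 - √((z.2.1 : ℝ) / z.1)| ≤ 4 * ν / (V * B) := by
          have e : (z.2.2.2 : ℝ) / z.2.2.1 - √((z.2.1 : ℝ) / z.1) =
              ((z.2.2.2 : ℝ) - z.2.2.1 * √((z.2.1 : ℝ) / z.1)) / z.2.2.1 := by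
            field_simp
          rw [e, abs_div, abs_of_pos (a := (z.2.2.1 : ℝ)) (by linarith)]
          calc |(z.2.2.2 : ℝ) - z.2.2.1 * √((z.2.1 : ℝ) / z.1)| / z.2.2.1 ≤ (4 * ν / z.1) / z.2.2.1 :=
                div_le_div_of_nonneg_right hn (by linarith)
            _ = 4 * ν / (z.1 * z.2.2.1) := by rw [div_div]
            _ ≤ 4 * ν / (V * B) := by
                apply div_le_div_of_nonneg_left (by positivity) hVB
                exact mul_le_mul c2 c4 hB0.le (by linarith)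
        rw [abs_le] at hn2
        constructor
        · linarith [hn2.1]
        · have : 8 * ν / ((V : ℝ) * B) = 4 * ν / (V * B) + 4 * ν / (V * B) := by ring
          rw [this]
          linarith [hn2.2]
      · intro z hz z' hz' hne
        rw [mem_filter, hT, mem_filter] at hz hz'
        obtain ⟨⟨hz1, hz2, hz3, hz4, hz5⟩, hz6⟩ := hz
        obtain ⟨a1, a2, a3, a4, a5, a6, a7, a8, a9, a10, a11⟩ := mem_Sq hz1
        obtain ⟨⟨hz1', hz2', hz3', hz4', hz5'⟩, hz6'⟩ := hz'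
        obtain ⟨a1', a2', a3', a4', a5', a6', a7', a8', a9', a10', a11'⟩ := mem_Sq hz1'
        apply frac (by omega) (by omega) _ _ a8 a8'
        · rintro ⟨e1, e2⟩
          apply hne
          have e3 : z.1 = z'.1 := by rw [← hz6'] at hz6; exact (Prod.mk.inj hz6).1
          have e4 : z.2.1 = z'.2.1 := by rw [← hz6'] at hz6; exact (Prod.mk.inj hz6).2
          exact Prod.ext e3 (Prod.ext e4 (Prod.ext e1 e2))
        · have : (z.2.2.1 : ℝ) < 2 * B := by exact_mod_cast hz5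
          linarith
        · have : (z'.2.2.1 : ℝ) < 2 * B := by exact_mod_cast hz5'
          linarith)
    refine key.trans ?_
    rw [card_product, Nat.card_Ico, Nat.card_Ico]
    have e1 : 2 * V - V = V := by omega
    rw [e1, Nat.sub_zero]
    push_cast
    have e2 : 8 * ν / ((V : ℝ) * B) / (1 / (2 * B) ^ 2) = 32 * ν * B / V := by
      field_simp
      ring
    rw [e2]
    have e3 : (V : ℝ) * (32 * V) * (1 + 32 * ν * B / V) = 32 * (V * V) + 1024 * (ν * (V * B)) := by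
      field_simp
      ring
    rw [e3]
    have h1 : (V : ℝ) * V ≤ V * B := mul_le_mul_of_nonneg_left hler hV0.le
    nlinarith [mul_nonneg hν hVB.le]
  · have hltr : (B : ℝ) < V := by exact_mod_cast hlt
    rcases le_or_gt (V : ℝ) ν with hVν | hVν
    · -- fix (v,u,b)
      have key := cfib T ((Ico V (2 * V)) ×ˢ (Ico 0 (32 * V)) ×ˢ (Ico B (2 * B))) (fun z => (z.1, z.2.1, z.2.2.1)) (by
        intro z hz
        rw [hT, mem_filter] at hz
        obtain ⟨hz1, hz2, hz3, hz4, hz5⟩ := hz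
        obtain ⟨a1, a2, a3, a4, a5, a6, a7, a8, a9, a10, a11⟩ := mem_Sq hz1
        rw [mem_product, mem_product, mem_Ico, mem_Ico, mem_Ico]
        refine ⟨⟨hz2, hz3⟩, ⟨Nat.zero_le _, ?_⟩, hz4, hz5⟩
        simp only
        omega) (1 + (8 * ν / V) / 1) (by
        intro p _
        apply spaced _ (fun z => (z.2.2.2 : ℝ)) (p.2.2 * √((p.2.1 : ℝ) / p.1) - 4 * ν / V) _ _ (by positivity) (by positivity)
        · intro z hz
          rw [mem_filter, hT, mem_filter] at hz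
          obtain ⟨⟨hz1, hz2, hz3, hz4, hz5⟩, hz6⟩ := hz
          obtain ⟨a1, a2, a3, a4, a5, a6, a7, a8, a9, a10, a11⟩ := mem_Sq hz1
          have b1 : (1 : ℝ) ≤ z.1 := by exact_mod_cast a1
          have b3 : (1 : ℝ) ≤ z.2.1 := by exact_mod_cast a3
          have b4 : (1 : ℝ) ≤ z.2.2.1 := by exact_mod_cast a4
          have b6 : (1 : ℝ) ≤ z.2.2.2 := by exact_mod_cast a6
          have b9 : (z.1 : ℝ) ≤ 16 * z.2.1 := by exact_mod_cast a9
          have c2 : (V : ℝ) ≤ z.1 := by exact_mod_cast hz2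
          have hn := near (by linarith) (by linarith) (by linarith) (by linarith) b9 a11
          rw [← hz6]
          simp only
          have hn2 : 4 * ν / (z.1 : ℝ) ≤ 4 * ν / V := div_le_div_of_nonneg_left (by positivity) hV0 c2
          rw [abs_le] at hn
          constructor
          · linarith [hn.1]
          · have : 8 * ν / (V : ℝ) = 4 * ν / V + 4 * ν / V := by ring
            rw [this]
            linarith [hn.2]
        · intro z hz z' hz' hne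
          rw [mem_filter] at hz hz'
          have e : z.1 = z'.1 ∧ z.2.1 = z'.2.1 ∧ z.2.2.1 = z'.2.2.1 := by
            have h6 := hz.2
            rw [← hz'.2] at h6
            have h7 := Prod.mk.inj h6
            have h8 := Prod.mk.inj h7.2
            exact ⟨h7.1, h8.1, h8.2⟩
          have hne2 : (z.2.2.2 : ℤ) - z'.2.2.2 ≠ 0 := by
            intro h0
            apply hne
            have : z.2.2.2 = z'.2.2.2 := by omega
            exact Prod.ext e.1 (Prod.ext e.2.1 (Prod.ext e.2.2 this))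
          have : (1 : ℤ) ≤ |(z.2.2.2 : ℤ) - z'.2.2.2| := Int.one_le_abs hne2
          exact_mod_cast this)
      refine key.trans ?_
      rw [card_product, card_product, Nat.card_Ico, Nat.card_Ico, Nat.card_Ico]
      have e1 : 2 * V - V = V := by omega
      have e2 : 2 * B - B = B := by omega
      rw [e1, e2, Nat.sub_zero]
      push_cast
      have e3 : (V : ℝ) * (32 * V * B) * (1 + 8 * ν / V / 1) = 32 * (V * (V * B)) + 256 * (ν * (V * B)) := by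
        field_simp
        ring
      rw [e3]
      have h1 : (V : ℝ) * (V * B) ≤ ν * (V * B) := mul_le_mul_of_nonneg_right hVν hVB.le
      nlinarith [mul_nonneg hν hVB.le]
    · -- fix (b,c)
      have key := cfib T ((Ico B (2 * B)) ×ˢ (Ico 0 (10 * B))) (fun z => (z.2.2.1, z.2.2.2)) (by
        intro z hz
        rw [hT, mem_filter] at hz
        obtain ⟨hz1, hz2, hz3, hz4, hz5⟩ := hz
        obtain ⟨a1, a2, a3, a4, a5, a6, a7, a8, a9, a10, a11⟩ := mem_Sq hz1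
        rw [mem_product, mem_Ico, mem_Ico]
        refine ⟨⟨hz4, hz5⟩, Nat.zero_le _, ?_⟩
        simp only
        have b1 : (1 : ℝ) ≤ z.1 := by exact_mod_cast a1
        have b4 : (1 : ℝ) ≤ z.2.2.1 := by exact_mod_cast a4
        have b6 : (1 : ℝ) ≤ z.2.2.2 := by exact_mod_cast a6
        have b10 : (z.2.1 : ℝ) ≤ 16 * z.1 := by exact_mod_cast a10
        have c2 : (V : ℝ) ≤ z.1 := by exact_mod_cast hz2
        rw [abs_le] at a11
        have h1 : (z.1 : ℝ) * (z.2.2.2 : ℝ) ^ 2 ≤ 17 * z.1 * (z.2.2.1 : ℝ) ^ 2 := by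
          have h2 : (z.2.1 : ℝ) * (z.2.2.1 : ℝ) ^ 2 ≤ 16 * z.1 * (z.2.2.1 : ℝ) ^ 2 :=
            mul_le_mul_of_nonneg_right b10 (by positivity)
          have h3 : ν * z.2.2.1 ≤ z.1 * (z.2.2.1 : ℝ) ^ 2 := by
            have : ν * z.2.2.1 ≤ z.1 * z.2.2.1 := mul_le_mul_of_nonneg_right (by linarith) (by linarith)
            have h4 : (z.1 : ℝ) * z.2.2.1 ≤ z.1 * (z.2.2.1 : ℝ) ^ 2 := by
              apply mul_le_mul_of_nonneg_left _ (by linarith)
              nlinarith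
            linarith
          linarith [a11.2]
        have h2 : (z.2.2.2 : ℝ) ^ 2 ≤ 17 * (z.2.2.1 : ℝ) ^ 2 := by
          have h3 : (z.1 : ℝ) * (z.2.2.2 : ℝ) ^ 2 ≤ z.1 * (17 * (z.2.2.1 : ℝ) ^ 2) := by linarith
          exact le_of_mul_le_mul_left h3 (by linarith)
        have h3 : (z.2.2.2 : ℝ) ≤ 5 * z.2.2.1 := by
          apply le_of_sq_le_sq _ (by positivity)
          nlinarith
        have h4 : z.2.2.2 ≤ 5 * z.2.2.1 := by exact_mod_cast h3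
        omega) (1 + (2 * ν / (V * B)) / (1 / (2 * V) ^ 2)) (by
        intro p _
        apply spaced _ (fun z => (z.2.1 : ℝ) / z.1) (((p.2 : ℝ) / p.1) ^ 2 - ν / (V * B)) _ _ (by positivity) (by positivity)
        · intro z hz
          rw [mem_filter, hT, mem_filter] at hz
          obtain ⟨⟨hz1, hz2, hz3, hz4, hz5⟩, hz6⟩ := hz
          obtain ⟨a1, a2, a3, a4, a5, a6, a7, a8, a9, a10, a11⟩ := mem_Sq hz1
          have b1 : (1 : ℝ) ≤ z.1 := by exact_mod_cast a1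
          have b4 : (1 : ℝ) ≤ z.2.2.1 := by exact_mod_cast a4
          have c2 : (V : ℝ) ≤ z.1 := by exact_mod_cast hz2
          have c4 : (B : ℝ) ≤ z.2.2.1 := by exact_mod_cast hz4
          rw [← hz6]
          simp only
          have hn2 : |((z.2.2.2 : ℝ) / z.2.2.1) ^ 2 - (z.2.1 : ℝ) / z.1| ≤ ν / (V * B) := by
            have hz10 : (0 : ℝ) < z.1 := by linarith
            have hz40 : (0 : ℝ) < z.2.2.1 := by linarith
            have e : ((z.2.2.2 : ℝ) / z.2.2.1) ^ 2 - (z.2.1 : ℝ) / z.1 =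
                ((z.1 : ℝ) * (z.2.2.2 : ℝ) ^ 2 - (z.2.1 : ℝ) * (z.2.2.1 : ℝ) ^ 2) / (z.1 * (z.2.2.1 : ℝ) ^ 2) := by
              field_simp
            rw [e, abs_div, abs_of_pos (a := (z.1 : ℝ) * (z.2.2.1 : ℝ) ^ 2) (by positivity)]
            calc |(z.1 : ℝ) * (z.2.2.2 : ℝ) ^ 2 - (z.2.1 : ℝ) * (z.2.2.1 : ℝ) ^ 2| / (z.1 * (z.2.2.1 : ℝ) ^ 2)
                ≤ (ν * z.2.2.1) / (z.1 * (z.2.2.1 : ℝ) ^ 2) := div_le_div_of_nonneg_right a11 (by positivity)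
              _ = ν / (z.1 * z.2.2.1) := by field_simp
              _ ≤ ν / (V * B) := by
                  apply div_le_div_of_nonneg_left (by positivity) hVB
                  exact mul_le_mul c2 c4 hB0.le (by linarith)
          rw [abs_le] at hn2
          constructor
          · linarith [hn2.2]
          · have : 2 * ν / ((V : ℝ) * B) = ν / (V * B) + ν / (V * B) := by ring
            rw [this]
            linarith [hn2.1]
        · intro z hz z' hz' hne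
          rw [mem_filter, hT, mem_filter] at hz hz'
          obtain ⟨⟨hz1, hz2, hz3, hz4, hz5⟩, hz6⟩ := hz
          obtain ⟨a1, a2, a3, a4, a5, a6, a7, a8, a9, a10, a11⟩ := mem_Sq hz1
          obtain ⟨⟨hz1', hz2', hz3', hz4', hz5'⟩, hz6'⟩ := hz'
          obtain ⟨a1', a2', a3', a4', a5', a6', a7', a8', a9', a10', a11'⟩ := mem_Sq hz1'
          apply frac (by omega) (by omega) _ _ a7 a7'
          · rintro ⟨e1, e2⟩
            apply hne
            have e3 : z.2.2.1 = z'.2.2.1 := by rw [← hz6'] at hz6; exact (Prod.mk.inj hz6).1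
            have e4 : z.2.2.2 = z'.2.2.2 := by rw [← hz6'] at hz6; exact (Prod.mk.inj hz6).2
            exact Prod.ext e1 (Prod.ext e2 (Prod.ext e3 e4))
          · have : (z.1 : ℝ) < 2 * V := by exact_mod_cast hz3
            linarith
          · have : (z'.1 : ℝ) < 2 * V := by exact_mod_cast hz3'
            linarith)
      refine key.trans ?_
      rw [card_product, Nat.card_Ico, Nat.card_Ico]
      have e1 : 2 * B - B = B := by omega
      rw [e1, Nat.sub_zero]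
      push_cast
      have e2 : 2 * ν / ((V : ℝ) * B) / (1 / (2 * V) ^ 2) = 8 * ν * V / B := by
        field_simp
        ring
      rw [e2]
      have e3 : (B : ℝ) * (10 * B) * (1 + 8 * ν * V / B) = 10 * (B * B) + 80 * (ν * (V * B)) := by
        field_simp
        ring
      rw [e3]
      have h1 : (B : ℝ) * B ≤ V * B := mul_le_mul_of_nonneg_right hltr.le hB0.le
      nlinarith [mul_nonneg hν hVB.le]

private theorem geo (D : ℕ) (hD : 1 ≤ D) : ∑ i ∈ range (Nat.log 2 D + 1), (2 : ℝ) ^ i ≤ 2 * D := by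
  rw [geom_sum_eq (by norm_num)]
  have h1 : 2 ^ Nat.log 2 D ≤ D := Nat.pow_log_le_self 2 (by omega)
  have h2 : (2 : ℝ) ^ Nat.log 2 D ≤ D := by exact_mod_cast h1
  rw [pow_succ]
  norm_num
  linarith

/-- coprime quadruples, `d = v`, `d' = u`, `e = b`, `e' = c`: dyadic `V < v ≤ 2V`, `B < b ≤ 2B`; `V ≤ B`: for each `u/v` the fractions `c/b` lie in an interval
of length `6ν/(VB)` and are `1/(4B²)` spaced; `V > B`: for each `c/b` the fractions `u/v`. Count `≤ C (VB + ν VB)`. -/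
theorem fi1 : ∃ C : ℝ, 0 < C ∧ ∀ D Y : ℕ, 1 ≤ D → 1 ≤ Y → ∀ ν : ℝ, 0 ≤ ν →
    ((((Icc 1 D) ×ˢ (Icc 1 D) ×ˢ (Icc 1 Y) ×ˢ (Icc 1 Y)).filter (fun z : ℕ × ℕ × ℕ × ℕ =>
      Nat.Coprime z.1 z.2.1 ∧ Nat.Coprime z.2.2.1 z.2.2.2 ∧ z.1 ≤ 16 * z.2.1 ∧ z.2.1 ≤ 16 * z.1 ∧
        |(z.1 : ℝ) * (z.2.2.2 : ℝ) ^ 2 - (z.2.1 : ℝ) * (z.2.2.1 : ℝ) ^ 2| ≤ ν * z.2.2.1)).card : ℝ) ≤
      C * (1 + ν) * (D * Y) := by
  refine ⟨4400, by norm_num, ?_⟩
  intro D Y hD hY ν hν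
  change ((Sq D Y ν).card : ℝ) ≤ _
  have hmaps : ∀ z ∈ Sq D Y ν, (fun z : ℕ × ℕ × ℕ × ℕ => (Nat.log 2 z.1, Nat.log 2 z.2.2.1)) z ∈
      (range (Nat.log 2 D + 1)) ×ˢ (range (Nat.log 2 Y + 1)) := by
    intro z hz
    obtain ⟨a1, a2, a3, a4, a5, a6, a7, a8, a9, a10, a11⟩ := mem_Sq hz
    rw [mem_product, mem_range, mem_range]
    have r1 : Nat.log 2 z.1 ≤ Nat.log 2 D := Nat.log_mono_right a2
    have r2 : Nat.log 2 z.2.2.1 ≤ Nat.log 2 Y := Nat.log_mono_right a5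
    exact ⟨Nat.lt_succ_of_le r1, Nat.lt_succ_of_le r2⟩
  rw [card_eq_sum_card_fiberwise hmaps]
  push_cast
  have hb : ∀ p ∈ (range (Nat.log 2 D + 1)) ×ˢ (range (Nat.log 2 Y + 1)),
      (((Sq D Y ν).filter (fun z : ℕ × ℕ × ℕ × ℕ => (Nat.log 2 z.1, Nat.log 2 z.2.2.1) = p)).card : ℝ) ≤
        1100 * (1 + ν) * ((2 : ℝ) ^ p.1 * (2 : ℝ) ^ p.2) := by
    intro p _
    have h1 := block D Y ν hν (2 ^ p.1) (2 ^ p.2) Nat.one_le_two_pow Nat.one_le_two_pow
    push_cast at h1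
    refine le_trans ?_ h1
    have h2 : (Sq D Y ν).filter (fun z : ℕ × ℕ × ℕ × ℕ => (Nat.log 2 z.1, Nat.log 2 z.2.2.1) = p) ⊆
        (Sq D Y ν).filter (fun z => 2 ^ p.1 ≤ z.1 ∧ z.1 < 2 * 2 ^ p.1 ∧ 2 ^ p.2 ≤ z.2.2.1 ∧ z.2.2.1 < 2 * 2 ^ p.2) := by
      intro z hz
      rw [mem_filter] at hz ⊢
      obtain ⟨hz1, hz2⟩ := hz
      obtain ⟨a1, a2, a3, a4, a5, a6, a7, a8, a9, a10, a11⟩ := mem_Sq hz1
      refine ⟨hz1, ?_⟩
      rw [← hz2]
      simp only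
      refine ⟨Nat.pow_log_le_self 2 (by omega), ?_, Nat.pow_log_le_self 2 (by omega), ?_⟩
      · have := Nat.lt_pow_succ_log_self (b := 2) (by norm_num) z.1
        rw [pow_succ] at this
        linarith
      · have := Nat.lt_pow_succ_log_self (b := 2) (by norm_num) z.2.2.1
        rw [pow_succ] at this
        linarith
    exact_mod_cast card_le_card h2
  refine (sum_le_sum hb).trans ?_
  rw [← mul_sum, sum_product]
  simp only
  have e : ∑ x ∈ range (Nat.log 2 D + 1), ∑ y ∈ range (Nat.log 2 Y + 1), (2 : ℝ) ^ x * (2 : ℝ) ^ y =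
      (∑ x ∈ range (Nat.log 2 D + 1), (2 : ℝ) ^ x) * (∑ y ∈ range (Nat.log 2 Y + 1), (2 : ℝ) ^ y) := by
    rw [sum_mul_sum]
  rw [e]
  have g1 := geo D hD
  have g2 := geo Y hY
  have g3 : (0 : ℝ) ≤ ∑ y ∈ range (Nat.log 2 Y + 1), (2 : ℝ) ^ y := sum_nonneg (fun _ _ => by positivity)
  have g4 := mul_le_mul g1 g2 g3 (by positivity)
  calc 1100 * (1 + ν) * ((∑ x ∈ range (Nat.log 2 D + 1), (2 : ℝ) ^ x) * (∑ y ∈ range (Nat.log 2 Y + 1), (2 : ℝ) ^ y))
      ≤ 1100 * (1 + ν) * (2 * D * (2 * Y)) := mul_le_mul_of_nonneg_left g4 (by positivity)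
    _ = 4400 * (1 + ν) * (D * Y) := by ring

private theorem harm (D : ℕ) : ∑ g ∈ Icc 1 D, 1 / (g : ℝ) ≤ 1 + Real.log D := by
  have h := harmonic_le_one_add_log D
  rw [harmonic_eq_sum_Icc] at h
  push_cast at h
  simpa [one_div] using h

/-- `d = g v`, `d' = g u`, `e = f b`, `e' = f c` coprime: `fi1` with `D/g`, `Y/f`, `ν = μ/(g f)` -/
theorem fi : ∃ C : ℝ, 0 < C ∧ ∀ D Y : ℕ, 1 ≤ D → 1 ≤ Y → ∀ μ : ℝ, 1 ≤ μ →
    ((((Icc 1 D) ×ˢ (Icc 1 D) ×ˢ (Icc 1 Y) ×ˢ (Icc 1 Y)).filter (fun z : ℕ × ℕ × ℕ × ℕ =>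
      z.1 ≤ 16 * z.2.1 ∧ z.2.1 ≤ 16 * z.1 ∧
        |(z.1 : ℝ) * (z.2.2.2 : ℝ) ^ 2 - (z.2.1 : ℝ) * (z.2.2.1 : ℝ) ^ 2| ≤ μ * z.2.2.1)).card : ℝ) ≤
      C * μ * (D * Y) * ((1 + Real.log D) * (1 + Real.log Y)) := by
  obtain ⟨C, hC, h⟩ := fi1
  refine ⟨2 * C, by positivity, ?_⟩
  intro D Y hD hY μ hμ
  set S := ((Icc 1 D) ×ˢ (Icc 1 D) ×ˢ (Icc 1 Y) ×ˢ (Icc 1 Y)).filter (fun z : ℕ × ℕ × ℕ × ℕ =>
      z.1 ≤ 16 * z.2.1 ∧ z.2.1 ≤ 16 * z.1 ∧
        |(z.1 : ℝ) * (z.2.2.2 : ℝ) ^ 2 - (z.2.1 : ℝ) * (z.2.2.1 : ℝ) ^ 2| ≤ μ * z.2.2.1) with hS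
  have hmem : ∀ z ∈ S, (1 ≤ z.1 ∧ z.1 ≤ D) ∧ (1 ≤ z.2.1 ∧ z.2.1 ≤ D) ∧ (1 ≤ z.2.2.1 ∧ z.2.2.1 ≤ Y) ∧
      (1 ≤ z.2.2.2 ∧ z.2.2.2 ≤ Y) ∧ z.1 ≤ 16 * z.2.1 ∧ z.2.1 ≤ 16 * z.1 ∧
        |(z.1 : ℝ) * (z.2.2.2 : ℝ) ^ 2 - (z.2.1 : ℝ) * (z.2.2.1 : ℝ) ^ 2| ≤ μ * z.2.2.1 := by
    intro z hz
    rw [hS, mem_filter, mem_product, mem_product, mem_product, mem_Icc, mem_Icc, mem_Icc, mem_Icc] at hz
    obtain ⟨⟨h1, h2, h3, h4⟩, h5, h6, h7⟩ := hz
    exact ⟨h1, h2, h3, h4, h5, h6, h7⟩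
  have hmaps : ∀ z ∈ S, (fun z : ℕ × ℕ × ℕ × ℕ => (Nat.gcd z.1 z.2.1, Nat.gcd z.2.2.1 z.2.2.2)) z ∈
      (Icc 1 D) ×ˢ (Icc 1 Y) := by
    intro z hz
    obtain ⟨h1, h2, h3, h4, _, _, _⟩ := hmem z hz
    rw [mem_product, mem_Icc, mem_Icc]
    refine ⟨⟨Nat.gcd_pos_of_pos_left _ h1.1, ?_⟩, Nat.gcd_pos_of_pos_left _ h3.1, ?_⟩
    · exact (Nat.gcd_le_left _ h1.1).trans h1.2
    · exact (Nat.gcd_le_left _ h3.1).trans h3.2
  rw [card_eq_sum_card_fiberwise hmaps]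
  push_cast
  have hb : ∀ p ∈ (Icc 1 D) ×ˢ (Icc 1 Y),
      ((S.filter (fun z : ℕ × ℕ × ℕ × ℕ => (Nat.gcd z.1 z.2.1, Nat.gcd z.2.2.1 z.2.2.2) = p)).card : ℝ) ≤
        2 * C * μ * (D * Y) * (1 / (p.1 : ℝ) * (1 / (p.2 : ℝ))) := by
    intro p hp
    rw [mem_product, mem_Icc, mem_Icc] at hp
    obtain ⟨⟨hp1, hp2⟩, hp3, hp4⟩ := hp
    have q1 : (1 : ℝ) ≤ p.1 := by exact_mod_cast hp1
    have q3 : (1 : ℝ) ≤ p.2 := by exact_mod_cast hp3
    have hfi := h (D / p.1) (Y / p.2) (Nat.div_pos hp2 hp1) (Nat.div_pos hp4 hp3) (μ / (p.1 * p.2)) (by positivity)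
    have hinj : (S.filter (fun z : ℕ × ℕ × ℕ × ℕ => (Nat.gcd z.1 z.2.1, Nat.gcd z.2.2.1 z.2.2.2) = p)).card ≤
        (((Icc 1 (D / p.1)) ×ˢ (Icc 1 (D / p.1)) ×ˢ (Icc 1 (Y / p.2)) ×ˢ (Icc 1 (Y / p.2))).filter
          (fun z : ℕ × ℕ × ℕ × ℕ =>
            Nat.Coprime z.1 z.2.1 ∧ Nat.Coprime z.2.2.1 z.2.2.2 ∧ z.1 ≤ 16 * z.2.1 ∧ z.2.1 ≤ 16 * z.1 ∧
        |(z.1 : ℝ) * (z.2.2.2 : ℝ) ^ 2 - (z.2.1 : ℝ) * (z.2.2.1 : ℝ) ^ 2| ≤ μ / (p.1 * p.2) * z.2.2.1)).card := by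
      apply card_le_card_of_injOn (fun z => (z.1 / p.1, z.2.1 / p.1, z.2.2.1 / p.2, z.2.2.2 / p.2))
      · intro z hz
        rw [mem_coe, mem_filter] at hz
        obtain ⟨hz1, hz2⟩ := hz
        obtain ⟨h1, h2, h3, h4, h5, h6, h7⟩ := hmem z hz1
        have g1 : Nat.gcd z.1 z.2.1 = p.1 := (Prod.mk.inj hz2).1
        have g2 : Nat.gcd z.2.2.1 z.2.2.2 = p.2 := (Prod.mk.inj hz2).2
        have d1 : p.1 ∣ z.1 := by rw [← g1]; exact Nat.gcd_dvd_left _ _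
        have d2 : p.1 ∣ z.2.1 := by rw [← g1]; exact Nat.gcd_dvd_right _ _
        have d3 : p.2 ∣ z.2.2.1 := by rw [← g2]; exact Nat.gcd_dvd_left _ _
        have d4 : p.2 ∣ z.2.2.2 := by rw [← g2]; exact Nat.gcd_dvd_right _ _
        have c1 : Nat.Coprime (z.1 / p.1) (z.2.1 / p.1) := by
          rw [← g1]; exact Nat.coprime_div_gcd_div_gcd (by rw [g1]; omega)
        have c2 : Nat.Coprime (z.2.2.1 / p.2) (z.2.2.2 / p.2) := by
          rw [← g2]; exact Nat.coprime_div_gcd_div_gcd (by rw [g2]; omega)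
        obtain ⟨v, hv⟩ := d1
        obtain ⟨u, hu⟩ := d2
        obtain ⟨b, hb⟩ := d3
        obtain ⟨c, hc⟩ := d4
        have ev : z.1 / p.1 = v := by rw [hv]; exact Nat.mul_div_cancel_left _ (by omega)
        have eu : z.2.1 / p.1 = u := by rw [hu]; exact Nat.mul_div_cancel_left _ (by omega)
        have eb : z.2.2.1 / p.2 = b := by rw [hb]; exact Nat.mul_div_cancel_left _ (by omega)
        have ec : z.2.2.2 / p.2 = c := by rw [hc]; exact Nat.mul_div_cancel_left _ (by omega)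
        rw [mem_coe, mem_filter, mem_product, mem_product, mem_product, mem_Icc, mem_Icc, mem_Icc, mem_Icc]
        simp only
        have hpos : ∀ {a x y : ℕ}, 1 ≤ a → a = x * y → 1 ≤ y := by
          intro a x y ha he
          rcases Nat.eq_zero_or_pos y with h0 | h0
          · rw [h0, Nat.mul_zero] at he; omega
          · exact h0
        refine ⟨⟨⟨?_, Nat.div_le_div_right h1.2⟩, ⟨?_, Nat.div_le_div_right h2.2⟩, ⟨?_, Nat.div_le_div_right h3.2⟩,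
          ?_, Nat.div_le_div_right h4.2⟩, c1, c2, ?_, ?_, ?_⟩
        · rw [ev]; exact hpos h1.1 hv
        · rw [eu]; exact hpos h2.1 hu
        · rw [eb]; exact hpos h3.1 hb
        · rw [ec]; exact hpos h4.1 hc
        · rw [ev, eu]
          rw [hv, hu] at h5
          have : p.1 * v ≤ p.1 * (16 * u) := by linarith
          exact Nat.le_of_mul_le_mul_left this (by omega)
        · rw [ev, eu]
          rw [hv, hu] at h6
          have : p.1 * u ≤ p.1 * (16 * v) := by linarith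
          exact Nat.le_of_mul_le_mul_left this (by omega)
        · rw [ev, eu, eb, ec]
          rw [hv, hu, hb, hc] at h7
          push_cast at h7
          have p1 : (0 : ℝ) < p.1 := by linarith
          have p2 : (0 : ℝ) < p.2 := by linarith
          have e : (p.1 : ℝ) * v * (p.2 * c) ^ 2 - p.1 * u * (p.2 * b) ^ 2 =
              (p.1 * p.2 ^ 2) * (v * c ^ 2 - u * b ^ 2) := by ring
          rw [e, abs_mul, abs_of_pos (a := (p.1 : ℝ) * (p.2 : ℝ) ^ 2) (by positivity)] at h7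
          rw [div_mul_eq_mul_div, le_div_iff₀ (by positivity)]
          have h8 : p.2 * (|(v : ℝ) * c ^ 2 - u * b ^ 2| * (p.1 * p.2)) ≤ p.2 * (μ * b) := by
            calc p.2 * (|(v : ℝ) * c ^ 2 - u * b ^ 2| * (p.1 * p.2))
                = (p.1 : ℝ) * p.2 ^ 2 * |(v : ℝ) * c ^ 2 - u * b ^ 2| := by ring
              _ ≤ μ * (p.2 * b) := h7
              _ = p.2 * (μ * b) := by ring
          exact le_of_mul_le_mul_left h8 p2
      · intro z hz z' hz' he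
        rw [mem_coe, mem_filter] at hz hz'
        have g1 : Nat.gcd z.1 z.2.1 = p.1 := (Prod.mk.inj hz.2).1
        have g2 : Nat.gcd z.2.2.1 z.2.2.2 = p.2 := (Prod.mk.inj hz.2).2
        have g1' : Nat.gcd z'.1 z'.2.1 = p.1 := (Prod.mk.inj hz'.2).1
        have g2' : Nat.gcd z'.2.2.1 z'.2.2.2 = p.2 := (Prod.mk.inj hz'.2).2
        have f1 := Prod.mk.inj he
        have f2 := Prod.mk.inj f1.2
        have f3 := Prod.mk.inj f2.2
        have r : ∀ {x y g : ℕ}, g ∣ x → g ∣ y → x / g = y / g → x = y := by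
          intro x y g hx hy hxy
          rw [← Nat.div_mul_cancel hx, ← Nat.div_mul_cancel hy, hxy]
        refine Prod.ext (r ?_ ?_ f1.1) (Prod.ext (r ?_ ?_ f2.1) (Prod.ext (r ?_ ?_ f3.1) (r ?_ ?_ f3.2)))
        · rw [← g1]; exact Nat.gcd_dvd_left _ _
        · rw [← g1']; exact Nat.gcd_dvd_left _ _
        · rw [← g1]; exact Nat.gcd_dvd_right _ _
        · rw [← g1']; exact Nat.gcd_dvd_right _ _
        · rw [← g2]; exact Nat.gcd_dvd_left _ _
        · rw [← g2']; exact Nat.gcd_dvd_left _ _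
        · rw [← g2]; exact Nat.gcd_dvd_right _ _
        · rw [← g2']; exact Nat.gcd_dvd_right _ _
    have h1 : ((S.filter (fun z : ℕ × ℕ × ℕ × ℕ => (Nat.gcd z.1 z.2.1, Nat.gcd z.2.2.1 z.2.2.2) = p)).card : ℝ) ≤
        C * (1 + μ / (p.1 * p.2)) * (((D / p.1 : ℕ) : ℝ) * ((Y / p.2 : ℕ) : ℝ)) := by
      refine le_trans ?_ hfi
      exact_mod_cast hinj
    refine h1.trans ?_
    have k1 : ((D / p.1 : ℕ) : ℝ) ≤ D / p.1 := Nat.cast_div_le
    have k2 : ((Y / p.2 : ℕ) : ℝ) ≤ Y / p.2 := Nat.cast_div_le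
    have k3 : 1 + μ / ((p.1 : ℝ) * p.2) ≤ 2 * μ := by
      have : μ / ((p.1 : ℝ) * p.2) ≤ μ := by
        apply div_le_self (by linarith)
        nlinarith
      linarith
    calc C * (1 + μ / (p.1 * p.2)) * (((D / p.1 : ℕ) : ℝ) * ((Y / p.2 : ℕ) : ℝ))
        ≤ C * (2 * μ) * ((D / p.1) * (Y / p.2)) := by
          apply mul_le_mul (mul_le_mul_of_nonneg_left k3 hC.le) (mul_le_mul k1 k2 (by positivity) (by positivity))
            (by positivity) (by positivity)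
      _ = 2 * C * μ * (D * Y) * (1 / (p.1 : ℝ) * (1 / (p.2 : ℝ))) := by ring
  refine (sum_le_sum hb).trans ?_
  rw [← mul_sum, sum_product]
  simp only
  have e : ∑ x ∈ Icc 1 D, ∑ y ∈ Icc 1 Y, 1 / (x : ℝ) * (1 / (y : ℝ)) =
      (∑ x ∈ Icc 1 D, 1 / (x : ℝ)) * (∑ y ∈ Icc 1 Y, 1 / (y : ℝ)) := by
    rw [sum_mul_sum]
  rw [e]
  have g3 : (0 : ℝ) ≤ ∑ y ∈ Icc 1 Y, 1 / (y : ℝ) := sum_nonneg (fun _ _ => by positivity)
  have g5 : (0 : ℝ) ≤ 1 + Real.log D := by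
    have : (1 : ℝ) ≤ D := by exact_mod_cast hD
    have := Real.log_nonneg this
    linarith
  have g4 := mul_le_mul (harm D) (harm Y) g3 g5
  exact mul_le_mul_of_nonneg_left g4 (by positivity)

end Pool.Agent.H93.BK
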