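import Pool.Agent.H93.BK.Defs

/-!
# [H93 BK HI]  coefficients and high frequencies
-/

set_option autoImplicit false

namespace Pool.Agent.H93.BK

open Finset

open Pool.Agent.H99.GB Pool.Agent.H24.AB

private theorem hi_kk (h : ℕ) (θ : ℝ) (h1 : |θ| ≤ 1 / 2) (h0 : θ ≠ 0) :
    ‖KK h θ‖ ≤ 1 / (2 * |θ|) := by
  have h2 : KK h θ = ee θ * ∑ x ∈ range h, ee (x * θ) := by
    unfold KK
    have h3 : Icc 1 h = (range h).image (fun x => x + 1) := by
      ext a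
      simp only [mem_Icc, mem_image, mem_range]
      constructor
      · rintro ⟨h, h'⟩
        exact ⟨a - 1, by omega, by omega⟩
      · rintro ⟨b, hb, rfl⟩
        omega
    rw [h3, Finset.sum_image (fun a _ b _ hab => by simpa using hab), Finset.mul_sum]
    refine Finset.sum_congr rfl fun x _ => ?_
    rw [← ee_add]
    congr 1
    push_cast
    ring
  rw [h2, norm_mul, ee_norm, one_mul]
  have h3 := dk_bound h θ 0 (by simpa using h1) (by simpa using h0)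
  have h4 : 0 < |θ| := abs_pos.2 h0
  rw [Int.cast_zero, sub_zero] at h3
  have h5 : (1 : ℝ) / (4 * θ ^ 2) = (1 / (2 * |θ|)) ^ 2 := by
    rw [← sq_abs θ]
    field_simp
    norm_num
  rw [h5] at h3
  exact le_of_sq_le_sq h3 (by positivity)

/-- `|KK h x| ≤ 1/(2x)` for `0 < x ≤ 1/2` -/
theorem fc_le {H q k : ℕ} (hk : 1 ≤ k) (hkq : 2 * k ≤ q) : ‖fc H ⟨q, k⟩‖ ≤ 1 / (2 * k) := by
  have hk0 : (0 : ℝ) < k := by exact_mod_cast hk
  have hq0 : (0 : ℝ) < q := by exact_mod_cast (by omega : 0 < q)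
  have h2 : 2 * (k : ℝ) ≤ q := by exact_mod_cast hkq
  have h1 : |(k : ℝ) / q| = (k : ℝ) / q := abs_of_nonneg (by positivity)
  have h3 := hi_kk (H % q) ((k : ℝ) / q) (by rw [h1, div_le_div_iff₀ hq0 (by norm_num)]; linarith)
    (by positivity)
  rw [h1] at h3
  unfold fc
  rw [norm_mul, norm_div, norm_one, Complex.norm_natCast]
  calc 1 / (q : ℝ) * ‖KK (H % q) ((k : ℝ) / q)‖ ≤ 1 / q * (1 / (2 * (k / q))) := by gcongr
    _ = 1 / (2 * k) := by field_simp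

theorem fc_conj {H q a : ℕ} (ha : 1 ≤ a) (haq : a < q) : fc H ⟨q, q - a⟩ = (starRingEnd ℂ) (fc H ⟨q, a⟩) := by
  have hq0 : (q : ℝ) ≠ 0 := by
    have : q ≠ 0 := by omega
    exact_mod_cast this
  unfold fc KK
  rw [map_mul, map_div₀, map_one, Complex.conj_natCast, map_sum]
  congr 1
  refine Finset.sum_congr rfl fun i _ => ?_
  rw [ee_conj]
  have h : (i : ℝ) * (((q - a : ℕ) : ℝ) / q) = ((i : ℤ) : ℝ) + -(i * ((a : ℝ) / q)) := by
    rw [Nat.cast_sub haq.le]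
    push_cast
    field_simp
    ring
  rw [h, ee_add, ee_int, one_mul]

private theorem hi_space (R : ℕ) (hR : 1 ≤ R) (i j : Σ _ : ℕ, ℕ)
    (hi : i ∈ (QQ R).sigma (fun q => Ico 1 q)) (hj : j ∈ (QQ R).sigma (fun q => Ico 1 q))
    (hij : i ≠ j) (k : ℤ) :
    1 / (4 * (R : ℝ) ^ 2) ≤ |(i.2 : ℝ) / i.1 - (j.2 : ℝ) / j.1 - k| := by
  obtain ⟨q, a⟩ := i
  obtain ⟨r, b⟩ := j
  simp only [QQ, mem_filter, mem_sigma, mem_Ico, mem_Ioc] at hi hj
  obtain ⟨⟨⟨hqR, hqR'⟩, hq⟩, ha, ha'⟩ := hi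
  obtain ⟨⟨⟨hrR, hrR'⟩, hr⟩, hb, hb'⟩ := hj
  have p1 : (0 : ℝ) < q := by exact_mod_cast hq.pos
  have p2 : (0 : ℝ) < r := by exact_mod_cast hr.pos
  obtain ⟨M, hM⟩ : ∃ M : ℤ, M = (a : ℤ) * r - (b : ℤ) * q - k * (q * r) := ⟨_, rfl⟩
  have hMr : (a : ℝ) / q - (b : ℝ) / r - k = (M : ℝ) / (q * r) := by
    rw [hM]
    push_cast
    field_simp
  have hM0 : M ≠ 0 := by
    intro h0
    rw [hM] at h0
    have hqZ : Prime (q : ℤ) := Nat.prime_iff_prime_int.1 hq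
    have h1 : (q : ℤ) ∣ (a : ℤ) * r := ⟨b + k * r, by linear_combination h0⟩
    rcases hqZ.dvd_or_dvd h1 with h2 | h2
    · have h3 : q ∣ a := by exact_mod_cast h2
      have := Nat.le_of_dvd (by omega) h3
      omega
    · have h3 : q ∣ r := by exact_mod_cast h2
      have h4 : q = r := (Nat.prime_dvd_prime_iff_eq hq hr).1 h3
      subst h4
      have h5 : (a : ℤ) - b = k * q := by
        have hq0 : (q : ℤ) ≠ 0 := hqZ.ne_zero
        apply mul_left_cancel₀ hq0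
        linear_combination h0
      have h6 : k = 0 := by
        have h7 : |(a : ℤ) - b| < q := by
          rw [abs_lt]
          constructor <;> omega
        rw [h5, abs_mul] at h7
        have h8 : |(q : ℤ)| = q := abs_of_nonneg (by positivity)
        rw [h8] at h7
        have h9 : (0 : ℤ) < q := by exact_mod_cast hq.pos
        by_contra hk
        have h10 : (1 : ℤ) ≤ |k| := Int.one_le_abs hk
        nlinarith
      rw [h6, zero_mul] at h5
      have h7 : a = b := by omega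
      subst h7
      exact hij rfl
  have hM1 : (1 : ℝ) ≤ |(M : ℝ)| := by
    have : (1 : ℤ) ≤ |M| := Int.one_le_abs hM0
    exact_mod_cast this
  show 1 / (4 * (R : ℝ) ^ 2) ≤ |(a : ℝ) / q - (b : ℝ) / r - k|
  rw [hMr, abs_div, abs_of_pos (by positivity : (0 : ℝ) < (q : ℝ) * r)]
  have c1 : (q : ℝ) ≤ 2 * R := by exact_mod_cast hqR'
  have c2 : (r : ℝ) ≤ 2 * R := by exact_mod_cast hrR'
  have hprod : (q : ℝ) * r ≤ 4 * (R : ℝ) ^ 2 := by
    calc (q : ℝ) * r ≤ (2 * R) * (2 * R) := by gcongr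
      _ = 4 * (R : ℝ) ^ 2 := by ring
  exact div_le_div₀ (abs_nonneg _) hM1 (by positivity) hprod

private theorem hi_split (q K : ℕ) (hq : 2 * K < q) (f : ℕ → ℂ) :
    ∑ a ∈ Ico 1 q, f a = ∑ k ∈ Icc 1 K, (f k + f (q - k)) + ∑ a ∈ Ioo K (q - K), f a := by
  have h1 : Ico 1 q = (Icc 1 K ∪ Ioo K (q - K)) ∪ Icc (q - K) (q - 1) := by
    ext a
    simp only [mem_Ico, mem_union, mem_Icc, mem_Ioo]
    omega
  have h2 : Disjoint (Icc 1 K) (Ioo K (q - K)) := by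
    rw [Finset.disjoint_left]
    intro a ha hb
    simp only [mem_Icc, mem_Ioo] at ha hb
    omega
  have h3 : Disjoint (Icc 1 K ∪ Ioo K (q - K)) (Icc (q - K) (q - 1)) := by
    rw [Finset.disjoint_left]
    intro a ha hb
    simp only [mem_union, mem_Icc, mem_Ioo] at ha hb
    omega
  have h4 : ∑ a ∈ Icc (q - K) (q - 1), f a = ∑ k ∈ Icc 1 K, f (q - k) := by
    refine Finset.sum_nbij' (fun a => q - a) (fun k => q - k) ?_ ?_ ?_ ?_ ?_
    · intro a ha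
      simp only [mem_Icc] at ha ⊢
      omega
    · intro a ha
      simp only [mem_Icc] at ha ⊢
      omega
    · intro a ha
      simp only [mem_Icc] at ha
      omega
    · intro a ha
      simp only [mem_Icc] at ha
      omega
    · intro a ha
      simp only [mem_Icc] at ha
      have : q - (q - a) = a := by omega
      rw [this]
  rw [h1, Finset.sum_union h3, Finset.sum_union h2, h4, Finset.sum_add_distrib]
  ring

private theorem mem_QQ' {R q : ℕ} (hq : q ∈ QQ R) : R < q ∧ q ≤ 2 * R := by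
  unfold QQ at hq
  rw [mem_filter, mem_Ioc] at hq
  exact hq.1

private theorem hi_conj {R H k : ℕ} (hk : 1 ≤ k) (hkR : k ≤ R) (n : ℕ) :
    (starRingEnd ℂ) (Gk R H k (n : ℤ)) =
      ∑ q ∈ QQ R, fc H ⟨q, q - k⟩ * ee ((n : ℝ) * (((q - k : ℕ) : ℝ) / q)) := by
  unfold Gk
  rw [map_sum]
  refine Finset.sum_congr rfl fun q hq => ?_
  have h1 := mem_QQ' hq
  rw [map_mul, ← fc_conj hk (by omega), ee_conj]
  congr 1
  have hq0 : (q : ℝ) ≠ 0 := by
    have : q ≠ 0 := by omega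
    exact_mod_cast this
  have h : (n : ℝ) * (((q - k : ℕ) : ℝ) / q) = ((n : ℤ) : ℝ) + -(((n : ℤ) : ℝ) * ((k : ℝ) / q)) := by
    rw [Nat.cast_sub (by omega)]
    push_cast
    field_simp
    ring
  rw [h, ee_add, ee_int, one_mul]

private theorem hi_exp {R K : ℕ} (hKR : 2 * K ≤ R) (H n : ℕ) :
    ((G (QQ R) H n - Lo R H K n : ℝ) : ℂ) =
      ∑ i ∈ (QQ R).sigma (fun q => Ioo K (q - K)), fc H i * ee ((n : ℝ) * ((i.2 : ℝ) / i.1)) := by
  have hLo : ((Lo R H K n : ℝ) : ℂ) = ∑ q ∈ QQ R, ∑ k ∈ Icc 1 K,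
      (fc H ⟨q, k⟩ * ee ((n : ℝ) * ((k : ℝ) / q)) + fc H ⟨q, q - k⟩ * ee ((n : ℝ) * (((q - k : ℕ) : ℝ) / q))) := by
    unfold Lo
    rw [← Complex.add_conj, map_sum, ← Finset.sum_add_distrib, Finset.sum_comm]
    refine Finset.sum_congr rfl fun k hk => ?_
    rw [mem_Icc] at hk
    rw [hi_conj hk.1 (by omega) n, Finset.sum_add_distrib]
    congr 1
  have hG : ((G (QQ R) H n : ℝ) : ℂ) = ∑ q ∈ QQ R, ∑ a ∈ Ico 1 q, fc H ⟨q, a⟩ * ee ((n : ℝ) * ((a : ℝ) / q)) := by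
    unfold G
    rw [Complex.ofReal_sum]
    refine Finset.sum_congr rfl fun q hq => fex_exp H q n ?_
    have := mem_QQ' hq
    omega
  rw [Complex.ofReal_sub, hG, hLo, ← Finset.sum_sub_distrib, Finset.sum_sigma]
  refine Finset.sum_congr rfl fun q hq => ?_
  have := mem_QQ' hq
  rw [hi_split q K (by omega) (fun a => fc H ⟨q, a⟩ * ee ((n : ℝ) * ((a : ℝ) / q)))]
  ring

private theorem hi_par {q K : ℕ} (hK : 1 ≤ K) (hq : 2 * K < q) (H : ℕ) :
    ∑ a ∈ Ioo K (q - K), ‖fc H ⟨q, a⟩‖ ^ 2 ≤ 1 / K := by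
  have hK0 : (0 : ℝ) < K := by exact_mod_cast hK
  have h1 : ∀ a ∈ Ioo K (q - K), ‖fc H ⟨q, a⟩‖ ^ 2 ≤
      1 / 4 * ((a : ℝ) ^ 2)⁻¹ + 1 / 4 * (((q - a : ℕ) : ℝ) ^ 2)⁻¹ := by
    intro a ha
    rw [mem_Ioo] at ha
    have e : ∀ y : ℝ, (1 / (2 * y)) ^ 2 = 1 / 4 * (y ^ 2)⁻¹ := by
      intro y
      rw [div_pow, mul_pow, one_pow, one_div, mul_inv]
      norm_num
    rcases Nat.lt_or_ge q (2 * a) with h | h
    · have h2 : a = q - (q - a) := by omega
      have h3 : ‖fc H ⟨q, a⟩‖ ≤ 1 / (2 * ((q - a : ℕ) : ℝ)) := by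
        have h4 : fc H ⟨q, a⟩ = fc H ⟨q, q - (q - a)⟩ := by rw [← h2]
        rw [h4, fc_conj (by omega) (by omega), RCLike.norm_conj]
        exact fc_le (by omega) (by omega)
      have h5 := pow_le_pow_left₀ (norm_nonneg _) h3 2
      rw [e] at h5
      have h6 : 0 ≤ 1 / 4 * ((a : ℝ) ^ 2)⁻¹ := by positivity
      linarith
    · have h3 : ‖fc H ⟨q, a⟩‖ ≤ 1 / (2 * (a : ℝ)) := fc_le (by omega) h
      have h5 := pow_le_pow_left₀ (norm_nonneg _) h3 2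
      rw [e] at h5
      have h6 : 0 ≤ 1 / 4 * (((q - a : ℕ) : ℝ) ^ 2)⁻¹ := by positivity
      linarith
  refine (Finset.sum_le_sum h1).trans ?_
  rw [Finset.sum_add_distrib, ← Finset.mul_sum, ← Finset.mul_sum]
  have h2 := sum_Ioo_inv_sq_le (α := ℝ) K (q - K)
  have h3 : ∑ a ∈ Ioo K (q - K), (((q - a : ℕ) : ℝ) ^ 2)⁻¹ = ∑ a ∈ Ioo K (q - K), ((a : ℝ) ^ 2)⁻¹ := by
    refine Finset.sum_nbij' (fun a => q - a) (fun k => q - k) ?_ ?_ ?_ ?_ ?_
    · intro a ha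
      simp only [mem_Ioo] at ha ⊢
      omega
    · intro a ha
      simp only [mem_Ioo] at ha ⊢
      omega
    · intro a ha
      simp only [mem_Ioo] at ha
      omega
    · intro a ha
      simp only [mem_Ioo] at ha
      omega
    · intro a ha
      rfl
  rw [h3]
  have h4 : 2 / ((K : ℝ) + 1) ≤ 2 / K := div_le_div_of_nonneg_left (by norm_num) hK0 (by linarith)
  have h5 : 2 / (K : ℝ) = 2 * (1 / K) := by ring
  linarith

private theorem card_QQ_le (R : ℕ) : ((QQ R).card : ℝ) ≤ R := by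
  have h1 : (QQ R).card ≤ R := by
    unfold QQ
    refine (Finset.card_filter_le _ _).trans ?_
    rw [Nat.card_Ioc]
    omega
  exact_mod_cast h1

/-- `G - Lo` has the frequencies `a/q`, `K < a < q - K`; `H24/AB/LS.large_sieve` as in `H24/TS/Lls` -/
theorem hi {R K : ℕ} (hR : 1 ≤ R) (hK : 1 ≤ K) (hKR : 2 * K ≤ R) (H M N : ℕ) (hN : 1 ≤ N) :
    ∑ n ∈ Ioc M (M + N), (G (QQ R) H n - Lo R H K n) ^ 2 ≤ 10 * ((N : ℝ) + 4 * (R : ℝ) ^ 2) * (R / K) := by
  have hR1 : (1 : ℝ) ≤ R := by exact_mod_cast hR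
  have hR2 : (1 : ℝ) ≤ (R : ℝ) ^ 2 := one_le_pow₀ hR1
  have hK0 : (0 : ℝ) < K := by exact_mod_cast hK
  have hG2 : ∀ n : ℕ, (G (QQ R) H n - Lo R H K n) ^ 2 =
      ‖∑ i ∈ (QQ R).sigma (fun q => Ioo K (q - K)), fc H i * ee ((n : ℝ) * ((i.2 : ℝ) / i.1))‖ ^ 2 := by
    intro n
    rw [← hi_exp hKR H n, Complex.norm_real, Real.norm_eq_abs, sq_abs]
  have hsub : ∀ i ∈ (QQ R).sigma (fun q => Ioo K (q - K)), i ∈ (QQ R).sigma (fun q => Ico 1 q) := by
    intro i hi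
    rw [mem_sigma, mem_Ioo] at hi
    rw [mem_sigma, mem_Ico]
    exact ⟨hi.1, by omega, by omega⟩
  have hls := large_sieve ((QQ R).sigma (fun q => Ioo K (q - K))) (fun i => (i.2 : ℝ) / i.1) (fun i => fc H i)
    (1 / (4 * (R : ℝ) ^ 2)) (by positivity) (by
      rw [div_le_one (by positivity)]
      linarith) (fun i hi j hj hij k => hi_space R hR i j (hsub i hi) (hsub j hj) hij k) M N hN
  rw [Finset.sum_congr rfl fun x _ => hG2 x]
  refine hls.trans ?_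
  have h1 : 1 / (1 / (4 * (R : ℝ) ^ 2)) = 4 * (R : ℝ) ^ 2 := by
    rw [one_div_one_div]
  rw [h1]
  apply mul_le_mul_of_nonneg_left _ (by positivity)
  rw [Finset.sum_sigma]
  calc ∑ q ∈ QQ R, ∑ a ∈ Ioo K (q - K), ‖fc H ⟨q, a⟩‖ ^ 2 ≤ ∑ q ∈ QQ R, 1 / (K : ℝ) := by
        refine Finset.sum_le_sum fun q hq => hi_par hK ?_ H
        have := mem_QQ' hq
        omega
    _ = ((QQ R).card : ℝ) * (1 / K) := by rw [Finset.sum_const, nsmul_eq_mul]
    _ ≤ R * (1 / K) := mul_le_mul_of_nonneg_right (card_QQ_le R) (by positivity)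
    _ = R / K := by ring

/-- the value at `n = 0` (trivial) -/
theorem hi0 {R K : ℕ} (hR : 1 ≤ R) (hK : 1 ≤ K) (hKR : 2 * K ≤ R) (H : ℕ) :
    (G (QQ R) H 0 - Lo R H K 0) ^ 2 ≤ 100 * (R : ℝ) ^ 2 * (1 + Real.log K) ^ 2 := by
  have hR0 : (0 : ℝ) ≤ R := Nat.cast_nonneg _
  have hK1 : (1 : ℝ) ≤ K := by exact_mod_cast hK
  have hlog : 0 ≤ Real.log K := Real.log_nonneg hK1
  have hG : |G (QQ R) H 0| ≤ R := by
    unfold G
    refine (Finset.abs_sum_le_sum_abs _ _).trans ?_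
    calc ∑ q ∈ QQ R, |ph H q 0| ≤ ∑ q ∈ QQ R, (1 : ℝ) := by
          refine Finset.sum_le_sum fun q hq => ?_
          have h1 := mem_QQ' hq
          have hq0 : 0 < q := by omega
          have hq1 : (0 : ℝ) < q := by exact_mod_cast hq0
          unfold ph
          rw [abs_div, abs_of_pos hq1, div_le_one hq1, abs_le]
          have a1 : ((0 % q : ℕ) : ℝ) ≤ q := by exact_mod_cast (Nat.mod_lt _ hq0).le
          have a2 : (((0 + H) % q : ℕ) : ℝ) ≤ q := by exact_mod_cast (Nat.mod_lt _ hq0).le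
          have a3 : (0 : ℝ) ≤ ((0 % q : ℕ) : ℝ) := Nat.cast_nonneg _
          have a4 : (0 : ℝ) ≤ (((0 + H) % q : ℕ) : ℝ) := Nat.cast_nonneg _
          constructor <;> linarith
      _ = ((QQ R).card : ℝ) := by simp
      _ ≤ R := card_QQ_le R
  have hL : |Lo R H K 0| ≤ R * (1 + Real.log K) := by
    have h1 : ‖∑ k ∈ Icc 1 K, Gk R H k ((0 : ℕ) : ℤ)‖ ≤ ∑ k ∈ Icc 1 K, (R : ℝ) / 2 * (1 / k) := by
      refine (norm_sum_le _ _).trans (Finset.sum_le_sum fun k hk => ?_)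
      rw [mem_Icc] at hk
      unfold Gk
      refine (norm_sum_le _ _).trans ?_
      calc ∑ q ∈ QQ R, ‖fc H ⟨q, k⟩ * ee ((((0 : ℕ) : ℤ) : ℝ) * ((k : ℝ) / q))‖ ≤ ∑ q ∈ QQ R, 1 / (2 * (k : ℝ)) := by
            refine Finset.sum_le_sum fun q hq => ?_
            have h1 := mem_QQ' hq
            rw [norm_mul, ee_norm, mul_one]
            exact fc_le hk.1 (by omega)
        _ = ((QQ R).card : ℝ) * (1 / (2 * k)) := by rw [Finset.sum_const, nsmul_eq_mul]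
        _ ≤ R * (1 / (2 * k)) := mul_le_mul_of_nonneg_right (card_QQ_le R) (by positivity)
        _ = (R : ℝ) / 2 * (1 / k) := by
            have : (k : ℝ) ≠ 0 := by
              have : k ≠ 0 := by omega
              exact_mod_cast this
            field_simp
    have h2 : ∑ k ∈ Icc 1 K, 1 / (k : ℝ) ≤ 1 + Real.log K := by
      have h3 := harmonic_le_one_add_log K
      have h4 : ((harmonic K : ℚ) : ℝ) = ∑ k ∈ Icc 1 K, 1 / (k : ℝ) := by
        rw [harmonic_eq_sum_Icc]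
        push_cast
        refine Finset.sum_congr rfl fun n _ => ?_
        rw [one_div]
      rwa [h4] at h3
    rw [← Finset.mul_sum] at h1
    have h3 : |Lo R H K 0| ≤ 2 * ‖∑ k ∈ Icc 1 K, Gk R H k ((0 : ℕ) : ℤ)‖ := by
      unfold Lo
      rw [abs_mul, abs_of_pos (by norm_num : (0 : ℝ) < 2)]
      exact mul_le_mul_of_nonneg_left (Complex.abs_re_le_norm _) (by norm_num)
    have h4 : (R : ℝ) / 2 * ∑ k ∈ Icc 1 K, 1 / (k : ℝ) ≤ R / 2 * (1 + Real.log K) :=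
      mul_le_mul_of_nonneg_left h2 (by positivity)
    calc |Lo R H K 0| ≤ 2 * ‖∑ k ∈ Icc 1 K, Gk R H k ((0 : ℕ) : ℤ)‖ := h3
      _ ≤ 2 * ((R : ℝ) / 2 * (1 + Real.log K)) := mul_le_mul_of_nonneg_left (h1.trans h4) (by norm_num)
      _ = R * (1 + Real.log K) := by ring
  have h1 : |G (QQ R) H 0 - Lo R H K 0| ≤ 2 * (R * (1 + Real.log K)) := by
    have h2 := abs_sub (G (QQ R) H 0) (Lo R H K 0)
    have h3 : (R : ℝ) ≤ R * (1 + Real.log K) := by nlinarith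
    linarith
  rw [← sq_abs]
  calc |G (QQ R) H 0 - Lo R H K 0| ^ 2 ≤ (2 * (R * (1 + Real.log K))) ^ 2 := pow_le_pow_left₀ (abs_nonneg _) h1 2
    _ = 4 * (R : ℝ) ^ 2 * (1 + Real.log K) ^ 2 := by ring
    _ ≤ 100 * (R : ℝ) ^ 2 * (1 + Real.log K) ^ 2 := by
        apply mul_le_mul_of_nonneg_right _ (sq_nonneg _)
        nlinarith [sq_nonneg (R : ℝ)]

end Pool.Agent.H93.BK
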