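import Mathlib

/-!
# [H93 BK LOC]  differences of two solutions in a short window
-/

set_option autoImplicit false

namespace Pool.Agent.H93.BK

open Finset

/-- `F(s,s') = d s'² - d' s²`, `|F - dd'(d'-d)| ≤ 64 μ R` for both solutions, `δ = s2 - s1`, `δ' = s2' - s1'`, `σ = s1+s2`, `σ' = s1'+s2'`:
`A = d δ' σ'`, `B = d' δ σ`, `|A - B| ≤ 128 μ R`; `A² - B² = d' σ² (d δ'² - d' δ²) + d δ'² E`, `E = d σ'² - d' σ² = 2(F1+F2) - (d δ'² - d' δ²)` -/
theorem loc : ∃ C : ℝ, 1 ≤ C ∧ ∀ R D μ d d' s1 s2 t1 t2 : ℝ, 1 ≤ μ → C * μ ≤ D → D ^ 2 ≤ R →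
    D / 2 ≤ d → d ≤ D → D / 10 ≤ d' → d' ≤ 5 * D →
    2 * R ≤ s1 → s1 ≤ 4 * R → 2 * R ≤ s2 → s2 ≤ 4 * R → 2 * R ≤ t1 → t1 ≤ 4 * R → 2 * R ≤ t2 → t2 ≤ 4 * R →
    |s2 - s1| ≤ R / D → 1 ≤ |s2 - s1| →
    |d * t1 ^ 2 - d' * s1 ^ 2 - d * d' * (d' - d)| ≤ 64 * μ * R →
    |d * t2 ^ 2 - d' * s2 ^ 2 - d * d' * (d' - d)| ≤ 64 * μ * R →
      |t2 - t1| ≤ C * |s2 - s1| ∧ |d * (t2 - t1) ^ 2 - d' * (s2 - s1) ^ 2| ≤ C * μ * |s2 - s1| := by
  refine ⟨100000, by norm_num, ?_⟩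
  intro R D μ d d' s1 s2 t1 t2 hμ hCD hDR hd1 hd2 hd3 hd4 hs1 hs1' hs2 hs2' ht1 ht1' ht2 ht2' ha1 ha2 hF1 hF2
  have hD1 : (100000 : ℝ) ≤ D := by linarith
  have hD0 : (0 : ℝ) < D := by linarith
  have hR0 : (0 : ℝ) < R := lt_of_lt_of_le (by positivity) hDR
  have hμ0 : (0 : ℝ) < μ := by linarith
  have hd0 : (0 : ℝ) < d := by linarith
  have hd0' : (0 : ℝ) < d' := by linarith
  obtain ⟨a, ha⟩ : ∃ a : ℝ, a = |s2 - s1| := ⟨_, rfl⟩
  obtain ⟨b, hb⟩ : ∃ b : ℝ, b = |t2 - t1| := ⟨_, rfl⟩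
  rw [← ha] at ha1 ha2
  rw [← ha, ← hb]
  have ha0 : (0 : ℝ) < a := by linarith
  have hb0 : (0 : ℝ) ≤ b := by rw [hb]; exact abs_nonneg _
  have haD : a * D ≤ R := (le_div_iff₀ hD0).1 ha1
  have hDR0 : (0 : ℝ) < D * R := by positivity
  have hμD : 100000 * (μ * R) ≤ D * R * a := by
    have h1 : 100000 * μ * R ≤ D * R := mul_le_mul_of_nonneg_right hCD hR0.le
    have h2 : D * R ≤ D * R * a := by nlinarith
    linarith
  -- (1) difference
  have hAB : |d * (t2 - t1) * (t1 + t2) - d' * (s2 - s1) * (s1 + s2)| ≤ 128 * μ * R := by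
    have h : d * (t2 - t1) * (t1 + t2) - d' * (s2 - s1) * (s1 + s2) =
        (d * t2 ^ 2 - d' * s2 ^ 2 - d * d' * (d' - d)) - (d * t1 ^ 2 - d' * s1 ^ 2 - d * d' * (d' - d)) := by ring
    rw [h]
    refine (abs_sub _ _).trans ?_
    linarith
  have hA : |d * (t2 - t1) * (t1 + t2)| = d * b * (t1 + t2) := by
    rw [abs_mul, abs_mul, abs_of_pos hd0, ← hb, abs_of_pos (by linarith : (0 : ℝ) < t1 + t2)]
  have hB : |d' * (s2 - s1) * (s1 + s2)| = d' * a * (s1 + s2) := by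
    rw [abs_mul, abs_mul, abs_of_pos hd0', ← ha, abs_of_pos (by linarith : (0 : ℝ) < s1 + s2)]
  have hBle : |d' * (s2 - s1) * (s1 + s2)| ≤ 40 * (D * R * a) := by
    rw [hB]
    have h1 : d' * a ≤ 5 * D * a := mul_le_mul_of_nonneg_right hd4 ha0.le
    have h2 : s1 + s2 ≤ 8 * R := by linarith
    calc d' * a * (s1 + s2) ≤ 5 * D * a * (8 * R) :=
          mul_le_mul h1 h2 (by linarith) (by positivity)
      _ = 40 * (D * R * a) := by ring
  have hAle : |d * (t2 - t1) * (t1 + t2)| ≤ 41 * (D * R * a) := by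
    have h1 := abs_sub_abs_le_abs_sub (d * (t2 - t1) * (t1 + t2)) (d' * (s2 - s1) * (s1 + s2))
    nlinarith
  have hba : b ≤ 21 * a := by
    rw [hA] at hAle
    have h1 : D / 2 * b * (4 * R) ≤ d * b * (t1 + t2) :=
      mul_le_mul (mul_le_mul_of_nonneg_right hd1 hb0) (by linarith) (by positivity) (by positivity)
    have h2 : D * R * (2 * b) ≤ D * R * (41 * a) := by linarith
    have h3 := le_of_mul_le_mul_left h2 hDR0
    linarith
  refine ⟨by linarith, ?_⟩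
  -- (2) squares
  have hsq : |(d * (t2 - t1) * (t1 + t2)) ^ 2 - (d' * (s2 - s1) * (s1 + s2)) ^ 2| ≤
      10368 * (μ * R * (D * R * a)) := by
    have h : (d * (t2 - t1) * (t1 + t2)) ^ 2 - (d' * (s2 - s1) * (s1 + s2)) ^ 2 =
        (d * (t2 - t1) * (t1 + t2) - d' * (s2 - s1) * (s1 + s2)) *
          (d * (t2 - t1) * (t1 + t2) + d' * (s2 - s1) * (s1 + s2)) := by ring
    rw [h, abs_mul]
    have h1 := abs_add_le (d * (t2 - t1) * (t1 + t2)) (d' * (s2 - s1) * (s1 + s2))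
    calc |d * (t2 - t1) * (t1 + t2) - d' * (s2 - s1) * (s1 + s2)| *
          |d * (t2 - t1) * (t1 + t2) + d' * (s2 - s1) * (s1 + s2)| ≤ (128 * μ * R) * (81 * (D * R * a)) :=
          mul_le_mul hAB (by linarith) (abs_nonneg _) (by positivity)
      _ = 10368 * (μ * R * (D * R * a)) := by ring
  -- (3) the two values
  have hc : |d * d' * (d' - d)| ≤ 25 * (D * R) := by
    rw [abs_mul, abs_of_pos (by positivity : (0 : ℝ) < d * d')]
    have h1 : d * d' ≤ D * (5 * D) := mul_le_mul hd2 hd4 hd0'.le hD0.le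
    have h2 : |d' - d| ≤ 5 * D := by rw [abs_le]; constructor <;> linarith
    calc d * d' * |d' - d| ≤ D * (5 * D) * (5 * D) := mul_le_mul h1 h2 (abs_nonneg _) (by positivity)
      _ = 25 * (D * D ^ 2) := by ring
      _ ≤ 25 * (D * R) := by
          have := mul_le_mul_of_nonneg_left hDR hD0.le
          linarith
  have hG : ∀ x : ℝ, |x - d * d' * (d' - d)| ≤ 64 * μ * R → |x| ≤ 64 * μ * R + 25 * (D * R) := by
    intro x hx
    have h1 : |x| ≤ |x - d * d' * (d' - d)| + |d * d' * (d' - d)| := by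
      have := abs_add_le (x - d * d' * (d' - d)) (d * d' * (d' - d))
      rwa [sub_add_cancel] at this
    linarith
  have hG1 := hG _ hF1
  have hG2 := hG _ hF2
  have hGs : |(d * t1 ^ 2 - d' * s1 ^ 2) + (d * t2 ^ 2 - d' * s2 ^ 2)| ≤ 52 * (μ * (D * R)) := by
    have h1 := abs_add_le (d * t1 ^ 2 - d' * s1 ^ 2) (d * t2 ^ 2 - d' * s2 ^ 2)
    have h2 : 64 * (μ * R) ≤ μ * (D * R) := by
      have : 64 * (μ * R) ≤ D * (μ * R) := mul_le_mul_of_nonneg_right (by linarith) (by positivity)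
      linarith
    have h3 : D * R ≤ μ * (D * R) := by nlinarith
    nlinarith
  -- (4) the identity
  obtain ⟨Δ, hΔ⟩ : ∃ Δ : ℝ, Δ = d * (t2 - t1) ^ 2 - d' * (s2 - s1) ^ 2 := ⟨_, rfl⟩
  rw [← hΔ]
  have hid : Δ * (d' * (s1 + s2) ^ 2 - d * (t2 - t1) ^ 2) =
      ((d * (t2 - t1) * (t1 + t2)) ^ 2 - (d' * (s2 - s1) * (s1 + s2)) ^ 2) -
        2 * (d * (t2 - t1) ^ 2) * ((d * t1 ^ 2 - d' * s1 ^ 2) + (d * t2 ^ 2 - d' * s2 ^ 2)) := by
    rw [hΔ]; ring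
  have hsb : (t2 - t1) ^ 2 = b ^ 2 := by rw [hb, sq_abs]
  have hdb : d * (t2 - t1) ^ 2 ≤ 441 * (R * a) := by
    rw [hsb]
    have h1 : b ^ 2 ≤ (21 * a) ^ 2 := pow_le_pow_left₀ hb0 hba 2
    calc d * b ^ 2 ≤ D * (21 * a) ^ 2 := mul_le_mul hd2 h1 (by positivity) hD0.le
      _ = 441 * ((a * D) * a) := by ring
      _ ≤ 441 * (R * a) := by
          have := mul_le_mul_of_nonneg_right haD ha0.le
          linarith
  have hdb0 : 0 ≤ d * (t2 - t1) ^ 2 := by positivity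
  have hlow : D * R ^ 2 ≤ d' * (s1 + s2) ^ 2 - d * (t2 - t1) ^ 2 := by
    have h1 : D / 10 * (4 * R) ^ 2 ≤ d' * (s1 + s2) ^ 2 :=
      mul_le_mul hd3 (pow_le_pow_left₀ (by positivity) (by linarith) 2) (by positivity) hd0'.le
    have h2 : R * a ≤ R * (R / D) := mul_le_mul_of_nonneg_left ha1 hR0.le
    have h3 : 441 * (R * (R / D)) ≤ 6 / 10 * (D * R ^ 2) := by
      have h4 : R / D ≤ R * (D / 1000) := by
        rw [div_le_iff₀ hD0]
        have : 1 ≤ D / 1000 * D := by nlinarith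
        nlinarith
      have h5 := mul_le_mul_of_nonneg_left h4 hR0.le
      have h6 : R * (R * (D / 1000)) = D * R ^ 2 / 1000 := by ring
      rw [h6] at h5
      have h7 : 0 < D * R ^ 2 := by positivity
      linarith
    have h8 : D / 10 * (4 * R) ^ 2 = 16 / 10 * (D * R ^ 2) := by ring
    linarith
  have hup : |Δ * (d' * (s1 + s2) ^ 2 - d * (t2 - t1) ^ 2)| ≤ 60000 * μ * a * (D * R ^ 2) := by
    rw [hid]
    refine (abs_sub _ _).trans ?_
    have h1 : |2 * (d * (t2 - t1) ^ 2) * ((d * t1 ^ 2 - d' * s1 ^ 2) + (d * t2 ^ 2 - d' * s2 ^ 2))| ≤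
        2 * (441 * (R * a)) * (52 * (μ * (D * R))) := by
      rw [abs_mul, abs_of_nonneg (by positivity : 0 ≤ 2 * (d * (t2 - t1) ^ 2))]
      exact mul_le_mul (by linarith) hGs (abs_nonneg _) (by positivity)
    have h2 : 10368 * (μ * R * (D * R * a)) + 2 * (441 * (R * a)) * (52 * (μ * (D * R))) =
        56232 * μ * a * (D * R ^ 2) := by ring
    have h3 : 56232 * μ * a * (D * R ^ 2) ≤ 60000 * μ * a * (D * R ^ 2) := by
      have : 0 ≤ μ * a * (D * R ^ 2) := by positivity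
      linarith
    linarith
  have hpos : 0 < D * R ^ 2 := by positivity
  have hfin : |Δ| * (D * R ^ 2) ≤ 60000 * μ * a * (D * R ^ 2) := by
    refine le_trans ?_ hup
    rw [abs_mul]
    exact mul_le_mul_of_nonneg_left (hlow.trans (le_abs_self _)) (abs_nonneg _)
  have h1 := le_of_mul_le_mul_right hfin hpos
  have h2 : 0 ≤ μ * a := by positivity
  linarith

/-- the case `s1 = s2` -/
theorem loc0 : ∃ C : ℝ, 1 ≤ C ∧ ∀ R D μ d d' s1 t1 t2 : ℝ, 1 ≤ μ → 0 < D → 1 ≤ R → D / 2 ≤ d →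
    2 * R ≤ t1 → 2 * R ≤ t2 →
    |d * t1 ^ 2 - d' * s1 ^ 2 - d * d' * (d' - d)| ≤ 64 * μ * R →
    |d * t2 ^ 2 - d' * s1 ^ 2 - d * d' * (d' - d)| ≤ 64 * μ * R → |t2 - t1| ≤ C * μ / D := by
  refine ⟨64, by norm_num, ?_⟩
  intro R D μ d d' s1 t1 t2 hμ hD hR hd ht1 ht2 hF1 hF2
  have hd0 : 0 < d := by linarith
  have hR0 : 0 < R := by linarith
  have h : d * (t2 - t1) * (t1 + t2) =
      (d * t2 ^ 2 - d' * s1 ^ 2 - d * d' * (d' - d)) - (d * t1 ^ 2 - d' * s1 ^ 2 - d * d' * (d' - d)) := by ring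
  have h1 : |d * (t2 - t1) * (t1 + t2)| ≤ 128 * μ * R := by
    rw [h]
    refine (abs_sub _ _).trans ?_
    linarith
  rw [abs_mul, abs_mul, abs_of_pos hd0, abs_of_pos (by linarith : (0 : ℝ) < t1 + t2)] at h1
  have h2 : D / 2 * |t2 - t1| * (4 * R) ≤ d * |t2 - t1| * (t1 + t2) :=
    mul_le_mul (mul_le_mul_of_nonneg_right hd (abs_nonneg _)) (by linarith) (by positivity) (by positivity)
  rw [le_div_iff₀ hD]
  have h3 : R * (|t2 - t1| * D) ≤ R * (64 * μ) := by linarith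
  exact le_of_mul_le_mul_left h3 hR0

end Pool.Agent.H93.BK
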