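import Pool.Agent.H93.BK.Defs

/-!
# [H93 BK SPT]  spacing of close pairs of reciprocals: the trivial bound (helper12)
-/

set_option autoImplicit false

namespace Pool.Agent.H93.BK

open Finset

theorem nat_aux {a b D a' b' : ℕ} (h1 : a ≤ b + D) (h2 : a' ≤ b' + D) (e1 : a = a')
    (e2 : b + D - a = b' + D - a') : b = b' := by omega

theorem nat_aux2 {c e c' e' D : ℕ} (h : c ≤ e + D) (h' : c' ≤ e' + D) (h3 : e + D - c = e' + D - c') :
    e + c' = e' + c := by omega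

theorem nat_aux3 {a b D : ℕ} (h1 : a ≤ b + D) (h2 : b ≤ a + D) : b + D - a < 2 * D + 1 := by omega

theorem card_of_diam (T : Finset ℕ) (L : ℝ) (h : ∀ x ∈ T, ∀ y ∈ T, (y : ℝ) - x ≤ L) :
    T.card ≤ ⌊L⌋₊ + 1 := by
  rcases T.eq_empty_or_nonempty with rfl | hT
  · simp
  · have hsub : T ⊆ Icc (T.min' hT) (T.min' hT + ⌊L⌋₊) := by
      intro y hy
      rw [mem_Icc]
      have h1 := T.min'_le y hy
      refine ⟨h1, ?_⟩
      have h2 := h _ (T.min'_mem hT) y hy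
      have h3 : ((y - T.min' hT : ℕ) : ℝ) ≤ L := by
        rw [Nat.cast_sub h1]; exact h2
      have h4 := Nat.le_floor h3
      omega
    have h5 := card_le_card hsub
    rw [Nat.card_Icc] at h5
    omega

/-- two solutions with the same `e - c` -/
theorem diam_aux {R c e c' e' : ℝ} (hR : 0 < R) (hc : R < c) (hc2 : c ≤ 2 * R) (he : R < e) (he2 : e ≤ 2 * R)
    (hc' : R < c') (hc2' : c' ≤ 2 * R) (he' : R < e') (he2' : e' ≤ 2 * R)
    (hd : e - c = e' - c') (hd1 : 1 ≤ |e - c|) {μ : ℝ}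
    (h : |(1 / c - 1 / e) - (1 / c' - 1 / e')| ≤ 2 * (μ / R ^ 3)) : c' - c ≤ 32 * μ := by
  have p1 : 0 < c := hR.trans hc
  have p2 : 0 < e := hR.trans he
  have p3 : 0 < c' := hR.trans hc'
  have p4 : 0 < e' := hR.trans he'
  have hid : (1 / c - 1 / e) - (1 / c' - 1 / e') = (e - c) * ((c' - c) * (c' + e)) / (c * e * (c' * e')) := by
    have e1 : e' = e - c + c' := by linarith
    rw [div_sub_div _ _ p1.ne' p2.ne', div_sub_div _ _ p3.ne' p4.ne', div_sub_div _ _ (by positivity) (by positivity)]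
    congr 1
    rw [e1]; ring
  rw [hid, abs_div, abs_mul, abs_of_pos (show 0 < c * e * (c' * e') by positivity),
    div_le_iff₀ (by positivity)] at h
  have hden : c * e * (c' * e') ≤ 16 * R ^ 4 := by
    have a1 : c * e ≤ (2 * R) * (2 * R) := mul_le_mul hc2 he2 p2.le (by linarith)
    have a2 : c' * e' ≤ (2 * R) * (2 * R) := mul_le_mul hc2' he2' p4.le (by linarith)
    have a3 : c * e * (c' * e') ≤ ((2 * R) * (2 * R)) * ((2 * R) * (2 * R)) :=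
      mul_le_mul a1 a2 (by positivity) (by positivity)
    linarith [a3, show ((2 * R) * (2 * R)) * ((2 * R) * (2 * R)) = 16 * R ^ 4 by ring]
  have hμ : 0 ≤ μ := by
    have h0 : 0 ≤ 2 * (μ / R ^ 3) * (c * e * (c' * e')) := le_trans (by positivity) h
    have h1 : 0 ≤ 2 * (μ / R ^ 3) := by
      by_contra hneg
      push Not at hneg
      have : 2 * (μ / R ^ 3) * (c * e * (c' * e')) < 0 := mul_neg_of_neg_of_pos hneg (by positivity)
      linarith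
    have h2 : 0 ≤ μ / R ^ 3 := by linarith
    by_contra hneg
    push Not at hneg
    have : μ / R ^ 3 < 0 := div_neg_of_neg_of_pos hneg (by positivity)
    linarith
  have h2 : 2 * (μ / R ^ 3) * (c * e * (c' * e')) ≤ 32 * μ * R := by
    have a1 : 2 * (μ / R ^ 3) * (c * e * (c' * e')) ≤ 2 * (μ / R ^ 3) * (16 * R ^ 4) :=
      mul_le_mul_of_nonneg_left hden (by positivity)
    have a2 : 2 * (μ / R ^ 3) * (16 * R ^ 4) = 32 * μ * R := by
      field_simp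
      ring
    linarith
  have h3 : |(c' - c) * (c' + e)| ≤ |e - c| * |(c' - c) * (c' + e)| := by
    have := mul_le_mul_of_nonneg_right hd1 (abs_nonneg ((c' - c) * (c' + e)))
    linarith
  have h4 : (c' - c) * (c' + e) ≤ 32 * μ * R := le_trans (le_abs_self _) (by linarith)
  by_contra hneg
  push Not at hneg
  have h5 : 32 * μ * R < (c' - c) * (c' + e) := by
    have b1 : 32 * μ * R < (c' - c) * R := by
      have := mul_lt_mul_of_pos_right hneg hR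
      linarith
    have b2 : (c' - c) * R ≤ (c' - c) * (c' + e) :=
      mul_le_mul_of_nonneg_left (by linarith) (by linarith)
    linarith
  linarith

/-- trivial bound: fix `a`, `b-a`, `e-c`; then `c` lies in a set of diameter `≤ 32 μ` -/
theorem sp_triv : ∃ C : ℝ, 0 < C ∧ ∀ R : ℕ, 1 ≤ R → ∀ D : ℕ, 1 ≤ D → 4 * D ≤ R → ∀ μ : ℝ, 1 ≤ μ →
    ((Qd R D μ).card : ℝ) ≤ C * μ * R * (D : ℝ) ^ 2 := by
  refine ⟨297, by norm_num, ?_⟩
  intro R hR D hD _ μ hμ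
  have hR0 : (0 : ℝ) < R := by exact_mod_cast hR
  obtain ⟨f, hf⟩ : ∃ f : ℕ × ℕ × ℕ × ℕ → ℕ × ℕ × ℕ,
      f = fun z => (z.1, z.2.1 + D - z.1, z.2.2.2 + D - z.2.2.1) := ⟨_, rfl⟩
  have key : ∀ z ∈ Qd R D μ, (R < z.1 ∧ z.1 ≤ 2 * R) ∧ (R < z.2.1 ∧ z.2.1 ≤ 2 * R) ∧
      (R < z.2.2.1 ∧ z.2.2.1 ≤ 2 * R) ∧ (R < z.2.2.2 ∧ z.2.2.2 ≤ 2 * R) ∧ z.2.2.1 ≠ z.2.2.2 ∧
      (z.1 ≤ z.2.1 + D ∧ z.2.1 ≤ z.1 + D) ∧ (z.2.2.1 ≤ z.2.2.2 + D ∧ z.2.2.2 ≤ z.2.2.1 + D) ∧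
      |1 / (z.1 : ℝ) - 1 / (z.2.1 : ℝ) - 1 / (z.2.2.1 : ℝ) + 1 / (z.2.2.2 : ℝ)| ≤ μ / (R : ℝ) ^ 3 := by
    intro z hz
    unfold Qd at hz
    rw [mem_filter, mem_product, mem_product, mem_product, mem_Ioc, mem_Ioc, mem_Ioc, mem_Ioc] at hz
    obtain ⟨⟨h1, h2, h3, h4⟩, h5, h6, h7, h8, h9⟩ := hz
    rw [abs_le] at h7 h8
    refine ⟨h1, h2, h3, h4, h6, ⟨?_, ?_⟩, ⟨?_, ?_⟩, h9⟩
    · have : (z.1 : ℝ) ≤ ((z.2.1 + D : ℕ) : ℝ) := by push_cast; linarith [h7.2]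
      exact_mod_cast this
    · have : (z.2.1 : ℝ) ≤ ((z.1 + D : ℕ) : ℝ) := by push_cast; linarith [h7.1]
      exact_mod_cast this
    · have : (z.2.2.1 : ℝ) ≤ ((z.2.2.2 + D : ℕ) : ℝ) := by push_cast; linarith [h8.2]
      exact_mod_cast this
    · have : (z.2.2.2 : ℝ) ≤ ((z.2.2.1 + D : ℕ) : ℝ) := by push_cast; linarith [h8.1]
      exact_mod_cast this
  have hcard : (Qd R D μ).card ≤ (⌊32 * μ⌋₊ + 1) * ((Qd R D μ).image f).card := by
    refine card_le_mul_card_image _ _ ?_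
    intro y _
    have hinj : Set.InjOn (fun z : ℕ × ℕ × ℕ × ℕ => z.2.2.1) ((Qd R D μ).filter (fun z => f z = y)) := by
      intro z hz w hw hzw
      rw [mem_coe, mem_filter] at hz hw
      obtain ⟨_, _, _, _, _, ⟨z1, z2⟩, ⟨z3, z4⟩, _⟩ := key z hz.1
      obtain ⟨_, _, _, _, _, ⟨w1, w2⟩, ⟨w3, w4⟩, _⟩ := key w hw.1
      have hzw2 : f z = f w := hz.2.trans hw.2.symm
      rw [hf] at hzw2
      simp only [Prod.mk.injEq] at hzw2
      obtain ⟨e1, e2, e3⟩ := hzw2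
      have hzw' : z.2.2.1 = w.2.2.1 := hzw
      have e4 := nat_aux2 z3 w3 e3
      have e5 : z.2.2.2 = w.2.2.2 := by
        rw [hzw'] at e4
        exact Nat.add_right_cancel e4
      exact Prod.ext e1 (Prod.ext (nat_aux z1 w1 e1 e2) (Prod.ext hzw' e5))
    rw [← card_image_of_injOn hinj]
    refine card_of_diam _ _ ?_
    intro c hc c' hc'
    rw [mem_image] at hc hc'
    obtain ⟨z, hz, rfl⟩ := hc
    obtain ⟨w, hw, rfl⟩ := hc'
    rw [mem_filter] at hz hw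
    obtain ⟨z0, z00, zc, ze, zn, ⟨z1, z2⟩, ⟨z3, z4⟩, z5⟩ := key z hz.1
    obtain ⟨w0, w00, wc, we, wn, ⟨w1, w2⟩, ⟨w3, w4⟩, w5⟩ := key w hw.1
    have hzw2 : f z = f w := hz.2.trans hw.2.symm
    rw [hf] at hzw2
    simp only [Prod.mk.injEq] at hzw2
    obtain ⟨e1, e2, e3⟩ := hzw2
    have eb : z.2.1 = w.2.1 := nat_aux z1 w1 e1 e2
    have ed : z.2.2.2 + w.2.2.1 = w.2.2.2 + z.2.2.1 := nat_aux2 z3 w3 e3
    have edR : (z.2.2.2 : ℝ) + w.2.2.1 = w.2.2.2 + z.2.2.1 := by exact_mod_cast ed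
    have hone : (1 : ℝ) ≤ |(z.2.2.2 : ℝ) - z.2.2.1| := by
      rcases lt_or_gt_of_ne zn with hlt | hlt
      · have : (z.2.2.1 : ℝ) + 1 ≤ z.2.2.2 := by exact_mod_cast hlt
        rw [abs_of_nonneg (by linarith)]; linarith
      · have : (z.2.2.2 : ℝ) + 1 ≤ z.2.2.1 := by exact_mod_cast hlt
        rw [abs_of_nonpos (by linarith)]; linarith
    refine diam_aux (R := R) (e := (z.2.2.2 : ℝ)) (e' := (w.2.2.2 : ℝ)) hR0 ?_ ?_ ?_ ?_ ?_ ?_ ?_ ?_ ?_ hone ?_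
    · exact_mod_cast zc.1
    · exact_mod_cast zc.2
    · exact_mod_cast ze.1
    · exact_mod_cast ze.2
    · exact_mod_cast wc.1
    · exact_mod_cast wc.2
    · exact_mod_cast we.1
    · exact_mod_cast we.2
    · linarith
    · rw [e1, eb] at z5
      rw [abs_le] at z5 w5 ⊢
      constructor
      · linarith [z5.1, z5.2, w5.1, w5.2]
      · linarith [z5.1, z5.2, w5.1, w5.2]
  have himg : ((Qd R D μ).image f).card ≤ R * ((2 * D + 1) * (2 * D + 1)) := by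
    have hsub : (Qd R D μ).image f ⊆ (Ioc R (2 * R)) ×ˢ (range (2 * D + 1)) ×ˢ (range (2 * D + 1)) := by
      intro y hy
      rw [mem_image] at hy
      obtain ⟨z, hz, rfl⟩ := hy
      obtain ⟨z0, z00, zc, ze, zn, ⟨z1, z2⟩, ⟨z3, z4⟩, z5⟩ := key z hz
      rw [hf, mem_product, mem_product, mem_Ioc, mem_range, mem_range]
      exact ⟨z0, nat_aux3 z1 z2, nat_aux3 z3 z4⟩
    have := card_le_card hsub
    rw [card_product, card_product, card_range, Nat.card_Ioc] at this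
    have e1 : 2 * R - R = R := by omega
    rw [e1] at this
    exact this
  have h1 : ((Qd R D μ).card : ℝ) ≤ ((⌊32 * μ⌋₊ : ℝ) + 1) * (R * ((2 * D + 1) * (2 * D + 1))) := by
    have h2 : (Qd R D μ).card ≤ (⌊32 * μ⌋₊ + 1) * (R * ((2 * D + 1) * (2 * D + 1))) :=
      hcard.trans (Nat.mul_le_mul_left _ himg)
    have h3 : ((Qd R D μ).card : ℝ) ≤ (((⌊32 * μ⌋₊ + 1) * (R * ((2 * D + 1) * (2 * D + 1))) : ℕ) : ℝ) := by
      exact_mod_cast h2
    push_cast at h3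
    exact h3
  have h2 : (⌊32 * μ⌋₊ : ℝ) + 1 ≤ 33 * μ := by
    have := Nat.floor_le (show 0 ≤ 32 * μ by linarith)
    linarith
  have hD1 : (1 : ℝ) ≤ D := by exact_mod_cast hD
  have h3 : ((2 * (D : ℝ) + 1) * (2 * D + 1)) ≤ 9 * (D : ℝ) ^ 2 := by nlinarith
  calc ((Qd R D μ).card : ℝ) ≤ ((⌊32 * μ⌋₊ : ℝ) + 1) * (R * ((2 * D + 1) * (2 * D + 1))) := h1
    _ ≤ (33 * μ) * (R * (9 * (D : ℝ) ^ 2)) := by
        refine mul_le_mul h2 (mul_le_mul_of_nonneg_left h3 hR0.le) (by positivity) (by positivity)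
    _ = 297 * μ * R * (D : ℝ) ^ 2 := by ring

end Pool.Agent.H93.BK
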