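import Pool.Agent.H93.BK.Defs
import Pool.Agent.H93.BK.Fi
import Pool.Agent.H93.BK.Loc
import Pool.Agent.H93.BK.SpT

/-!
# [H93 BK SP]  spacing of close pairs of reciprocals (helper48; the trivial bound `sp_triv` is in `SpT`)
-/

set_option autoImplicit false

namespace Pool.Agent.H93.BK

open Finset

/-- cleared denominators -/
theorem sp_id {R μ a b c e : ℝ} (hR : 0 < R) (ha : R < a) (ha2 : a ≤ 2 * R) (hb : R < b)
    (hb2 : b ≤ 2 * R) (hc : R < c) (hc2 : c ≤ 2 * R) (he : R < e) (he2 : e ≤ 2 * R)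
    (h : |1 / a - 1 / b - 1 / c + 1 / e| ≤ μ / R ^ 3) :
    |c * e * (b - a) - a * b * (e - c)| ≤ 16 * μ * R := by
  have ha0 : 0 < a := hR.trans ha
  have hb0 : 0 < b := hR.trans hb
  have hc0 : 0 < c := hR.trans hc
  have he0 : 0 < e := hR.trans he
  have hid : c * e * (b - a) - a * b * (e - c) = (a * b * c * e) * (1 / a - 1 / b - 1 / c + 1 / e) := by
    field_simp
    ring
  have hp : 0 ≤ a * b * c * e := by positivity
  rw [hid, abs_mul, abs_of_nonneg hp]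
  have h1 : a * b * c * e ≤ (2 * R) * (2 * R) * (2 * R) * (2 * R) := by gcongr
  calc a * b * c * e * |1 / a - 1 / b - 1 / c + 1 / e| ≤ ((2 * R) * (2 * R) * (2 * R) * (2 * R)) * (μ / R ^ 3) := by
        gcongr
    _ = 16 * μ * R := by
        field_simp
        ring

/-- the pairs of the same sign -/
theorem sp_sign {R D μ a b c e : ℝ} (hR : 1 ≤ R) (hD : 160 * μ < D) (hμ : 1 ≤ μ) (ha : R < a) (ha2 : a ≤ 2 * R) (hb : R < b)
    (hb2 : b ≤ 2 * R) (hc : R < c) (hc2 : c ≤ 2 * R) (he : R < e) (he2 : e ≤ 2 * R)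
    (h : |1 / a - 1 / b - 1 / c + 1 / e| ≤ μ / R ^ 3) (hd : D < 2 * (b - a)) : D / 10 ≤ e - c := by
  have hR0 : 0 < R := by linarith
  have h1 := sp_id hR0 ha ha2 hb hb2 hc hc2 he he2 h
  have h2 : c * e * (b - a) - 16 * μ * R ≤ a * b * (e - c) := by
    have := (abs_le.1 h1).2
    linarith
  have hD0 : 0 < D := by linarith
  have h3 : R ^ 2 * (D / 2) ≤ c * e * (b - a) := by
    have : R ^ 2 ≤ c * e := by
      rw [pow_two]
      exact mul_le_mul hc.le he.le hR0.le (hR0.trans hc).le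
    exact mul_le_mul this (by linarith) (by linarith) (mul_pos (hR0.trans hc) (hR0.trans he)).le
  have h4 : 16 * μ * R ≤ R ^ 2 * (D / 10) := by
    have : 16 * μ ≤ D / 10 := by linarith
    have h5 : R * (16 * μ) ≤ R * (R * (D / 10)) := by
      have : 16 * μ ≤ R * (D / 10) := by
        nlinarith
      exact mul_le_mul_of_nonneg_left this hR0.le
    nlinarith
  have h5 : R ^ 2 * (D * (2 / 5)) ≤ a * b * (e - c) := by nlinarith
  have h6 : 0 < e - c := by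
    have : 0 < a * b * (e - c) := lt_of_lt_of_le (by positivity) h5
    exact (pos_iff_pos_of_mul_pos this).1 (mul_pos (hR0.trans ha) (hR0.trans hb))
  have h7 : a * b ≤ 4 * R ^ 2 := by
    have : a * b ≤ (2 * R) * (2 * R) := mul_le_mul ha2 hb2 (hR0.trans hb).le (by linarith)
    nlinarith
  have h8 : R ^ 2 * (D * (2 / 5)) ≤ R ^ 2 * (4 * (e - c)) := by
    calc R ^ 2 * (D * (2 / 5)) ≤ a * b * (e - c) := h5
      _ ≤ 4 * R ^ 2 * (e - c) := mul_le_mul_of_nonneg_right h7 h6.le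
      _ = R ^ 2 * (4 * (e - c)) := by ring
  have h9 : D * (2 / 5) ≤ 4 * (e - c) := le_of_mul_le_mul_left h8 (by positivity)
  linarith

/-- the form `F` -/
theorem sp_F {R μ a b c e : ℝ} (h1 : |c * e * (b - a) - a * b * (e - c)| ≤ 16 * μ * R) :
    |(b - a) * (c + e) ^ 2 - (e - c) * (a + b) ^ 2 - (b - a) * (e - c) * ((e - c) - (b - a))| ≤ 64 * μ * R := by
  have : (b - a) * (c + e) ^ 2 - (e - c) * (a + b) ^ 2 - (b - a) * (e - c) * ((e - c) - (b - a)) =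
      4 * (c * e * (b - a) - a * b * (e - c)) := by ring
  rw [this, abs_mul, abs_of_pos (by norm_num : (0 : ℝ) < 4)]
  linarith

/-- positive part of a dyadic block -/
noncomputable def Pp (R D : ℕ) (μ : ℝ) : Finset (ℕ × ℕ × ℕ × ℕ) :=
  ((Ioc R (2 * R)) ×ˢ (Ioc R (2 * R)) ×ˢ (Ioc R (2 * R)) ×ˢ (Ioc R (2 * R))).filter (fun z =>
    (D : ℝ) < 2 * ((z.2.1 : ℝ) - z.1) ∧ (z.2.1 : ℝ) - z.1 ≤ D ∧ |(z.2.2.1 : ℝ) - z.2.2.2| ≤ 5 * D ∧
      |1 / (z.1 : ℝ) - 1 / (z.2.1 : ℝ) - 1 / (z.2.2.1 : ℝ) + 1 / (z.2.2.2 : ℝ)| ≤ μ / (R : ℝ) ^ 3)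

/-- the set counted in `fi` -/
noncomputable def FI (D Y : ℕ) (μ : ℝ) : Finset (ℕ × ℕ × ℕ × ℕ) :=
  ((Icc 1 D) ×ˢ (Icc 1 D) ×ˢ (Icc 1 Y) ×ˢ (Icc 1 Y)).filter (fun z : ℕ × ℕ × ℕ × ℕ =>
      z.1 ≤ 16 * z.2.1 ∧ z.2.1 ≤ 16 * z.1 ∧
        |(z.1 : ℝ) * (z.2.2.2 : ℝ) ^ 2 - (z.2.1 : ℝ) * (z.2.2.1 : ℝ) ^ 2| ≤ μ * z.2.2.1)

/-- data of an element of `Pp` -/
structure Dat (R D : ℕ) (μ : ℝ) (a b c e : ℕ) : Prop where
  ab : a < b
  ce : c < e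
  d1 : (D : ℝ) / 2 ≤ ((b - a : ℕ) : ℝ)
  d2 : ((b - a : ℕ) : ℝ) ≤ D
  d3 : (D : ℝ) / 10 ≤ ((e - c : ℕ) : ℝ)
  d4 : ((e - c : ℕ) : ℝ) ≤ 5 * D
  s1 : 2 * (R : ℝ) ≤ ((a + b : ℕ) : ℝ)
  s2 : ((a + b : ℕ) : ℝ) ≤ 4 * R
  t1 : 2 * (R : ℝ) ≤ ((c + e : ℕ) : ℝ)
  t2 : ((c + e : ℕ) : ℝ) ≤ 4 * R
  F : |((b - a : ℕ) : ℝ) * ((c + e : ℕ) : ℝ) ^ 2 - ((e - c : ℕ) : ℝ) * ((a + b : ℕ) : ℝ) ^ 2 -
      ((b - a : ℕ) : ℝ) * ((e - c : ℕ) : ℝ) * (((e - c : ℕ) : ℝ) - ((b - a : ℕ) : ℝ))| ≤ 64 * μ * R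

theorem Pp_dat {R D : ℕ} {μ : ℝ} (hR : 1 ≤ R) (hμ : 1 ≤ μ) (hD : 160 * μ < D) {a b c e : ℕ}
    (hz : (a, b, c, e) ∈ Pp R D μ) : Dat R D μ a b c e := by
  simp only [Pp, mem_filter, mem_product, mem_Ioc] at hz
  obtain ⟨⟨⟨ha, ha2⟩, ⟨hb, hb2⟩, ⟨hc, hc2⟩, he, he2⟩, h1, h2, h3, h4⟩ := hz
  have hRr : (1 : ℝ) ≤ R := by exact_mod_cast hR
  have ha' : (R : ℝ) < a := by exact_mod_cast ha
  have hb' : (R : ℝ) < b := by exact_mod_cast hb
  have hc' : (R : ℝ) < c := by exact_mod_cast hc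
  have he' : (R : ℝ) < e := by exact_mod_cast he
  have ha2' : (a : ℝ) ≤ 2 * R := by exact_mod_cast ha2
  have hb2' : (b : ℝ) ≤ 2 * R := by exact_mod_cast hb2
  have hc2' : (c : ℝ) ≤ 2 * R := by exact_mod_cast hc2
  have he2' : (e : ℝ) ≤ 2 * R := by exact_mod_cast he2
  have hs := sp_sign hRr hD hμ ha' ha2' hb' hb2' hc' hc2' he' he2' h4 h1
  have hid := sp_id (by linarith) ha' ha2' hb' hb2' hc' hc2' he' he2' h4
  have hab : a < b := by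
    have : (a : ℝ) < b := by linarith
    exact_mod_cast this
  have hce : c < e := by
    have : (c : ℝ) < e := by linarith
    exact_mod_cast this
  have e1 : ((b - a : ℕ) : ℝ) = (b : ℝ) - a := by push_cast [hab.le]; ring
  have e2 : ((e - c : ℕ) : ℝ) = (e : ℝ) - c := by push_cast [hce.le]; ring
  have e3 : ((a + b : ℕ) : ℝ) = (a : ℝ) + b := by push_cast; ring
  have e4 : ((c + e : ℕ) : ℝ) = (c : ℝ) + e := by push_cast; ring
  refine ⟨hab, hce, ?_, ?_, ?_, ?_, ?_, ?_, ?_, ?_, ?_⟩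
  · rw [e1]; linarith
  · rw [e1]; exact h2
  · rw [e2]; exact hs
  · rw [e2]
    have := (abs_le.1 h3).1
    linarith
  · rw [e3]; linarith
  · rw [e3]; linarith
  · rw [e4]; linarith
  · rw [e4]; linarith
  · rw [e1, e2, e3, e4]
    exact sp_F hid

/-- the key of a quadruple: both differences -/
def ky (z : ℕ × ℕ × ℕ × ℕ) : ℕ × ℕ := (z.2.1 - z.1, z.2.2.2 - z.2.2.1)

/-- two solutions with the same differences in the same window: in `fi` or equal -/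
theorem sp_two {C1 C2 : ℝ} (hC1 : 1 ≤ C1)
    (hloc : ∀ R D μ d d' s1 s2 t1 t2 : ℝ, 1 ≤ μ → C1 * μ ≤ D → D ^ 2 ≤ R →
      D / 2 ≤ d → d ≤ D → D / 10 ≤ d' → d' ≤ 5 * D →
      2 * R ≤ s1 → s1 ≤ 4 * R → 2 * R ≤ s2 → s2 ≤ 4 * R → 2 * R ≤ t1 → t1 ≤ 4 * R → 2 * R ≤ t2 → t2 ≤ 4 * R →
      |s2 - s1| ≤ R / D → 1 ≤ |s2 - s1| →
      |d * t1 ^ 2 - d' * s1 ^ 2 - d * d' * (d' - d)| ≤ 64 * μ * R →
      |d * t2 ^ 2 - d' * s2 ^ 2 - d * d' * (d' - d)| ≤ 64 * μ * R →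
        |t2 - t1| ≤ C1 * |s2 - s1| ∧ |d * (t2 - t1) ^ 2 - d' * (s2 - s1) ^ 2| ≤ C1 * μ * |s2 - s1|)
    (hloc0 : ∀ R D μ d d' s1 t1 t2 : ℝ, 1 ≤ μ → 0 < D → 1 ≤ R → D / 2 ≤ d →
      2 * R ≤ t1 → 2 * R ≤ t2 →
      |d * t1 ^ 2 - d' * s1 ^ 2 - d * d' * (d' - d)| ≤ 64 * μ * R →
      |d * t2 ^ 2 - d' * s1 ^ 2 - d * d' * (d' - d)| ≤ 64 * μ * R → |t2 - t1| ≤ C2 * μ / D)
    {R D : ℕ} (hR : 1 ≤ R) (hD1 : 1 ≤ D) (hDR : D ^ 2 ≤ R) {μ : ℝ} (hμ : 1 ≤ μ)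
    (h1 : C1 * μ < D / 20) (h2 : C2 * μ < D) {d d' s1 s2 t1 t2 : ℕ}
    (hd1 : (D : ℝ) / 2 ≤ d) (hd2 : (d : ℝ) ≤ D) (hd3 : (D : ℝ) / 10 ≤ d') (hd4 : (d' : ℝ) ≤ 5 * D)
    (hs1 : 2 * (R : ℝ) ≤ s1) (hs1' : (s1 : ℝ) ≤ 4 * R) (hs2 : 2 * (R : ℝ) ≤ s2) (hs2' : (s2 : ℝ) ≤ 4 * R)
    (ht1 : 2 * (R : ℝ) ≤ t1) (ht1' : (t1 : ℝ) ≤ 4 * R) (ht2 : 2 * (R : ℝ) ≤ t2) (ht2' : (t2 : ℝ) ≤ 4 * R)
    (hs : |(s2 : ℝ) - s1| ≤ (R : ℝ) / D)
    (hF1 : |(d : ℝ) * (t1 : ℝ) ^ 2 - (d' : ℝ) * (s1 : ℝ) ^ 2 - (d : ℝ) * d' * ((d' : ℝ) - d)| ≤ 64 * μ * R)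
    (hF2 : |(d : ℝ) * (t2 : ℝ) ^ 2 - (d' : ℝ) * (s2 : ℝ) ^ 2 - (d : ℝ) * d' * ((d' : ℝ) - d)| ≤ 64 * μ * R) :
    (s1 = s2 ∧ t1 = t2) ∨
      (d, d', ((s2 : ℤ) - s1).natAbs, ((t2 : ℤ) - t1).natAbs) ∈ FI (5 * D) ⌈C1 * ((R : ℝ) / D)⌉₊ (C1 * μ) := by
  have hRr : (1 : ℝ) ≤ R := by exact_mod_cast hR
  have hDr : (1 : ℝ) ≤ D := by exact_mod_cast hD1
  have hDRr : (D : ℝ) ^ 2 ≤ R := by exact_mod_cast hDR
  have hD0 : (0 : ℝ) < D := by linarith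
  by_cases hss : s1 = s2
  · left
    refine ⟨hss, ?_⟩
    subst hss
    have h := hloc0 R D μ d d' s1 t1 t2 hμ hD0 hRr hd1 ht1 ht2 hF1 hF2
    have hlt : |(t2 : ℝ) - t1| < 1 := lt_of_le_of_lt h (by rw [div_lt_one hD0]; exact h2)
    have h3 : |((t2 : ℤ) - t1)| < 1 := by
      have : ((|((t2 : ℤ) - t1)| : ℤ) : ℝ) < 1 := by push_cast; exact hlt
      exact_mod_cast this
    have h4 : (t2 : ℤ) - t1 = 0 := Int.abs_lt_one_iff.1 h3
    omega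
  · right
    have hne : (s2 : ℤ) - s1 ≠ 0 := by omega
    have e1 : ((((s2 : ℤ) - s1).natAbs : ℕ) : ℝ) = |(s2 : ℝ) - s1| := by
      rw [Nat.cast_natAbs]; push_cast; rfl
    have e2 : ((((t2 : ℤ) - t1).natAbs : ℕ) : ℝ) = |(t2 : ℝ) - t1| := by
      rw [Nat.cast_natAbs]; push_cast; rfl
    have hge : (1 : ℝ) ≤ |(s2 : ℝ) - s1| := by
      rw [← e1]
      have : 1 ≤ ((s2 : ℤ) - s1).natAbs := Int.natAbs_pos.2 hne
      exact_mod_cast this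
    obtain ⟨k1, k2⟩ := hloc R D μ d d' s1 s2 t1 t2 hμ (by linarith) hDRr hd1 hd2 hd3 hd4 hs1 hs1' hs2 hs2' ht1 ht1' ht2 ht2'
      hs hge hF1 hF2
    have htne : (t2 : ℤ) - t1 ≠ 0 := by
      intro h0
      have h0' : (t2 : ℝ) - t1 = 0 := by
        have : (((t2 : ℤ) - t1 : ℤ) : ℝ) = 0 := by rw [h0]; simp
        push_cast at this
        exact this
      rw [h0'] at k2
      have k3 : |(d : ℝ) * 0 ^ 2 - (d' : ℝ) * ((s2 : ℝ) - s1) ^ 2| = (d' : ℝ) * |(s2 : ℝ) - s1| * |(s2 : ℝ) - s1| := by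
        have : (d : ℝ) * 0 ^ 2 - (d' : ℝ) * ((s2 : ℝ) - s1) ^ 2 = -((d' : ℝ) * (|(s2 : ℝ) - s1| * |(s2 : ℝ) - s1|)) := by
          rw [abs_mul_abs_self]; ring
        rw [this, abs_neg, abs_of_nonneg (by positivity)]
        ring
      rw [k3] at k2
      have k4 : (d' : ℝ) * |(s2 : ℝ) - s1| ≤ C1 * μ := le_of_mul_le_mul_right k2 (by linarith)
      have k5 : (d' : ℝ) * 1 ≤ (d' : ℝ) * |(s2 : ℝ) - s1| := mul_le_mul_of_nonneg_left hge (by positivity)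
      linarith
    have hRD : (1 : ℝ) ≤ (R : ℝ) / D := by
      rw [le_div_iff₀ hD0]
      nlinarith
    simp only [FI, mem_filter, mem_product, mem_Icc]
    have hd0 : 1 ≤ d := by
      have : (0 : ℝ) < d := by linarith
      exact_mod_cast this
    have hd0' : 1 ≤ d' := by
      have : (0 : ℝ) < d' := by linarith
      exact_mod_cast this
    refine ⟨⟨⟨hd0, ?_⟩, ⟨hd0', ?_⟩, ⟨Int.natAbs_pos.2 hne, ?_⟩, Int.natAbs_pos.2 htne, ?_⟩, ?_, ?_, ?_⟩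
    · have : d ≤ D := by exact_mod_cast hd2
      omega
    · exact_mod_cast hd4
    · have : ((((s2 : ℤ) - s1).natAbs : ℕ) : ℝ) ≤ (⌈C1 * ((R : ℝ) / D)⌉₊ : ℝ) := by
        rw [e1]
        refine le_trans ?_ (Nat.le_ceil _)
        nlinarith
      exact_mod_cast this
    · have : ((((t2 : ℤ) - t1).natAbs : ℕ) : ℝ) ≤ (⌈C1 * ((R : ℝ) / D)⌉₊ : ℝ) := by
        rw [e2]
        refine le_trans ?_ (Nat.le_ceil _)
        exact k1.trans (mul_le_mul_of_nonneg_left hs (by linarith))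
      exact_mod_cast this
    · have : (d : ℝ) ≤ 16 * d' := by linarith
      exact_mod_cast this
    · have : (d' : ℝ) ≤ 16 * d := by linarith
      exact_mod_cast this
    · rw [e1, e2, sq_abs, sq_abs]
      exact k2

/-- one window -/
theorem sp_win {C1 C2 : ℝ} (hC1 : 1 ≤ C1)
    (hloc : ∀ R D μ d d' s1 s2 t1 t2 : ℝ, 1 ≤ μ → C1 * μ ≤ D → D ^ 2 ≤ R →
      D / 2 ≤ d → d ≤ D → D / 10 ≤ d' → d' ≤ 5 * D →
      2 * R ≤ s1 → s1 ≤ 4 * R → 2 * R ≤ s2 → s2 ≤ 4 * R → 2 * R ≤ t1 → t1 ≤ 4 * R → 2 * R ≤ t2 → t2 ≤ 4 * R →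
      |s2 - s1| ≤ R / D → 1 ≤ |s2 - s1| →
      |d * t1 ^ 2 - d' * s1 ^ 2 - d * d' * (d' - d)| ≤ 64 * μ * R →
      |d * t2 ^ 2 - d' * s2 ^ 2 - d * d' * (d' - d)| ≤ 64 * μ * R →
        |t2 - t1| ≤ C1 * |s2 - s1| ∧ |d * (t2 - t1) ^ 2 - d' * (s2 - s1) ^ 2| ≤ C1 * μ * |s2 - s1|)
    (hloc0 : ∀ R D μ d d' s1 t1 t2 : ℝ, 1 ≤ μ → 0 < D → 1 ≤ R → D / 2 ≤ d →
      2 * R ≤ t1 → 2 * R ≤ t2 →
      |d * t1 ^ 2 - d' * s1 ^ 2 - d * d' * (d' - d)| ≤ 64 * μ * R →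
      |d * t2 ^ 2 - d' * s1 ^ 2 - d * d' * (d' - d)| ≤ 64 * μ * R → |t2 - t1| ≤ C2 * μ / D)
    {R D : ℕ} (hR : 1 ≤ R) (hD1 : 1 ≤ D) (hDR : D ^ 2 ≤ R) {μ : ℝ} (hμ : 1 ≤ μ) (h0 : 160 * μ < D)
    (h1 : C1 * μ < D / 20) (h2 : C2 * μ < D) (j : ℕ) :
    ((Pp R D μ).filter (fun z => (z.1 + z.2.1) / (R / D) = j)).card ≤
      5 * D ^ 2 + 4 * (FI (5 * D) ⌈C1 * ((R : ℝ) / D)⌉₊ (C1 * μ)).card := by
  classical
  set P := (Pp R D μ).filter (fun z => (z.1 + z.2.1) / (R / D) = j) with hP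
  set Q := FI (5 * D) ⌈C1 * ((R : ℝ) / D)⌉₊ (C1 * μ) with hQ
  set w : ℕ × ℕ → ℕ × ℕ × ℕ × ℕ := Function.invFunOn ky (P : Set (ℕ × ℕ × ℕ × ℕ)) with hw
  have hDD : D ≤ R := le_trans (by nlinarith) hDR
  have hL : 1 ≤ R / D := (Nat.one_le_div_iff (by omega)).2 hDD
  set T1 : Finset ((ℕ × ℕ) × ℤ × ℤ) := ((Icc 1 D) ×ˢ (Icc 1 (5 * D))).image (fun p => (p, (0 : ℤ), (0 : ℤ))) with hT1
  set T2 : Finset ((ℕ × ℕ) × ℤ × ℤ) := (Q ×ˢ ({1, -1} : Finset ℤ) ×ˢ ({1, -1} : Finset ℤ)).image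
    (fun y => ((y.1.1, y.1.2.1), y.2.1 * (y.1.2.2.1 : ℤ), y.2.2 * (y.1.2.2.2 : ℤ))) with hT2
  have hT1c : T1.card ≤ 5 * D ^ 2 := by
    refine card_image_le.trans ?_
    rw [card_product, Nat.card_Icc, Nat.card_Icc]
    simp only [Nat.add_sub_cancel]
    exact le_of_eq (by ring)
  have hT2c : T2.card ≤ 4 * Q.card := by
    refine card_image_le.trans ?_
    rw [card_product, card_product]
    have : ({1, -1} : Finset ℤ).card = 2 := by decide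
    rw [this]
    exact le_of_eq (by ring)
  have hwm : ∀ z ∈ P, w (ky z) ∈ P := by
    intro z hz
    exact Function.invFunOn_mem (f := ky) (s := (P : Set (ℕ × ℕ × ℕ × ℕ))) ⟨z, hz, rfl⟩
  have hwk : ∀ z ∈ P, ky (w (ky z)) = ky z := by
    intro z hz
    exact Function.invFunOn_eq (f := ky) (s := (P : Set (ℕ × ℕ × ℕ × ℕ))) ⟨z, hz, rfl⟩
  have hdat : ∀ z ∈ P, Dat R D μ z.1 z.2.1 z.2.2.1 z.2.2.2 ∧ (z.1 + z.2.1) / (R / D) = j := by
    intro z hz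
    rw [hP, mem_filter] at hz
    exact ⟨Pp_dat hR hμ h0 hz.1, hz.2⟩
  have hsgn : ∀ n : ℤ, ∃ s ∈ ({1, -1} : Finset ℤ), s * (n.natAbs : ℤ) = n := by
    intro n
    rcases Int.natAbs_eq n with h | h
    · exact ⟨1, by decide, by rw [one_mul]; exact h.symm⟩
    · exact ⟨-1, by decide, by rw [neg_one_mul]; exact h.symm⟩
  have hcard : P.card ≤ (T1 ∪ T2).card := by
    refine card_le_card_of_injOn (fun z => (ky z, (((z.1 + z.2.1 : ℕ) : ℤ) - (((w (ky z)).1 + (w (ky z)).2.1 : ℕ) : ℤ)),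
      (((z.2.2.1 + z.2.2.2 : ℕ) : ℤ) - (((w (ky z)).2.2.1 + (w (ky z)).2.2.2 : ℕ) : ℤ)))) ?_ ?_
    · intro z hz
      obtain ⟨dz, jz⟩ := hdat z hz
      obtain ⟨dw, jw⟩ := hdat _ (hwm z hz)
      have hk := hwk z hz
      have hk1 : (w (ky z)).2.1 - (w (ky z)).1 = z.2.1 - z.1 := congrArg Prod.fst hk
      have hk2 : (w (ky z)).2.2.2 - (w (ky z)).2.2.1 = z.2.2.2 - z.2.2.1 := congrArg Prod.snd hk
      set u := w (ky z) with hu
      have hwin : |((z.1 + z.2.1 : ℕ) : ℝ) - ((u.1 + u.2.1 : ℕ) : ℝ)| ≤ (R : ℝ) / D := by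
        have m1 := Nat.div_add_mod (z.1 + z.2.1) (R / D)
        have m2 := Nat.div_add_mod (u.1 + u.2.1) (R / D)
        have m3 : (z.1 + z.2.1) % (R / D) < R / D := Nat.mod_lt _ (by omega)
        have m4 : (u.1 + u.2.1) % (R / D) < R / D := Nat.mod_lt _ (by omega)
        rw [jz] at m1
        rw [jw] at m2
        have m5 : ((R / D : ℕ) : ℝ) ≤ (R : ℝ) / D := Nat.cast_div_le
        have m6 : z.1 + z.2.1 ≤ (u.1 + u.2.1) + R / D := by omega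
        have m7 : u.1 + u.2.1 ≤ (z.1 + z.2.1) + R / D := by omega
        have m8 : ((z.1 + z.2.1 : ℕ) : ℝ) ≤ ((u.1 + u.2.1 : ℕ) : ℝ) + ((R / D : ℕ) : ℝ) := by exact_mod_cast m6
        have m9 : ((u.1 + u.2.1 : ℕ) : ℝ) ≤ ((z.1 + z.2.1 : ℕ) : ℝ) + ((R / D : ℕ) : ℝ) := by exact_mod_cast m7
        rw [abs_le]
        constructor <;> linarith
      have hF1 := dw.F
      rw [hk1, hk2] at hF1
      have hF2 := dz.F
      have hb := sp_two hC1 hloc hloc0 hR hD1 hDR hμ h1 h2 (d := z.2.1 - z.1) (d' := z.2.2.2 - z.2.2.1)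
        (s1 := u.1 + u.2.1) (s2 := z.1 + z.2.1) (t1 := u.2.2.1 + u.2.2.2) (t2 := z.2.2.1 + z.2.2.2)
        dz.d1 dz.d2 dz.d3 dz.d4 dw.s1 dw.s2 dz.s1 dz.s2 dw.t1 dw.t2 dz.t1 dz.t2 hwin hF1 hF2
      have hgoal : (ky z, (((z.1 + z.2.1 : ℕ) : ℤ) - ((u.1 + u.2.1 : ℕ) : ℤ)),
          (((z.2.2.1 + z.2.2.2 : ℕ) : ℤ) - ((u.2.2.1 + u.2.2.2 : ℕ) : ℤ))) ∈ T1 ∪ T2 := by
        rw [mem_union]
        rcases hb with ⟨b1, b2⟩ | b3
        · left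
          rw [hT1, mem_image]
          refine ⟨ky z, ?_, ?_⟩
          · rw [mem_product, mem_Icc, mem_Icc]
            have q1 : (z.2.1 - z.1 : ℕ) ≤ D := by exact_mod_cast dz.d2
            have q2 : (z.2.2.2 - z.2.2.1 : ℕ) ≤ 5 * D := by exact_mod_cast dz.d4
            have q3 := dz.ab
            have q4 := dz.ce
            refine ⟨⟨?_, q1⟩, ?_, q2⟩
            · change 1 ≤ z.2.1 - z.1
              omega
            · change 1 ≤ z.2.2.2 - z.2.2.1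
              omega
          · rw [b1, b2]
            simp
        · right
          rw [hT2, mem_image]
          obtain ⟨x1, hx1, hx1'⟩ := hsgn (((z.1 + z.2.1 : ℕ) : ℤ) - ((u.1 + u.2.1 : ℕ) : ℤ))
          obtain ⟨x2, hx2, hx2'⟩ := hsgn (((z.2.2.1 + z.2.2.2 : ℕ) : ℤ) - ((u.2.2.1 + u.2.2.2 : ℕ) : ℤ))
          refine ⟨((z.2.1 - z.1, z.2.2.2 - z.2.2.1, (((z.1 + z.2.1 : ℕ) : ℤ) - ((u.1 + u.2.1 : ℕ) : ℤ)).natAbs,
              (((z.2.2.1 + z.2.2.2 : ℕ) : ℤ) - ((u.2.2.1 + u.2.2.2 : ℕ) : ℤ)).natAbs), x1, x2), ?_, ?_⟩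
          · rw [mem_product, mem_product]
            exact ⟨b3, hx1, hx2⟩
          · refine Prod.ext rfl (Prod.ext ?_ ?_)
            · exact hx1'
            · exact hx2'
      exact hgoal
    · intro z hz z' hz' heq
      obtain ⟨dz, -⟩ := hdat z hz
      obtain ⟨dz', -⟩ := hdat z' hz'
      have g1 : ky z = ky z' := congrArg Prod.fst heq
      have g2 := congrArg (fun y => y.2.1) heq
      have g3 := congrArg (fun y => y.2.2) heq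
      simp only [g1] at g2 g3
      have g4 : z.2.1 - z.1 = z'.2.1 - z'.1 := congrArg Prod.fst g1
      have g5 : z.2.2.2 - z.2.2.1 = z'.2.2.2 - z'.2.2.1 := congrArg Prod.snd g1
      have q1 := dz.ab
      have q2 := dz.ce
      have q3 := dz'.ab
      have q4 := dz'.ce
      refine Prod.ext ?_ (Prod.ext ?_ (Prod.ext ?_ ?_)) <;> omega
  calc P.card ≤ (T1 ∪ T2).card := hcard
    _ ≤ T1.card + T2.card := card_union_le _ _
    _ ≤ _ := Nat.add_le_add hT1c hT2c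

/-- all windows -/
theorem sp_main : ∃ C0 K : ℝ, 1 ≤ C0 ∧ 1 ≤ K ∧ ∀ R D : ℕ, 1 ≤ R → 1 ≤ D → D ^ 2 ≤ R → ∀ μ : ℝ, 1 ≤ μ → C0 * μ < D →
    (Pp R D μ).card ≤ 8 * D * (5 * D ^ 2 + 4 * (FI (5 * D) ⌈K * ((R : ℝ) / D)⌉₊ (K * μ)).card) := by
  obtain ⟨C1, hC1, hloc⟩ := loc
  obtain ⟨C2, hC2, hloc0⟩ := loc0
  refine ⟨160 + 20 * C1 + C2, C1, by linarith, hC1, ?_⟩
  intro R D hR hD1 hDR μ hμ h
  have hμ0 : 0 ≤ μ := by linarith
  have p1 : 0 ≤ C1 * μ := mul_nonneg (by linarith) hμ0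
  have p2 : 0 ≤ C2 * μ := mul_nonneg (by linarith) hμ0
  have h' : 160 * μ + 20 * (C1 * μ) + C2 * μ < D := by
    calc 160 * μ + 20 * (C1 * μ) + C2 * μ = (160 + 20 * C1 + C2) * μ := by ring
      _ < D := h
  have hDD : D ≤ R := le_trans (by nlinarith) hDR
  have hL : 1 ≤ R / D := (Nat.one_le_div_iff (by omega)).2 hDD
  have hmaps : ∀ z ∈ Pp R D μ, (z.1 + z.2.1) / (R / D) ∈ range (8 * D) := by
    intro z hz
    rw [mem_range]
    have hz' := (mem_filter.1 hz).1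
    simp only [mem_product, mem_Ioc] at hz'
    have m1 := Nat.div_add_mod R D
    have m2 : R % D < D := Nat.mod_lt _ (by omega)
    have m3 : D ≤ D * (R / D) := Nat.le_mul_of_pos_right _ (by omega)
    have m4 : z.1 + z.2.1 < 8 * D * (R / D) := by
      have : 8 * D * (R / D) = 8 * (D * (R / D)) := by ring
      omega
    exact (Nat.div_lt_iff_lt_mul (by omega)).2 m4
  rw [card_eq_sum_card_fiberwise hmaps]
  calc ∑ j ∈ range (8 * D), ((Pp R D μ).filter (fun z => (z.1 + z.2.1) / (R / D) = j)).card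
      ≤ ∑ _j ∈ range (8 * D), (5 * D ^ 2 + 4 * (FI (5 * D) ⌈C1 * ((R : ℝ) / D)⌉₊ (C1 * μ)).card) := by
        refine sum_le_sum (fun j _ => ?_)
        exact sp_win hC1 hloc hloc0 hR hD1 hDR hμ (by linarith) (by linarith) (by linarith) j
    _ = _ := by rw [sum_const, card_range, smul_eq_mul]

/-- logarithms -/
theorem log_pow {ε : ℝ} (hε : 0 < ε) {A : ℝ} (hA : 1 ≤ A) : ∃ M : ℝ, 1 ≤ M ∧ ∀ R x : ℝ, 1 ≤ R → 1 ≤ x → x ≤ A * R →
    1 + Real.log x ≤ M * R ^ (ε / 2) := by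
  refine ⟨1 + Real.log A + 2 / ε, ?_, ?_⟩
  · have := Real.log_nonneg hA
    have : 0 ≤ 2 / ε := by positivity
    linarith
  · intro R x hR hx hxA
    have h1 : Real.log x ≤ Real.log A + Real.log R := by
      rw [← Real.log_mul (by linarith) (by linarith)]
      exact Real.log_le_log (by linarith) hxA
    have h2 : Real.log R ≤ R ^ (ε / 2) / (ε / 2) := Real.log_le_rpow_div (by linarith) (by positivity)
    have h3 : (1 : ℝ) ≤ R ^ (ε / 2) := Real.one_le_rpow hR (by positivity)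
    have h4 : R ^ (ε / 2) / (ε / 2) = 2 / ε * R ^ (ε / 2) := by
      field_simp
    have h5 := Real.log_nonneg hA
    calc 1 + Real.log x ≤ (1 + Real.log A) * 1 + 2 / ε * R ^ (ε / 2) := by linarith
      _ ≤ (1 + Real.log A) * R ^ (ε / 2) + 2 / ε * R ^ (ε / 2) := by
          have := mul_le_mul_of_nonneg_left h3 (by linarith : 0 ≤ 1 + Real.log A)
          linarith
      _ = _ := by ring

/-- the main case -/
theorem sp_pos {ε : ℝ} (hε : 0 < ε) : ∃ C0 C : ℝ, 1 ≤ C0 ∧ 0 < C ∧ ∀ R D : ℕ, 1 ≤ R → 1 ≤ D → D ^ 2 ≤ R →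
    ∀ μ : ℝ, 1 ≤ μ → C0 * μ < D → ((Pp R D μ).card : ℝ) ≤ C * μ * (R : ℝ) ^ (1 + ε) * D := by
  obtain ⟨C0, K, hC0, hK, hmain⟩ := sp_main
  obtain ⟨CF, hCF, hfi⟩ := fi
  obtain ⟨M, hM, hlog⟩ := log_pow hε (A := 10 * K) (by linarith)
  refine ⟨C0, 40 + 320 * (CF * K ^ 2 * M ^ 2), hC0, by positivity, ?_⟩
  intro R D hR hD1 hDR μ hμ h
  have hRr : (1 : ℝ) ≤ R := by exact_mod_cast hR
  have hDr : (1 : ℝ) ≤ D := by exact_mod_cast hD1
  have hDRr : (D : ℝ) ^ 2 ≤ R := by exact_mod_cast hDR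
  have hD0 : (0 : ℝ) < D := by linarith
  have hDD : (D : ℝ) ≤ R := by nlinarith
  have hRD : (1 : ℝ) ≤ (R : ℝ) / D := by rw [le_div_iff₀ hD0]; linarith
  have hKRD : (1 : ℝ) ≤ K * ((R : ℝ) / D) := by nlinarith
  set Y := ⌈K * ((R : ℝ) / D)⌉₊ with hY
  have hY1 : 1 ≤ Y := Nat.one_le_ceil_iff.2 (by linarith)
  have hY1r : (1 : ℝ) ≤ Y := by exact_mod_cast hY1
  have hY2 : (Y : ℝ) ≤ 2 * (K * ((R : ℝ) / D)) := by
    have := (Nat.ceil_lt_add_one (by linarith : 0 ≤ K * ((R : ℝ) / D))).le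
    linarith
  have hYR : (Y : ℝ) ≤ 10 * K * R := by
    have h1 : (R : ℝ) / D ≤ R := div_le_self (by linarith) hDr
    have h2 : K * ((R : ℝ) / D) ≤ K * R := mul_le_mul_of_nonneg_left h1 (by linarith)
    have h3 : 0 ≤ K * R := by positivity
    linarith
  have h5D : ((5 * D : ℕ) : ℝ) = 5 * D := by push_cast; ring
  have h5R : (5 * D : ℝ) ≤ 10 * K * R := by nlinarith
  have hf := hfi (5 * D) Y (by omega) hY1 (K * μ) (by nlinarith)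
  rw [h5D] at hf
  have hl1 := hlog R (5 * D) hRr (by linarith) h5R
  have hl2 := hlog R Y hRr hY1r hYR
  have hl1' : 0 ≤ 1 + Real.log (5 * D) := by
    have := Real.log_nonneg (by linarith : (1 : ℝ) ≤ 5 * D)
    linarith
  have hl2' : 0 ≤ 1 + Real.log Y := by
    have := Real.log_nonneg hY1r
    linarith
  have hR2 : (0 : ℝ) < (R : ℝ) ^ (ε / 2) := Real.rpow_pos_of_pos (by linarith) _
  have hRe : (R : ℝ) * ((R : ℝ) ^ (ε / 2) * (R : ℝ) ^ (ε / 2)) = (R : ℝ) ^ (1 + ε) := by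
    rw [← Real.rpow_add (by linarith), Real.rpow_add (by linarith) 1 ε, Real.rpow_one]
    congr 2
    ring
  have hDY : (5 * D : ℝ) * Y ≤ 10 * K * R := by
    calc (5 * D : ℝ) * Y ≤ (5 * D : ℝ) * (2 * (K * ((R : ℝ) / D))) := mul_le_mul_of_nonneg_left hY2 (by positivity)
      _ = 10 * K * R := by
          field_simp
          ring
  have hFI : ((FI (5 * D) Y (K * μ)).card : ℝ) ≤ 10 * (CF * K ^ 2 * M ^ 2) * μ * (R : ℝ) ^ (1 + ε) := by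
    refine hf.trans ?_
    calc CF * (K * μ) * ((5 * D : ℝ) * Y) * ((1 + Real.log (5 * D)) * (1 + Real.log Y))
        ≤ CF * (K * μ) * (10 * K * R) * ((M * (R : ℝ) ^ (ε / 2)) * (M * (R : ℝ) ^ (ε / 2))) := by
          gcongr
      _ = 10 * (CF * K ^ 2 * M ^ 2) * μ * ((R : ℝ) * ((R : ℝ) ^ (ε / 2) * (R : ℝ) ^ (ε / 2))) := by ring
      _ = _ := by rw [hRe]
  have hRR : (R : ℝ) ≤ (R : ℝ) ^ (1 + ε) := by
    calc (R : ℝ) = (R : ℝ) ^ (1 : ℝ) := (Real.rpow_one _).symm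
      _ ≤ _ := Real.rpow_le_rpow_of_exponent_le hRr (by linarith)
  have hc : ((Pp R D μ).card : ℝ) ≤ 8 * D * (5 * (D : ℝ) ^ 2 + 4 * ((FI (5 * D) Y (K * μ)).card : ℝ)) := by
    exact_mod_cast hmain R D hR hD1 hDR μ hμ h
  refine hc.trans ?_
  have hA : 5 * (D : ℝ) ^ 2 ≤ 5 * (μ * (R : ℝ) ^ (1 + ε)) := by
    have : (R : ℝ) ^ (1 + ε) ≤ μ * (R : ℝ) ^ (1 + ε) := by
      have : 0 ≤ (R : ℝ) ^ (1 + ε) := by linarith
      nlinarith
    linarith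
  calc 8 * D * (5 * (D : ℝ) ^ 2 + 4 * ((FI (5 * D) Y (K * μ)).card : ℝ))
      ≤ 8 * D * (5 * (μ * (R : ℝ) ^ (1 + ε)) + 4 * (10 * (CF * K ^ 2 * M ^ 2) * μ * (R : ℝ) ^ (1 + ε))) := by
        refine mul_le_mul_of_nonneg_left ?_ (by positivity)
        linarith
    _ = _ := by ring

/-- all quadruples -/
theorem sp_all (R : ℕ) (S : Finset (ℕ × ℕ × ℕ × ℕ))
    (hS : S ⊆ ((Ioc R (2 * R)) ×ˢ (Ioc R (2 * R)) ×ˢ (Ioc R (2 * R)) ×ˢ (Ioc R (2 * R)))) : (S.card : ℝ) ≤ (R : ℝ) ^ 4 := by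
  have h := card_le_card hS
  rw [card_product, card_product, card_product, Nat.card_Ioc] at h
  have e : 2 * R - R = R := by omega
  rw [e] at h
  calc (S.card : ℝ) ≤ ((R * (R * (R * R)) : ℕ) : ℝ) := by exact_mod_cast h
    _ = (R : ℝ) ^ 4 := by push_cast; ring

/-- one dyadic block `D < 2 |b-a| ≤ 2 D`: `D ≤ C0 μ` by `sp_triv`; else same signs, `d' ∈ [D/10, 5D]`, windows of length `R/D` in `s = a+b`,
`loc`, `loc0`, `fi` with `5D`, `Y = C R/D`: count `≤ 3D (5D²(1 + Cμ/D) + C μ R^(1+ε))` -/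
theorem sp_dy {ε : ℝ} (hε : 0 < ε) : ∃ C : ℝ, 0 < C ∧ ∀ R : ℕ, 1 ≤ R → ∀ D : ℕ, 1 ≤ D → D ^ 2 ≤ R → ∀ μ : ℝ, 1 ≤ μ →
    (((Qd R (5 * D) μ).filter (fun z => (D : ℝ) < 2 * |(z.1 : ℝ) - z.2.1| ∧ |(z.1 : ℝ) - z.2.1| ≤ D)).card : ℝ) ≤
      C * μ ^ 2 * (R : ℝ) ^ (1 + ε) * D := by
  classical
  obtain ⟨C0, C1, hC0, hC1, hpos⟩ := sp_pos hε
  obtain ⟨Ct, hCt, htriv⟩ := sp_triv
  refine ⟨400 ^ 3 + 25 * Ct * C0 + 2 * C1, by positivity, ?_⟩
  intro R hR D hD1 hDR μ hμ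
  have hRr : (1 : ℝ) ≤ R := by exact_mod_cast hR
  have hDr : (1 : ℝ) ≤ D := by exact_mod_cast hD1
  have hDRr : (D : ℝ) ^ 2 ≤ R := by exact_mod_cast hDR
  have hRR : (R : ℝ) ≤ (R : ℝ) ^ (1 + ε) := by
    calc (R : ℝ) = (R : ℝ) ^ (1 : ℝ) := (Real.rpow_one _).symm
      _ ≤ _ := Real.rpow_le_rpow_of_exponent_le hRr (by linarith)
  have hμ2 : μ ≤ μ ^ 2 := by nlinarith
  have hμ2' : 1 ≤ μ ^ 2 := by nlinarith
  have hRp : (0 : ℝ) < (R : ℝ) ^ (1 + ε) := by linarith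
  set W := (Qd R (5 * D) μ).filter (fun z => (D : ℝ) < 2 * |(z.1 : ℝ) - z.2.1| ∧ |(z.1 : ℝ) - z.2.1| ≤ D) with hW
  by_cases hsm : R < 20 * D
  · have hD20 : D < 20 := by
      by_contra hcon
      have : 20 * D ≤ D ^ 2 := by nlinarith
      omega
    have hR400 : R ≤ 400 := by omega
    have hR4 : (R : ℝ) ≤ 400 := by exact_mod_cast hR400
    have hall : (W.card : ℝ) ≤ (R : ℝ) ^ 4 := by
      refine sp_all R W ?_
      refine (filter_subset _ _).trans ?_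
      exact filter_subset _ _
    have h1 : (R : ℝ) ^ 4 ≤ 400 ^ 3 * (R : ℝ) ^ (1 + ε) := by
      calc (R : ℝ) ^ 4 = (R : ℝ) ^ 3 * R := by ring
        _ ≤ 400 ^ 3 * (R : ℝ) ^ (1 + ε) := by gcongr
    calc (W.card : ℝ) ≤ 400 ^ 3 * (R : ℝ) ^ (1 + ε) := hall.trans h1
      _ = 400 ^ 3 * 1 * (R : ℝ) ^ (1 + ε) * 1 := by ring
      _ ≤ (400 ^ 3 + 25 * Ct * C0 + 2 * C1) * μ ^ 2 * (R : ℝ) ^ (1 + ε) * D := by
          gcongr
          have : 0 ≤ 25 * Ct * C0 := by positivity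
          linarith
  · by_cases hDC : C0 * μ < D
    · have h1 := hpos R D hR hD1 hDR μ hμ hDC
      have hsub : W ⊆ Pp R D μ ∪ (Pp R D μ).image (fun z => (z.2.1, z.1, z.2.2.2, z.2.2.1)) := by
        intro z hz
        obtain ⟨a, b, c, e⟩ := z
        simp only [hW, Qd, mem_filter, mem_product] at hz
        obtain ⟨⟨⟨i1, i2, i3, i4⟩, i5, i6, i7, i8, i9⟩, i10, i11⟩ := hz
        rw [mem_union]
        have h5D : ((5 * D : ℕ) : ℝ) = 5 * D := by push_cast; ring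
        rw [h5D] at i8
        rcases lt_or_ge a b with hab | hab
        · left
          have hab' : (a : ℝ) < b := by exact_mod_cast hab
          have e1 : |(a : ℝ) - b| = b - a := by
            rw [abs_of_neg (by linarith)]; ring
          rw [e1] at i10 i11
          simp only [Pp, mem_filter, mem_product]
          exact ⟨⟨i1, i2, i3, i4⟩, i10, i11, i8, i9⟩
        · right
          have hab' : (b : ℝ) ≤ a := by exact_mod_cast hab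
          have e1 : |(a : ℝ) - b| = a - b := abs_of_nonneg (by linarith)
          rw [e1] at i10 i11
          rw [mem_image]
          refine ⟨(b, a, e, c), ?_, rfl⟩
          simp only [Pp, mem_filter, mem_product]
          refine ⟨⟨i2, i1, i4, i3⟩, i10, i11, ?_, ?_⟩
          · rw [abs_sub_comm]; exact i8
          · have : 1 / (b : ℝ) - 1 / (a : ℝ) - 1 / (e : ℝ) + 1 / (c : ℝ) =
                -(1 / (a : ℝ) - 1 / (b : ℝ) - 1 / (c : ℝ) + 1 / (e : ℝ)) := by ring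
            rw [this, abs_neg]
            exact i9
      have h2 : W.card ≤ (Pp R D μ).card + (Pp R D μ).card := by
        refine (card_le_card hsub).trans ((card_union_le _ _).trans ?_)
        exact Nat.add_le_add le_rfl card_image_le
      have h3 : (W.card : ℝ) ≤ 2 * ((Pp R D μ).card : ℝ) := by
        have : (W.card : ℝ) ≤ ((Pp R D μ).card : ℝ) + ((Pp R D μ).card : ℝ) := by exact_mod_cast h2
        linarith
      calc (W.card : ℝ) ≤ 2 * (C1 * μ * (R : ℝ) ^ (1 + ε) * D) := by linarith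
        _ = (2 * C1) * μ * (R : ℝ) ^ (1 + ε) * D := by ring
        _ ≤ (400 ^ 3 + 25 * Ct * C0 + 2 * C1) * μ ^ 2 * (R : ℝ) ^ (1 + ε) * D := by
            gcongr
            have : 0 ≤ 25 * Ct * C0 := by positivity
            linarith
    · have h1 := htriv R hR (5 * D) (by omega) (by omega) μ hμ
      have h5D : ((5 * D : ℕ) : ℝ) = 5 * D := by push_cast; ring
      rw [h5D] at h1
      have hDC' : (D : ℝ) ≤ C0 * μ := not_lt.1 hDC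
      have h2 : (W.card : ℝ) ≤ ((Qd R (5 * D) μ).card : ℝ) := by exact_mod_cast card_filter_le _ _
      calc (W.card : ℝ) ≤ Ct * μ * R * (5 * D) ^ 2 := h2.trans h1
        _ = (25 * Ct) * μ * R * (D * D) := by ring
        _ ≤ (25 * Ct) * μ * (R : ℝ) ^ (1 + ε) * ((C0 * μ) * D) := by gcongr
        _ = (25 * Ct * C0) * μ ^ 2 * (R : ℝ) ^ (1 + ε) * D := by ring
        _ ≤ (400 ^ 3 + 25 * Ct * C0 + 2 * C1) * μ ^ 2 * (R : ℝ) ^ (1 + ε) * D := by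
            gcongr
            have : 0 ≤ 2 * C1 := by positivity
            linarith

/-- if `16 μ < R` then `|c-e| ≤ 5 |a-b|` -/
theorem sp_five {R μ a b c e : ℝ} (hR : 1 ≤ R) (hμ : 16 * μ < R) (ha : R < a) (ha2 : a ≤ 2 * R) (hb : R < b)
    (hb2 : b ≤ 2 * R) (hc : R < c) (hc2 : c ≤ 2 * R) (he : R < e) (he2 : e ≤ 2 * R)
    (h : |1 / a - 1 / b - 1 / c + 1 / e| ≤ μ / R ^ 3) (hd : 1 ≤ |a - b|) : |c - e| ≤ 5 * |a - b| := by
  by_contra hcon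
  rw [not_le] at hcon
  have hR0 : 0 < R := by linarith
  have h1 := sp_id hR0 ha ha2 hb hb2 hc hc2 he he2 h
  have h2 : |a * b * (e - c)| ≤ |c * e * (b - a)| + 16 * μ * R := by
    have e1 : a * b * (e - c) = c * e * (b - a) - (c * e * (b - a) - a * b * (e - c)) := by ring
    calc |a * b * (e - c)| = |c * e * (b - a) - (c * e * (b - a) - a * b * (e - c))| := by rw [← e1]
      _ ≤ |c * e * (b - a)| + |c * e * (b - a) - a * b * (e - c)| := abs_sub _ _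
      _ ≤ _ := by linarith
  have hab : 0 < a * b := mul_pos (hR0.trans ha) (hR0.trans hb)
  have hce : 0 < c * e := mul_pos (hR0.trans hc) (hR0.trans he)
  rw [abs_mul (a * b) (e - c), abs_mul (c * e) (b - a), abs_of_pos hab, abs_of_pos hce, abs_sub_comm e c, abs_sub_comm b a] at h2
  have h3 : R ^ 2 ≤ a * b := by
    rw [pow_two]
    exact mul_le_mul ha.le hb.le hR0.le (hR0.trans ha).le
  have h4 : c * e ≤ 4 * R ^ 2 := by
    have : c * e ≤ (2 * R) * (2 * R) := mul_le_mul hc2 he2 (hR0.trans he).le (by linarith)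
    linarith
  have h5 : R ^ 2 * |c - e| ≤ a * b * |c - e| := mul_le_mul_of_nonneg_right h3 (abs_nonneg _)
  have h6 : c * e * |a - b| ≤ 4 * R ^ 2 * |a - b| := mul_le_mul_of_nonneg_right h4 (abs_nonneg _)
  have h7 : R ^ 2 * (5 * |a - b|) ≤ R ^ 2 * |c - e| := mul_le_mul_of_nonneg_left hcon.le (by positivity)
  have h8 : R ^ 2 * 1 ≤ R ^ 2 * |a - b| := mul_le_mul_of_nonneg_left hd (by positivity)
  have h9 : 16 * μ * R < R ^ 2 := by
    rw [pow_two]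
    exact mul_lt_mul_of_pos_right hμ hR0
  linarith

/-- the set of the induction -/
noncomputable def Tt (R D : ℕ) (μ : ℝ) : Finset (ℕ × ℕ × ℕ × ℕ) :=
  ((Ioc R (2 * R)) ×ˢ (Ioc R (2 * R)) ×ˢ (Ioc R (2 * R)) ×ˢ (Ioc R (2 * R))).filter (fun z =>
    z.1 ≠ z.2.1 ∧ z.2.2.1 ≠ z.2.2.2 ∧ |(z.1 : ℝ) - z.2.1| ≤ D ∧ |(z.2.2.1 : ℝ) - z.2.2.2| ≤ 5 * |(z.1 : ℝ) - z.2.1| ∧
      |1 / (z.1 : ℝ) - 1 / (z.2.1 : ℝ) - 1 / (z.2.2.1 : ℝ) + 1 / (z.2.2.2 : ℝ)| ≤ μ / (R : ℝ) ^ 3)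

/-- the induction `D → D/2` -/
theorem sp_ind {R : ℕ} {μ B : ℝ} (hB : 0 ≤ B) (hdy : ∀ D : ℕ, 1 ≤ D → D ^ 2 ≤ R →
    (((Qd R (5 * D) μ).filter (fun z => (D : ℝ) < 2 * |(z.1 : ℝ) - z.2.1| ∧ |(z.1 : ℝ) - z.2.1| ≤ D)).card : ℝ) ≤ B * D) :
    ∀ D : ℕ, D ^ 2 ≤ R → ((Tt R D μ).card : ℝ) ≤ 2 * B * D := by
  classical
  intro D
  induction D using Nat.strong_induction_on with
  | _ D ih =>
    intro hDR
    have habs : ∀ a b : ℕ, ((((a : ℤ) - b).natAbs : ℕ) : ℝ) = |(a : ℝ) - b| := by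
      intro a b
      rw [Nat.cast_natAbs]
      push_cast
      rfl
    rcases Nat.eq_zero_or_pos D with h0 | hpos
    · subst h0
      have : Tt R 0 μ = ∅ := by
        rw [Finset.eq_empty_iff_forall_notMem]
        rintro ⟨a, b, c, e⟩ hz
        simp only [Tt, mem_filter] at hz
        obtain ⟨-, i5, -, i7, -⟩ := hz
        rw [← habs] at i7
        have h1 : ((a : ℤ) - b).natAbs ≤ 0 := by exact_mod_cast i7
        omega
      rw [this]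
      simp
    · have hsub : Tt R D μ ⊆ (Qd R (5 * D) μ).filter (fun z => (D : ℝ) < 2 * |(z.1 : ℝ) - z.2.1| ∧ |(z.1 : ℝ) - z.2.1| ≤ D) ∪
          Tt R (D / 2) μ := by
        rintro ⟨a, b, c, e⟩ hz
        simp only [Tt, mem_filter] at hz
        obtain ⟨i4, i5, i6, i7, i8, i9⟩ := hz
        rw [mem_union]
        have h5D : ((5 * D : ℕ) : ℝ) = 5 * D := by push_cast; ring
        have hDn : (0 : ℝ) ≤ D := Nat.cast_nonneg _
        by_cases hcase : (D : ℝ) < 2 * |(a : ℝ) - b|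
        · left
          simp only [Qd, mem_filter, h5D]
          exact ⟨⟨i4, i5, i6, by linarith, by linarith, i9⟩, hcase, i7⟩
        · right
          simp only [Tt, mem_filter]
          refine ⟨i4, i5, i6, ?_, i8, i9⟩
          rw [not_lt, ← habs] at hcase
          have h1 : 2 * ((a : ℤ) - b).natAbs ≤ D := by exact_mod_cast hcase
          rw [← habs]
          have h2 : ((a : ℤ) - b).natAbs ≤ D / 2 := by omega
          exact_mod_cast h2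
      have h1 := hdy D hpos hDR
      have hlt : D / 2 < D := Nat.div_lt_self hpos (by norm_num)
      have h2 := ih (D / 2) hlt (le_trans (Nat.pow_le_pow_left hlt.le 2) hDR)
      have h3 : ((Tt R D μ).card : ℝ) ≤
          (((Qd R (5 * D) μ).filter (fun z => (D : ℝ) < 2 * |(z.1 : ℝ) - z.2.1| ∧ |(z.1 : ℝ) - z.2.1| ≤ D)).card : ℝ) +
            ((Tt R (D / 2) μ).card : ℝ) := by
        exact_mod_cast (card_le_card hsub).trans (card_union_le _ _)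
      have h4 : ((D / 2 : ℕ) : ℝ) ≤ (D : ℝ) / 2 := by
        have := @Nat.cast_div_le ℝ _ _ _ D 2
        simpa using this
      have h5 : 2 * B * ((D / 2 : ℕ) : ℝ) ≤ 2 * B * ((D : ℝ) / 2) := mul_le_mul_of_nonneg_left h4 (by linarith)
      linarith

/-- sum over `D/2^i`; `|c-e| ≤ 5|a-b|` unless `μ ≥ D` (then `sp_triv`) -/
theorem sp {ε : ℝ} (hε : 0 < ε) : ∃ C : ℝ, 0 < C ∧ ∀ R : ℕ, 1 ≤ R → ∀ D : ℕ, 1 ≤ D → D ^ 2 ≤ R → ∀ μ : ℝ, 1 ≤ μ →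
    ((Qd R D μ).card : ℝ) ≤ C * μ ^ 2 * (R : ℝ) ^ (1 + ε) * D := by
  classical
  obtain ⟨C1, hC1, hdy⟩ := sp_dy hε
  obtain ⟨Ct, hCt, htriv⟩ := sp_triv
  refine ⟨16 ^ 3 + 16 * Ct + 2 * C1, by positivity, ?_⟩
  intro R hR D hD1 hDR μ hμ
  have hRr : (1 : ℝ) ≤ R := by exact_mod_cast hR
  have hDr : (1 : ℝ) ≤ D := by exact_mod_cast hD1
  have hDRr : (D : ℝ) ^ 2 ≤ R := by exact_mod_cast hDR
  have hRR : (R : ℝ) ≤ (R : ℝ) ^ (1 + ε) := by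
    calc (R : ℝ) = (R : ℝ) ^ (1 : ℝ) := (Real.rpow_one _).symm
      _ ≤ _ := Real.rpow_le_rpow_of_exponent_le hRr (by linarith)
  have hμ2' : 1 ≤ μ ^ 2 := by nlinarith
  have hRp : (0 : ℝ) < (R : ℝ) ^ (1 + ε) := by linarith
  by_cases hsm : R < 4 * D
  · have hD4 : D < 4 := by
      by_contra hcon
      have : 4 * D ≤ D ^ 2 := by nlinarith
      omega
    have hR16 : R ≤ 16 := by omega
    have hR4 : (R : ℝ) ≤ 16 := by exact_mod_cast hR16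
    have hall : ((Qd R D μ).card : ℝ) ≤ (R : ℝ) ^ 4 := sp_all R _ (filter_subset _ _)
    have h1 : (R : ℝ) ^ 4 ≤ 16 ^ 3 * (R : ℝ) ^ (1 + ε) := by
      calc (R : ℝ) ^ 4 = (R : ℝ) ^ 3 * R := by ring
        _ ≤ 16 ^ 3 * (R : ℝ) ^ (1 + ε) := by gcongr
    calc ((Qd R D μ).card : ℝ) ≤ 16 ^ 3 * (R : ℝ) ^ (1 + ε) := hall.trans h1
      _ = 16 ^ 3 * 1 * (R : ℝ) ^ (1 + ε) * 1 := by ring
      _ ≤ (16 ^ 3 + 16 * Ct + 2 * C1) * μ ^ 2 * (R : ℝ) ^ (1 + ε) * D := by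
          gcongr
          linarith
  · by_cases hDC : 16 * μ < D
    · have hB : 0 ≤ C1 * μ ^ 2 * (R : ℝ) ^ (1 + ε) := by positivity
      have h1 := sp_ind (R := R) (μ := μ) hB (fun D' h1 h2 => hdy R hR D' h1 h2 μ hμ) D hDR
      have hDD : (D : ℝ) ≤ R := by nlinarith
      have hsub : Qd R D μ ⊆ Tt R D μ := by
        rintro ⟨a, b, c, e⟩ hz
        simp only [Qd, mem_filter] at hz
        obtain ⟨i4, i5, i6, i7, i8, i9⟩ := hz
        simp only [Tt, mem_filter]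
        refine ⟨i4, i5, i6, i7, ?_, i9⟩
        simp only [mem_product, mem_Ioc] at i4
        obtain ⟨⟨ha, ha2⟩, ⟨hb, hb2⟩, ⟨hc, hc2⟩, he, he2⟩ := i4
        have hge : (1 : ℝ) ≤ |(a : ℝ) - b| := by
          have h2 : 1 ≤ ((a : ℤ) - b).natAbs := by omega
          have h3 : ((((a : ℤ) - b).natAbs : ℕ) : ℝ) = |(a : ℝ) - b| := by
            rw [Nat.cast_natAbs]
            push_cast
            rfl
          rw [← h3]
          exact_mod_cast h2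
        exact sp_five (R := R) (μ := μ) hRr (by linarith) (by exact_mod_cast ha) (by exact_mod_cast ha2)
          (by exact_mod_cast hb) (by exact_mod_cast hb2) (by exact_mod_cast hc) (by exact_mod_cast hc2)
          (by exact_mod_cast he) (by exact_mod_cast he2) i9 hge
      have h2 : ((Qd R D μ).card : ℝ) ≤ ((Tt R D μ).card : ℝ) := by exact_mod_cast card_le_card hsub
      calc ((Qd R D μ).card : ℝ) ≤ 2 * (C1 * μ ^ 2 * (R : ℝ) ^ (1 + ε)) * D := h2.trans h1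
        _ = (2 * C1) * μ ^ 2 * (R : ℝ) ^ (1 + ε) * D := by ring
        _ ≤ (16 ^ 3 + 16 * Ct + 2 * C1) * μ ^ 2 * (R : ℝ) ^ (1 + ε) * D := by
            gcongr
            linarith
    · have h1 := htriv R hR D hD1 (by omega) μ hμ
      have hDC' : (D : ℝ) ≤ 16 * μ := not_lt.1 hDC
      calc ((Qd R D μ).card : ℝ) ≤ Ct * μ * R * (D : ℝ) ^ 2 := h1
        _ = Ct * μ * R * (D * D) := by ring
        _ ≤ Ct * μ * (R : ℝ) ^ (1 + ε) * ((16 * μ) * D) := by gcongr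
        _ = (16 * Ct) * μ ^ 2 * (R : ℝ) ^ (1 + ε) * D := by ring
        _ ≤ (16 ^ 3 + 16 * Ct + 2 * C1) * μ ^ 2 * (R : ℝ) ^ (1 + ε) * D := by
            gcongr
            linarith

end Pool.Agent.H93.BK
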