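import Pool.Agent.H93.BK.Defs
import Pool.Agent.H93.BK.Dg
import Pool.Agent.H93.BK.Hi
import Pool.Agent.H93.BK.Sp
import Pool.Agent.H93.RS.Ex

/-!
# [H93 BK VK]  second moment of fl
-/

set_option autoImplicit false

namespace Pool.Agent.H93.BK

open Finset

private theorem vk_pq {R : ℕ} {p : ℕ × ℕ} (hp : p ∈ PQ R) :
    (R < p.1 ∧ p.1 ≤ 2 * R) ∧ (R < p.2 ∧ p.2 ≤ 2 * R) ∧ p.1 ≠ p.2 := by
  unfold PQ Pool.Agent.H99.GB.QQ at hp
  simp only [mem_filter, mem_product, mem_Ioc] at hp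
  exact ⟨hp.1.1.1, hp.1.2.1, hp.2⟩

/-- `k/q ≤ 1/8` for `16 ≤ R < q`, `k² ≤ R` -/
private theorem vk_kq {R k q : ℕ} (hR : 16 ≤ R) (hkR : k ^ 2 ≤ R) (hq : R < q) : (k : ℝ) / q ≤ 1 / 4 ∧ 2 * k ≤ q := by
  have h1 : 4 * k ≤ R := by
    by_contra h
    push Not at h
    have h2 : R < 4 * k := h
    rcases Nat.lt_or_ge k 5 with h3 | h3
    · omega
    · have : 5 * k ≤ k ^ 2 := by nlinarith
      omega
  have hq0 : (0 : ℝ) < q := by exact_mod_cast (by omega : 0 < q)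
  refine ⟨?_, by omega⟩
  rw [div_le_div_iff₀ hq0 (by norm_num)]
  have : 4 * (k : ℝ) ≤ q := by exact_mod_cast (by omega : 4 * k ≤ q)
  linarith

private theorem vk_beta {R k : ℕ} (hR : 16 ≤ R) (hkR : k ^ 2 ≤ R) {p : ℕ × ℕ} (hp : p ∈ PQ R) :
    |(k : ℝ) / p.1 - (k : ℝ) / p.2| ≤ 1 / 4 := by
  obtain ⟨h1, h2, h3⟩ := vk_pq hp
  have e1 := (vk_kq hR hkR h1.1).1
  have e2 := (vk_kq hR hkR h2.1).1
  have e3 : (0 : ℝ) ≤ (k : ℝ) / p.1 := by positivity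
  have e4 : (0 : ℝ) ≤ (k : ℝ) / p.2 := by positivity
  rw [abs_le]
  constructor <;> linarith

private theorem vk_ap {R k m H : ℕ} (hR : 16 ≤ R) (hk : 1 ≤ k) (hkR : k ^ 2 ≤ R) (hm : 1 ≤ m) {p : ℕ × ℕ} (hp : p ∈ PQ R) :
    ‖ap H k m p‖ ≤ 1 / (k : ℝ) ^ 2 * Real.exp (-(Real.pi * (m : ℝ) ^ 2 * ((k : ℝ) / p.1 - (k : ℝ) / p.2) ^ 2)) := by
  obtain ⟨h1, h2, h3⟩ := vk_pq hp
  have e1 := fc_le (H := H) hk (vk_kq hR hkR h1.1).2
  have e2 := fc_le (H := H) hk (vk_kq hR hkR h2.1).2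
  have hm1 : (1 : ℝ) ≤ m := by exact_mod_cast hm
  have e3 := gj_le (J := (m : ℝ)) hm1 ((vk_beta hR hkR hp).trans (by norm_num))
  have e4 := gj_nonneg (m : ℝ) ((k : ℝ) / p.1 - (k : ℝ) / p.2)
  have hk0 : (0 : ℝ) < k := by exact_mod_cast hk
  unfold ap
  rw [norm_mul, norm_mul, RCLike.norm_conj, Complex.norm_real, Real.norm_of_nonneg e4]
  calc ‖Pool.Agent.H99.GB.fc H ⟨p.1, k⟩‖ * ‖Pool.Agent.H99.GB.fc H ⟨p.2, k⟩‖ * gj m ((k : ℝ) / p.1 - (k : ℝ) / p.2)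
      ≤ (1 / (2 * k)) * (1 / (2 * k)) *
        (4 * Real.exp (-(Real.pi * (m : ℝ) ^ 2 * ((k : ℝ) / p.1 - (k : ℝ) / p.2) ^ 2))) := by
        apply mul_le_mul _ e3 e4 (by positivity)
        exact mul_le_mul e1 e2 (norm_nonneg _) (by positivity)
    _ = _ := by
        field_simp
        ring

/-- `dg1` with `J = 2X`; `|ap| ≤ k⁻² exp(-πm²k²(1/q-1/q')²)`; pairs with `|q-q'| > D = ⌊4R²X^ε/(mk)⌋` and quadruples with
`|1/q1-1/q2-1/q3+1/q4| > X^ε/R³` are negligible (`expo`); the rest: `sp` with `μ = X^ε` (no pairs if `D < 1`) -/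
theorem vk {ε : ℝ} (hε : 0 < ε) : ∃ C : ℝ, 0 < C ∧ ∀ X R m k H : ℕ, 16 ≤ R → R ^ 3 ≤ X → 1 ≤ m → m ≤ X → 1 ≤ k → k ^ 2 ≤ R →
    4 * (R : ℝ) ^ (3 / 2 : ℝ) * (X : ℝ) ^ ε ≤ m →
    ∑ x ∈ range (2 * X + 1), ‖fl R H k m x‖ ^ 2 ≤ C * (X : ℝ) ^ (1 + 5 * ε) * ((R : ℝ) ^ 3 / (m * (k : ℝ) ^ 4)) := by
  classical
  obtain ⟨C1, hC1, hsp⟩ := sp hε
  obtain ⟨C2, hC2, hex⟩ := Pool.Agent.H93.RS.expo (N := 3) (c := 1) one_pos hε
  refine ⟨192 * (4 * C1 + C2), by positivity, fun X R m k H hR hRX hm hmX hk hkR hm2 => ?_⟩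
  have hX1 : 1 ≤ X := hm.trans hmX
  have hx1 : (1 : ℝ) ≤ X := by exact_mod_cast hX1
  have hx0 : (0 : ℝ) < X := by linarith
  have hR1 : (1 : ℝ) ≤ R := by exact_mod_cast (by omega : 1 ≤ R)
  have hR0 : (0 : ℝ) < R := by linarith
  have hm1 : (1 : ℝ) ≤ m := by exact_mod_cast hm
  have hm0 : (0 : ℝ) < m := by linarith
  have hmx : (m : ℝ) ≤ X := by exact_mod_cast hmX
  have hk1 : (1 : ℝ) ≤ k := by exact_mod_cast hk
  have hk0 : (0 : ℝ) < k := by linarith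
  have hRx : (R : ℝ) ^ 3 ≤ X := by exact_mod_cast hRX
  obtain ⟨y, hy⟩ : ∃ y : ℝ, y = (X : ℝ) ^ ε := ⟨_, rfl⟩
  have hy1 : 1 ≤ y := by rw [hy]; exact Real.one_le_rpow hx1 hε.le
  have hy0 : 0 < y := by linarith
  rw [← hy] at hm2
  obtain ⟨w, hw⟩ : ∃ w : ℝ, w = Real.exp (-(1 * y)) := ⟨_, rfl⟩
  have hw0 : 0 < w := by rw [hw]; exact Real.exp_pos _
  have hexw : (X : ℝ) ^ 3 * w ≤ C2 := by
    have := hex X hx1
    rw [← hy, ← hw] at this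
    have h3 : (X : ℝ) ^ (3 : ℝ) = (X : ℝ) ^ 3 := by
      rw [← Real.rpow_natCast]
      norm_num
    rwa [h3] at this
  -- exponentials are small
  have hexp : ∀ t : ℝ, y ≤ t → Real.exp (-(Real.pi * t ^ 2)) ≤ w := by
    intro t ht
    rw [hw]
    apply Real.exp_le_exp.2
    have h1 : y ≤ t ^ 2 := by nlinarith
    have h2 := Real.pi_gt_three
    nlinarith
  obtain ⟨β, hβ⟩ : ∃ β : ℕ × ℕ → ℝ, ∀ p, β p = (k : ℝ) / p.1 - (k : ℝ) / p.2 := ⟨_, fun _ => rfl⟩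
  obtain ⟨D, hD⟩ : ∃ D : ℕ, D = ⌊4 * (R : ℝ) ^ 2 * y / (m * k)⌋₊ := ⟨_, rfl⟩
  have hDle : (D : ℝ) ≤ 4 * (R : ℝ) ^ 2 * y / (m * k) := by
    rw [hD]; exact Nat.floor_le (by positivity)
  have hDlt : 4 * (R : ℝ) ^ 2 * y / (m * k) < D + 1 := by
    rw [hD]; exact Nat.lt_floor_add_one _
  have hD2 : D ^ 2 ≤ R := by
    have h1 : (D : ℝ) ≤ √(R : ℝ) := by
      refine hDle.trans ?_
      rw [div_le_iff₀ (by positivity)]
      have h2 : (R : ℝ) ^ 2 = √(R : ℝ) * (R : ℝ) ^ (3 / 2 : ℝ) := by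
        rw [Real.sqrt_eq_rpow, ← Real.rpow_add hR0, ← Real.rpow_natCast]
        norm_num
      have h3 : √(R : ℝ) * (4 * (R : ℝ) ^ (3 / 2 : ℝ) * y) ≤ √(R : ℝ) * m :=
        mul_le_mul_of_nonneg_left hm2 (Real.sqrt_nonneg _)
      have h4 : √(R : ℝ) * m ≤ √(R : ℝ) * (m * k) :=
        mul_le_mul_of_nonneg_left (le_mul_of_one_le_right hm0.le hk1) (Real.sqrt_nonneg _)
      calc 4 * (R : ℝ) ^ 2 * y = √(R : ℝ) * (4 * (R : ℝ) ^ (3 / 2 : ℝ) * y) := by rw [h2]; ring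
        _ ≤ √(R : ℝ) * (m * k) := h3.trans h4
    have h5 : (D : ℝ) ^ 2 ≤ R := by
      calc (D : ℝ) ^ 2 ≤ √(R : ℝ) ^ 2 := pow_le_pow_left₀ (Nat.cast_nonneg _) h1 2
        _ = R := Real.sq_sqrt hR0.le
    exact_mod_cast h5
  -- the main quadruples
  obtain ⟨Mn, hMn⟩ : ∃ Mn : ℕ × ℕ → ℕ × ℕ → Prop, ∀ p p', Mn p p' ↔ (|(p.1 : ℝ) - p.2| ≤ D ∧
    |(p'.1 : ℝ) - p'.2| ≤ D ∧
    |1 / (p.1 : ℝ) - 1 / (p.2 : ℝ) - 1 / (p'.1 : ℝ) + 1 / (p'.2 : ℝ)| ≤ y / (R : ℝ) ^ 3) := ⟨_, fun _ _ => Iff.rfl⟩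
  -- far pairs
  have hfar : ∀ p ∈ PQ R, ¬ (|(p.1 : ℝ) - p.2| ≤ D) → Real.exp (-(Real.pi * (m : ℝ) ^ 2 * (β p) ^ 2)) ≤ w := by
    intro p hp hn
    obtain ⟨h1, h2, h3⟩ := vk_pq hp
    have p1 : (0 : ℝ) < p.1 := by exact_mod_cast (by omega : 0 < p.1)
    have p2 : (0 : ℝ) < p.2 := by exact_mod_cast (by omega : 0 < p.2)
    have p1' : (p.1 : ℝ) ≤ 2 * R := by exact_mod_cast h1.2
    have p2' : (p.2 : ℝ) ≤ 2 * R := by exact_mod_cast h2.2
    have h4 : (D : ℝ) + 1 ≤ |(p.1 : ℝ) - p.2| := by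
      rw [not_le] at hn
      have h5 : (D : ℤ) < |(p.1 : ℤ) - p.2| := by exact_mod_cast hn
      have h6 : (D : ℤ) + 1 ≤ |(p.1 : ℤ) - p.2| := h5
      exact_mod_cast h6
    have h7 : |β p| = k * |(p.1 : ℝ) - p.2| / (p.1 * p.2) := by
      rw [hβ]
      have : (k : ℝ) / p.1 - (k : ℝ) / p.2 = -(k * ((p.1 : ℝ) - p.2) / (p.1 * p.2)) := by
        field_simp
        ring
      rw [this, abs_neg, abs_div, abs_mul, abs_of_pos hk0, abs_of_pos (mul_pos p1 p2)]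
    have h8 : y / m ≤ |β p| := by
      rw [h7, div_le_div_iff₀ hm0 (by positivity)]
      have h9 : 4 * (R : ℝ) ^ 2 * y ≤ |(p.1 : ℝ) - p.2| * (m * k) := by
        have := (hDlt.le.trans h4)
        rwa [div_le_iff₀ (by positivity)] at this
      have h10 : (p.1 : ℝ) * p.2 ≤ 2 * R * (2 * R) := mul_le_mul p1' p2' p2.le (by positivity)
      calc y * ((p.1 : ℝ) * p.2) ≤ y * (2 * R * (2 * R)) := mul_le_mul_of_nonneg_left h10 hy0.le
        _ = 4 * (R : ℝ) ^ 2 * y := by ring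
        _ ≤ |(p.1 : ℝ) - p.2| * (m * k) := h9
        _ = k * |(p.1 : ℝ) - p.2| * m := by ring
    have h11 : Real.pi * (m : ℝ) ^ 2 * (β p) ^ 2 = Real.pi * (m * |β p|) ^ 2 := by
      rw [mul_pow, sq_abs]
      ring
    rw [h11]
    apply hexp
    rw [div_le_iff₀ hm0] at h8
    linarith
  -- the coefficients
  have hap : ∀ p ∈ PQ R, ‖ap H k m p‖ ≤ 1 / (k : ℝ) ^ 2 ∧ (¬ (|(p.1 : ℝ) - p.2| ≤ D) → ‖ap H k m p‖ ≤ 1 / (k : ℝ) ^ 2 * w) := by
    intro p hp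
    have h1 := vk_ap (H := H) hR hk hkR hm hp
    rw [← hβ] at h1
    constructor
    · refine h1.trans (mul_le_of_le_one_right (by positivity) ?_)
      apply Real.exp_le_one_iff.2
      have : 0 ≤ Real.pi * (m : ℝ) ^ 2 * (β p) ^ 2 := by
        have := Real.pi_pos
        positivity
      linarith
    · intro hn
      exact h1.trans (mul_le_mul_of_nonneg_left (hfar p hp hn) (by positivity))
  -- the kernel
  have hgj : ∀ p ∈ PQ R, ∀ p' ∈ PQ R, gj ((2 * X : ℕ) : ℝ) (β p - β p') ≤ 4 ∧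
      (¬ (|1 / (p.1 : ℝ) - 1 / (p.2 : ℝ) - 1 / (p'.1 : ℝ) + 1 / (p'.2 : ℝ)| ≤ y / (R : ℝ) ^ 3) →
        gj ((2 * X : ℕ) : ℝ) (β p - β p') ≤ 4 * w) := by
    intro p hp p' hp'
    have h1 : |β p - β p'| ≤ 1 / 2 := by
      have e1 := vk_beta hR hkR hp
      have e2 := vk_beta hR hkR hp'
      rw [← hβ] at e1 e2
      rw [abs_le] at e1 e2 ⊢
      constructor <;> linarith
    have h2 := gj_le (J := ((2 * X : ℕ) : ℝ)) (by push_cast; linarith) h1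
    constructor
    · refine h2.trans ?_
      have : Real.exp (-(Real.pi * ((2 * X : ℕ) : ℝ) ^ 2 * (β p - β p') ^ 2)) ≤ 1 := by
        apply Real.exp_le_one_iff.2
        have : 0 ≤ Real.pi * ((2 * X : ℕ) : ℝ) ^ 2 * (β p - β p') ^ 2 := by
          have := Real.pi_pos
          positivity
        linarith
      linarith
    · intro hn
      rw [not_le] at hn
      refine h2.trans (mul_le_mul_of_nonneg_left ?_ (by norm_num))
      have h3 : Real.pi * ((2 * X : ℕ) : ℝ) ^ 2 * (β p - β p') ^ 2 = Real.pi * (((2 * X : ℕ) : ℝ) * |β p - β p'|) ^ 2 := by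
        rw [mul_pow, sq_abs]
        ring
      rw [h3]
      apply hexp
      have h4 : |β p - β p'| = k * |1 / (p.1 : ℝ) - 1 / (p.2 : ℝ) - 1 / (p'.1 : ℝ) + 1 / (p'.2 : ℝ)| := by
        have : β p - β p' = k * (1 / (p.1 : ℝ) - 1 / (p.2 : ℝ) - 1 / (p'.1 : ℝ) + 1 / (p'.2 : ℝ)) := by
          rw [hβ, hβ]
          ring
        rw [this, abs_mul, abs_of_pos hk0]
      have h5 : y / (R : ℝ) ^ 3 ≤ |β p - β p'| := by
        rw [h4]
        exact hn.le.trans (le_mul_of_one_le_left (abs_nonneg _) hk1)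
      have h6 : y / X ≤ |β p - β p'| := by
        refine le_trans ?_ h5
        exact div_le_div_of_nonneg_left hy0.le (by positivity) hRx
      rw [div_le_iff₀ hx0] at h6
      push_cast
      nlinarith [abs_nonneg (β p - β p')]
  -- the terms
  have hterm : ∀ p ∈ PQ R, ∀ p' ∈ PQ R, ‖ap H k m p‖ * ‖ap H k m p'‖ * gj ((2 * X : ℕ) : ℝ) (β p - β p') ≤
      4 / (k : ℝ) ^ 4 * ((if Mn p p' then 1 else 0) + w) := by
    intro p hp p' hp'
    obtain ⟨a1, a2⟩ := hap p hp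
    obtain ⟨b1, b2⟩ := hap p' hp'
    obtain ⟨c1, c2⟩ := hgj p hp p' hp'
    have c0 := gj_nonneg ((2 * X : ℕ) : ℝ) (β p - β p')
    have hw1 : w ≤ 1 := by
      rw [hw]
      apply Real.exp_le_one_iff.2
      linarith
    have e1 : 4 / (k : ℝ) ^ 4 = 1 / (k : ℝ) ^ 2 * (1 / (k : ℝ) ^ 2) * 4 := by
      field_simp
    by_cases hM : Mn p p'
    · rw [if_pos hM]
      have e2 : ‖ap H k m p‖ * ‖ap H k m p'‖ * gj ((2 * X : ℕ) : ℝ) (β p - β p') ≤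
          1 / (k : ℝ) ^ 2 * (1 / (k : ℝ) ^ 2) * 4 :=
        mul_le_mul (mul_le_mul a1 b1 (norm_nonneg _) (by positivity)) c1 c0 (by positivity)
      rw [e1]
      refine e2.trans (le_mul_of_one_le_right (by positivity) (by linarith))
    · rw [if_neg hM, zero_add, e1]
      rw [hMn, not_and_or, not_and_or] at hM
      rcases hM with hM | hM | hM
      · have e2 : ‖ap H k m p‖ * ‖ap H k m p'‖ * gj ((2 * X : ℕ) : ℝ) (β p - β p') ≤
            1 / (k : ℝ) ^ 2 * w * (1 / (k : ℝ) ^ 2) * 4 :=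
          mul_le_mul (mul_le_mul (a2 hM) b1 (norm_nonneg _) (by positivity)) c1 c0 (by positivity)
        refine e2.trans (le_of_eq (by ring))
      · have e2 : ‖ap H k m p‖ * ‖ap H k m p'‖ * gj ((2 * X : ℕ) : ℝ) (β p - β p') ≤
            1 / (k : ℝ) ^ 2 * (1 / (k : ℝ) ^ 2 * w) * 4 :=
          mul_le_mul (mul_le_mul a1 (b2 hM) (norm_nonneg _) (by positivity)) c1 c0 (by positivity)
        refine e2.trans (le_of_eq (by ring))
      · have e2 : ‖ap H k m p‖ * ‖ap H k m p'‖ * gj ((2 * X : ℕ) : ℝ) (β p - β p') ≤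
            1 / (k : ℝ) ^ 2 * (1 / (k : ℝ) ^ 2) * (4 * w) :=
          mul_le_mul (mul_le_mul a1 b1 (norm_nonneg _) (by positivity)) (c2 hM) c0 (by positivity)
        refine e2.trans (le_of_eq (by ring))
  -- the number of main quadruples
  have hcardPQ : ((PQ R).card : ℝ) ≤ (R : ℝ) ^ 2 := by
    have h1 : (PQ R).card ≤ R ^ 2 := by
      unfold PQ
      refine (card_filter_le _ _).trans ?_
      rw [card_product, sq]
      have h2 : (Pool.Agent.H99.GB.QQ R).card ≤ R := by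
        unfold Pool.Agent.H99.GB.QQ
        refine (card_filter_le _ _).trans ?_
        rw [Nat.card_Ioc]
        omega
      exact Nat.mul_le_mul h2 h2
    exact_mod_cast h1
  have hcount : ((((PQ R) ×ˢ (PQ R)).filter (fun z => Mn z.1 z.2)).card : ℝ) ≤
      4 * C1 * (X : ℝ) ^ (4 * ε) * ((R : ℝ) ^ 3 / m) := by
    rcases Nat.eq_zero_or_pos D with h0 | h0
    · have h1 : ((PQ R) ×ˢ (PQ R)).filter (fun z => Mn z.1 z.2) = ∅ := by
        rw [Finset.filter_eq_empty_iff]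
        intro z hz hM
        rw [hMn] at hM
        rw [mem_product] at hz
        obtain ⟨_, _, h3⟩ := vk_pq hz.1
        have h4 := hM.1
        rw [h0, Nat.cast_zero, abs_nonpos_iff, sub_eq_zero] at h4
        exact h3 (by exact_mod_cast h4)
      rw [h1, card_empty, Nat.cast_zero]
      positivity
    · have h1 : ((((PQ R) ×ˢ (PQ R)).filter (fun z => Mn z.1 z.2)).card : ℝ) ≤ ((Qd R D y).card : ℝ) := by
        rw [Nat.cast_le]
        refine Finset.card_le_card_of_injOn (fun z => (z.1.1, z.1.2, z.2.1, z.2.2)) ?_ ?_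
        · intro z hz
          rw [Finset.mem_coe, mem_filter, mem_product] at hz
          obtain ⟨⟨g1, g2⟩, g3⟩ := hz
          obtain ⟨u1, u2, u3⟩ := vk_pq g1
          obtain ⟨v1, v2, v3⟩ := vk_pq g2
          rw [hMn] at g3
          rw [Finset.mem_coe]
          unfold Qd
          rw [mem_filter]
          refine ⟨?_, u3, v3, g3.1, g3.2.1, g3.2.2⟩
          rw [mem_product, mem_product, mem_product, mem_Ioc, mem_Ioc, mem_Ioc, mem_Ioc]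
          exact ⟨u1, u2, v1, v2⟩
        · intro z _ z' _ h
          simp only [Prod.mk.injEq] at h
          obtain ⟨h1, h2, h3, h4⟩ := h
          exact Prod.ext (Prod.ext h1 h2) (Prod.ext h3 h4)
      refine h1.trans ((hsp R (by omega) D h0 hD2 y hy1).trans ?_)
      have h2 : (R : ℝ) ^ (1 + ε) ≤ R * y := by
        rw [Real.rpow_add hR0, Real.rpow_one]
        refine mul_le_mul_of_nonneg_left ?_ hR0.le
        rw [hy]
        refine Real.rpow_le_rpow hR0.le ?_ hε.le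
        refine le_trans ?_ hRx
        exact le_self_pow₀ hR1 (by norm_num)
      have h3 : (X : ℝ) ^ (4 * ε) = y ^ 4 := by
        rw [hy, ← Real.rpow_natCast, ← Real.rpow_mul hx0.le]
        congr 1
        push_cast
        ring
      rw [h3]
      have h4 : (D : ℝ) ≤ 4 * (R : ℝ) ^ 2 * y / m := by
        refine hDle.trans ?_
        exact div_le_div_of_nonneg_left (by positivity) hm0 (le_mul_of_one_le_right hm0.le hk1)
      calc C1 * y ^ 2 * (R : ℝ) ^ (1 + ε) * D ≤ C1 * y ^ 2 * (R * y) * (4 * (R : ℝ) ^ 2 * y / m) := by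
            gcongr
        _ = 4 * C1 * y ^ 4 * ((R : ℝ) ^ 3 / m) := by ring
  -- assembly
  have hJ : 1 ≤ 2 * X := by omega
  have hdg := dg1 (PQ R) (fun p => ap H k m p) β hJ
  have hfl : ∑ x ∈ range (2 * X + 1), ‖fl R H k m x‖ ^ 2 =
      ∑ x ∈ range (2 * X + 1), ‖∑ p ∈ PQ R, ap H k m p * Pool.Agent.H24.AB.ee ((x : ℝ) * β p)‖ ^ 2 := by
    refine Finset.sum_congr rfl fun x _ => ?_
    unfold fl
    congr 2
    refine Finset.sum_congr rfl fun p _ => ?_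
    rw [hβ]
    push_cast
    rfl
  rw [hfl]
  refine hdg.trans ?_
  have hS : ∑ p ∈ PQ R, ∑ p' ∈ PQ R, ‖ap H k m p‖ * ‖ap H k m p'‖ * gj ((2 * X : ℕ) : ℝ) (β p - β p') ≤
      4 / (k : ℝ) ^ 4 * (4 * C1 * (X : ℝ) ^ (4 * ε) * ((R : ℝ) ^ 3 / m) + (R : ℝ) ^ 4 * w) := by
    refine (Finset.sum_le_sum fun p hp => Finset.sum_le_sum fun p' hp' => hterm p hp p' hp').trans ?_
    rw [← Finset.sum_product' (f := fun p p' => 4 / (k : ℝ) ^ 4 * ((if Mn p p' then 1 else 0) + w)), ← Finset.mul_sum,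
      Finset.sum_add_distrib]
    refine mul_le_mul_of_nonneg_left (add_le_add ?_ ?_) (by positivity)
    · rw [← Finset.sum_filter, Finset.sum_const, nsmul_eq_mul, mul_one]
      exact hcount
    · rw [Finset.sum_const, nsmul_eq_mul, card_product]
      push_cast
      have : ((PQ R).card : ℝ) * ((PQ R).card : ℝ) ≤ (R : ℝ) ^ 2 * (R : ℝ) ^ 2 :=
        mul_le_mul hcardPQ hcardPQ (Nat.cast_nonneg _) (by positivity)
      refine mul_le_mul_of_nonneg_right (this.trans (le_of_eq (by ring))) hw0.le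
  refine (mul_le_mul_of_nonneg_left hS (by positivity)).trans ?_
  -- sizes
  have hR4 : (R : ℝ) ^ 4 * w ≤ C2 * ((X : ℝ) ^ (5 * ε) * ((R : ℝ) ^ 3 / m)) := by
    have h1 : (R : ℝ) ^ 4 ≤ (X : ℝ) ^ 2 := by
      have h2 : (R : ℝ) ^ 4 ≤ ((R : ℝ) ^ 3) ^ 2 := by
        rw [← pow_mul]
        exact pow_le_pow_right₀ hR1 (by norm_num)
      exact h2.trans (pow_le_pow_left₀ (by positivity) hRx 2)
    have h3 : (R : ℝ) ^ 4 * w * X ≤ C2 := by
      calc (R : ℝ) ^ 4 * w * X ≤ (X : ℝ) ^ 2 * w * X := by gcongr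
        _ = (X : ℝ) ^ 3 * w := by ring
        _ ≤ C2 := hexw
    have h4 : 1 ≤ (X : ℝ) ^ (5 * ε) := Real.one_le_rpow hx1 (by positivity)
    have h5 : 1 / (X : ℝ) ≤ (R : ℝ) ^ 3 / m := by
      rw [div_le_div_iff₀ hx0 hm0]
      have h6 : (1 : ℝ) ≤ (R : ℝ) ^ 3 := one_le_pow₀ hR1
      calc 1 * (m : ℝ) ≤ X := by linarith
        _ ≤ (R : ℝ) ^ 3 * X := le_mul_of_one_le_left hx0.le h6
    calc (R : ℝ) ^ 4 * w = (R : ℝ) ^ 4 * w * X * (1 / X) := by field_simp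
      _ ≤ C2 * (1 / X) := mul_le_mul_of_nonneg_right h3 (by positivity)
      _ ≤ C2 * (1 * ((R : ℝ) ^ 3 / m)) := by rw [one_mul]; exact mul_le_mul_of_nonneg_left h5 hC2.le
      _ ≤ C2 * ((X : ℝ) ^ (5 * ε) * ((R : ℝ) ^ 3 / m)) := by gcongr
  have h45 : (X : ℝ) ^ (4 * ε) ≤ (X : ℝ) ^ (5 * ε) := Real.rpow_le_rpow_of_exponent_le hx1 (by linarith)
  have h6 : (X : ℝ) ^ (1 + 5 * ε) = X * (X : ℝ) ^ (5 * ε) := by
    rw [Real.rpow_add hx0, Real.rpow_one]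
  rw [h6]
  have h7 : 4 * C1 * (X : ℝ) ^ (4 * ε) * ((R : ℝ) ^ 3 / m) + (R : ℝ) ^ 4 * w ≤
      (4 * C1 + C2) * ((X : ℝ) ^ (5 * ε) * ((R : ℝ) ^ 3 / m)) := by
    have h8 : 4 * C1 * (X : ℝ) ^ (4 * ε) * ((R : ℝ) ^ 3 / m) ≤ 4 * C1 * (X : ℝ) ^ (5 * ε) * ((R : ℝ) ^ 3 / m) := by gcongr
    linarith
  calc 24 * ((2 * X : ℕ) : ℝ) * (4 / (k : ℝ) ^ 4 * (4 * C1 * (X : ℝ) ^ (4 * ε) * ((R : ℝ) ^ 3 / m) + (R : ℝ) ^ 4 * w))
      ≤ 24 * ((2 * X : ℕ) : ℝ) * (4 / (k : ℝ) ^ 4 * ((4 * C1 + C2) * ((X : ℝ) ^ (5 * ε) * ((R : ℝ) ^ 3 / m)))) := by gcongr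
    _ = 192 * (4 * C1 + C2) * (X * (X : ℝ) ^ (5 * ε)) * ((R : ℝ) ^ 3 / (m * (k : ℝ) ^ 4)) := by
        push_cast
        field_simp
        ring

end Pool.Agent.H93.BK
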