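import Pool.Agent.H93.BK.Defs
import Pool.Agent.H93.BK.Dg
import Pool.Agent.H93.BK.Hi
import Pool.Agent.H93.BK.Vk

/-!
# [H93 BK VAR]  the local mean square of G
-/

set_option autoImplicit false

namespace Pool.Agent.H93.BK

open Finset

open Pool.Agent.H99.GB

private theorem var_log {ε : ℝ} (hε : 0 < ε) : ∃ C : ℝ, 1 ≤ C ∧ ∀ X : ℕ, 1 ≤ X →
    (1 + Real.log X) ^ 4 ≤ C * (X : ℝ) ^ ε ∧ (1 + Real.log X) ^ 2 ≤ C * (X : ℝ) ^ ε := by
  refine ⟨(1 + 4 / ε) ^ 4, ?_, ?_⟩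
  · have : 0 < 4 / ε := by positivity
    exact one_le_pow₀ (by linarith)
  · intro X hX
    have hX1 : (1 : ℝ) ≤ X := by exact_mod_cast hX
    have hX0 : (0 : ℝ) ≤ X := by linarith
    have h1 : Real.log X ≤ (X : ℝ) ^ (ε / 4) / (ε / 4) := Real.log_le_rpow_div hX0 (by positivity)
    have h2 : (1 : ℝ) ≤ (X : ℝ) ^ (ε / 4) := Real.one_le_rpow hX1 (by positivity)
    have h3 : 1 + Real.log X ≤ (1 + 4 / ε) * (X : ℝ) ^ (ε / 4) := by
      have : (X : ℝ) ^ (ε / 4) / (ε / 4) = 4 / ε * (X : ℝ) ^ (ε / 4) := by field_simp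
      rw [this] at h1
      linarith
    have h0 : 0 ≤ 1 + Real.log X := by
      have := Real.log_nonneg hX1
      linarith
    have h01 : 1 ≤ 1 + Real.log X := by
      have := Real.log_nonneg hX1
      linarith
    have h4 : (1 + Real.log X) ^ 4 ≤ ((1 + 4 / ε) * (X : ℝ) ^ (ε / 4)) ^ 4 := pow_le_pow_left₀ h0 h3 4
    have h5 : ((X : ℝ) ^ (ε / 4)) ^ 4 = (X : ℝ) ^ ε := by
      rw [← Real.rpow_natCast, ← Real.rpow_mul hX0]
      congr 1
      push_cast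
      ring
    rw [mul_pow, h5] at h4
    refine ⟨h4, le_trans ?_ h4⟩
    exact pow_le_pow_right₀ h01 (by norm_num)

private theorem var_harm (K : ℕ) : ∑ k ∈ Icc 1 K, (1 : ℝ) / k ≤ 1 + Real.log K := by
  have h := harmonic_le_one_add_log K
  have e : ((harmonic K : ℚ) : ℝ) = ∑ k ∈ Icc 1 K, (1 : ℝ) / k := by
    rw [harmonic_eq_sum_Icc]
    push_cast
    apply Finset.sum_congr rfl
    intro k _
    rw [one_div]
  rw [← e]
  exact h

/-- the sum of `k ‖fl_k‖` -/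
private noncomputable def Sx (R H K m x : ℕ) : ℝ := ∑ k ∈ Icc 1 K, (k : ℝ) * ‖fl R H k m x‖

private theorem var_K {R : ℕ} (hR : 16 ≤ R) : 4 ≤ Nat.sqrt R ∧ (Nat.sqrt R) ^ 2 ≤ R ∧
    2 * Nat.sqrt R ≤ R ∧ (R : ℝ) / (Nat.sqrt R : ℝ) ≤ 2 * (Nat.sqrt R : ℝ) := by
  have h1 : 4 ≤ Nat.sqrt R := by
    rw [Nat.le_sqrt]
    omega
  have h2 : Nat.sqrt R * Nat.sqrt R ≤ R := Nat.sqrt_le R
  have h3 : R < (Nat.sqrt R + 1) * (Nat.sqrt R + 1) := Nat.lt_succ_sqrt R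
  refine ⟨h1, by rw [pow_two]; exact h2, by nlinarith, ?_⟩
  have h4 : (0 : ℝ) < (Nat.sqrt R : ℝ) := by
    have : 0 < Nat.sqrt R := by omega
    exact_mod_cast this
  rw [div_le_iff₀ h4]
  have h5 : (R : ℝ) ≤ ((Nat.sqrt R : ℝ) + 1) * ((Nat.sqrt R : ℝ) + 1) := by
    have := h3.le
    exact_mod_cast this
  have h6 : (4 : ℝ) ≤ (Nat.sqrt R : ℝ) := by exact_mod_cast h1
  nlinarith

/-- the high part of one block -/
private theorem var_hi {R m : ℕ} (hR : 16 ≤ R) (hm : 1 ≤ m) (hRm : 4 * R * Nat.sqrt R ≤ m) (H x : ℕ) :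
    ∑ n ∈ Icc x (x + m), (G (QQ R) H n - Lo R H (Nat.sqrt R) n) ^ 2 ≤ 160 * m * R := by
  obtain ⟨k1, k2, k3, k4⟩ := var_K hR
  set K := Nat.sqrt R with hK
  have hR1 : 1 ≤ R := by omega
  have hK1 : 1 ≤ K := by omega
  have hKr : (4 : ℝ) ≤ K := by exact_mod_cast k1
  have hKR : (K : ℝ) ^ 2 ≤ R := by exact_mod_cast k2
  have hRr : (16 : ℝ) ≤ R := by exact_mod_cast hR
  have hmr : (1 : ℝ) ≤ m := by exact_mod_cast hm
  have hRmr : 4 * (R : ℝ) * K ≤ m := by exact_mod_cast hRm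
  -- hi bound
  have hb : ∀ N : ℕ, N ≤ m + 1 → 10 * ((N : ℝ) + 4 * (R : ℝ) ^ 2) * (R / K) ≤ 60 * m * R := by
    intro N hN
    have hN' : (N : ℝ) ≤ m + 1 := by exact_mod_cast hN
    have h0 : 0 ≤ (N : ℝ) + 4 * (R : ℝ) ^ 2 := by positivity
    calc 10 * ((N : ℝ) + 4 * (R : ℝ) ^ 2) * (R / K) ≤ 10 * ((N : ℝ) + 4 * (R : ℝ) ^ 2) * (2 * K) := by
          apply mul_le_mul_of_nonneg_left k4 (by positivity)
      _ ≤ 10 * ((2 * m) + 4 * (R : ℝ) ^ 2) * (2 * K) := by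
          apply mul_le_mul_of_nonneg_right _ (by positivity)
          linarith
      _ = 40 * (m * K) + 20 * R * (4 * R * K) := by ring
      _ ≤ 40 * (m * R) + 20 * R * m := by
          have h1 : (m : ℝ) * K ≤ m * R := by
            apply mul_le_mul_of_nonneg_left _ (by positivity)
            nlinarith
          have h2 : 20 * (R : ℝ) * (4 * R * K) ≤ 20 * R * m := by
            apply mul_le_mul_of_nonneg_left hRmr (by positivity)
          linarith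
      _ = 60 * m * R := by ring
  rcases Nat.eq_zero_or_pos x with hx | hx
  · subst hx
    have hs : Icc 0 (0 + m) = insert 0 (Ioc 0 (0 + m)) := by
      ext n
      simp only [mem_Icc, mem_insert, mem_Ioc]
      omega
    rw [hs, Finset.sum_insert (by simp)]
    have h1 := hi hR1 hK1 k3 H 0 m hm
    have h2 := hi0 hR1 hK1 k3 H
    have h3 := hb m (by omega)
    have h4 : 100 * (R : ℝ) ^ 2 * (1 + Real.log K) ^ 2 ≤ 100 * m * R := by
      have h5 : (1 + Real.log K) ^ 2 ≤ 4 * K := by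
        have hK0 : (0 : ℝ) < K := by linarith
        have e1 : Real.log K = 2 * Real.log (Real.sqrt K) := by
          rw [Real.log_sqrt hK0.le]; ring
        have e2 : Real.log (Real.sqrt K) ≤ Real.sqrt K - 1 :=
          Real.log_le_sub_one_of_pos (Real.sqrt_pos.2 hK0)
        have e3 : 1 + Real.log K ≤ 2 * Real.sqrt K := by rw [e1]; linarith
        have e4 : 0 ≤ 1 + Real.log K := by
          have := Real.log_nonneg (by linarith : (1 : ℝ) ≤ K)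
          linarith
        calc (1 + Real.log K) ^ 2 ≤ (2 * Real.sqrt K) ^ 2 := pow_le_pow_left₀ e4 e3 2
          _ = 4 * K := by rw [mul_pow, Real.sq_sqrt hK0.le]; norm_num
      calc 100 * (R : ℝ) ^ 2 * (1 + Real.log K) ^ 2 ≤ 100 * (R : ℝ) ^ 2 * (4 * K) := by
            apply mul_le_mul_of_nonneg_left h5 (by positivity)
        _ = 100 * (R : ℝ) * (4 * R * K) := by ring
        _ ≤ 100 * (R : ℝ) * m := by
            apply mul_le_mul_of_nonneg_left hRmr (by positivity)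
        _ = 100 * m * R := by ring
    have h6 : (0 : ℝ) ≤ m * R := by positivity
    linarith
  · have hs : Icc x (x + m) = Ioc (x - 1) ((x - 1) + (m + 1)) := by
      ext n
      simp only [mem_Icc, mem_Ioc]
      omega
    rw [hs]
    have h1 := hi hR1 hK1 k3 H (x - 1) (m + 1) (by omega)
    have h3 := hb (m + 1) le_rfl
    have h6 : (0 : ℝ) ≤ m * R := by positivity
    linarith

/-- the low part of one block -/
private theorem var_lo {R m : ℕ} (hR : 16 ≤ R) (hm : 1 ≤ m) (H x : ℕ) {ℓ : ℝ}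
    (hℓ : ∑ k ∈ Icc 1 (Nat.sqrt R), (1 : ℝ) / k ≤ ℓ) :
    ∑ n ∈ Icc x (x + m), (Lo R H (Nat.sqrt R) n) ^ 2 ≤ 96 * ℓ * m * (R * ℓ + Sx R H (Nat.sqrt R) m x) := by
  obtain ⟨k1, k2, k3, k4⟩ := var_K hR
  set K := Nat.sqrt R with hK
  have hh0 : 0 ≤ ∑ k ∈ Icc 1 K, (1 : ℝ) / k := Finset.sum_nonneg fun k _ => by positivity
  have hℓ0 : 0 ≤ ℓ := le_trans hh0 hℓ
  -- pointwise
  have hpt : ∀ n : ℕ, (Lo R H K n) ^ 2 ≤ 4 * ℓ * ∑ k ∈ Icc 1 K, (k : ℝ) * ‖Gk R H k n‖ ^ 2 := by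
    intro n
    have h1 : |Lo R H K n| ≤ 2 * ∑ k ∈ Icc 1 K, ‖Gk R H k n‖ := by
      unfold Lo
      rw [abs_mul, abs_of_pos (by norm_num : (0 : ℝ) < 2)]
      apply mul_le_mul_of_nonneg_left _ (by norm_num)
      exact le_trans (Complex.abs_re_le_norm _) (norm_sum_le _ _)
    have h2 : (∑ k ∈ Icc 1 K, ‖Gk R H k n‖) ^ 2 ≤
        (∑ k ∈ Icc 1 K, (1 : ℝ) / k) * ∑ k ∈ Icc 1 K, (k : ℝ) * ‖Gk R H k n‖ ^ 2 := by
      apply Finset.sum_sq_le_sum_mul_sum_of_sq_le_mul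
      · intro k _; positivity
      · intro k _; positivity
      · intro k hk
        rw [mem_Icc] at hk
        have : (k : ℝ) ≠ 0 := by
          have : 0 < k := hk.1
          positivity
        apply le_of_eq
        field_simp
    have h3 : (Lo R H K n) ^ 2 ≤ (2 * ∑ k ∈ Icc 1 K, ‖Gk R H k n‖) ^ 2 := by
      rw [← sq_abs (Lo R H K n)]
      exact pow_le_pow_left₀ (abs_nonneg _) h1 2
    have h4 : 0 ≤ ∑ k ∈ Icc 1 K, (k : ℝ) * ‖Gk R H k n‖ ^ 2 := Finset.sum_nonneg fun k _ => by positivity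
    calc (Lo R H K n) ^ 2 ≤ (2 * ∑ k ∈ Icc 1 K, ‖Gk R H k n‖) ^ 2 := h3
      _ = 4 * (∑ k ∈ Icc 1 K, ‖Gk R H k n‖) ^ 2 := by ring
      _ ≤ 4 * ((∑ k ∈ Icc 1 K, (1 : ℝ) / k) * ∑ k ∈ Icc 1 K, (k : ℝ) * ‖Gk R H k n‖ ^ 2) := by gcongr
      _ ≤ 4 * (ℓ * ∑ k ∈ Icc 1 K, (k : ℝ) * ‖Gk R H k n‖ ^ 2) := by gcongr
      _ = _ := by ring
  -- coefficients
  have hcard : ((QQ R).card : ℝ) ≤ R := by
    have : (QQ R).card ≤ R := by
      unfold QQ
      refine (card_filter_le _ _).trans ?_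
      rw [Nat.card_Ioc]
      omega
    exact_mod_cast this
  have hfc : ∀ k ∈ Icc 1 K, 4 * ∑ q ∈ QQ R, ‖fc H ⟨q, k⟩‖ ^ 2 ≤ R * (1 / (k : ℝ) ^ 2) := by
    intro k hk
    rw [mem_Icc] at hk
    have hk0 : (0 : ℝ) < k := by exact_mod_cast hk.1
    have h1 : ∀ q ∈ QQ R, ‖fc H ⟨q, k⟩‖ ^ 2 ≤ (1 / (2 * (k : ℝ))) ^ 2 := by
      intro q hq
      unfold QQ at hq
      rw [mem_filter, mem_Ioc] at hq
      exact pow_le_pow_left₀ (norm_nonneg _) (fc_le hk.1 (by omega)) 2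
    have h2 := Finset.sum_le_sum h1
    rw [Finset.sum_const, nsmul_eq_mul] at h2
    calc 4 * ∑ q ∈ QQ R, ‖fc H ⟨q, k⟩‖ ^ 2 ≤ 4 * (((QQ R).card : ℝ) * (1 / (2 * (k : ℝ))) ^ 2) := by gcongr
      _ ≤ 4 * ((R : ℝ) * (1 / (2 * (k : ℝ))) ^ 2) := by gcongr
      _ = R * (1 / (k : ℝ) ^ 2) := by field_simp; norm_num
  calc ∑ n ∈ Icc x (x + m), (Lo R H K n) ^ 2
      ≤ ∑ n ∈ Icc x (x + m), 4 * ℓ * ∑ k ∈ Icc 1 K, (k : ℝ) * ‖Gk R H k n‖ ^ 2 :=
        Finset.sum_le_sum fun n _ => hpt n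
    _ = 4 * ℓ * ∑ k ∈ Icc 1 K, (k : ℝ) * ∑ n ∈ Icc x (x + m), ‖Gk R H k n‖ ^ 2 := by
        rw [← Finset.mul_sum, Finset.sum_comm]
        congr 1
        apply Finset.sum_congr rfl
        intro k _
        rw [Finset.mul_sum]
    _ ≤ 4 * ℓ * ∑ k ∈ Icc 1 K, (k : ℝ) * (24 * m * (R * (1 / (k : ℝ) ^ 2) + ‖fl R H k m x‖)) := by
        apply mul_le_mul_of_nonneg_left _ (by positivity)
        apply Finset.sum_le_sum
        intro k hk
        apply mul_le_mul_of_nonneg_left _ (by positivity)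
        refine le_trans (dg2 R H k m hm x) ?_
        apply mul_le_mul_of_nonneg_left _ (by positivity)
        have := hfc k hk
        linarith
    _ = 96 * ℓ * m * (R * (∑ k ∈ Icc 1 K, (1 : ℝ) / k) + Sx R H K m x) := by
        unfold Sx
        rw [Finset.mul_sum (f := fun k : ℕ => (1 : ℝ) / k), ← Finset.sum_add_distrib, Finset.mul_sum,
          Finset.mul_sum]
        apply Finset.sum_congr rfl
        intro k hk
        rw [mem_Icc] at hk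
        have : (k : ℝ) ≠ 0 := by
          have : 0 < k := hk.1
          positivity
        field_simp
        ring
    _ ≤ 96 * ℓ * m * (R * ℓ + Sx R H K m x) := by
        apply mul_le_mul_of_nonneg_left _ (by positivity)
        gcongr

/-- `K = ⌊√R⌋`, `G² ≤ 2 Lo² + 2 (G-Lo)²`, `Lo² ≤ 4 (∑ 1/k)(∑ k ‖Gk‖²)`, `dg2`, `∑_q ‖fc‖² ≤ R/(4k²)`;
so `∑_block G² - C m R X^ε ≤ C m log R ∑_k k ‖fl_k‖`, Cauchy with `k³`, `vk` -/
theorem var {ε : ℝ} (hε : 0 < ε) : ∃ C : ℝ, 0 < C ∧ ∀ X R m H : ℕ, 16 ≤ R → R ^ 3 ≤ X → 1 ≤ m → m ≤ X →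
    4 * (R : ℝ) ^ (3 / 2 : ℝ) * (X : ℝ) ^ ε ≤ m →
    ∑ x ∈ range (2 * X + 1), (max 0 ((∑ n ∈ Icc x (x + m), (G (QQ R) H n) ^ 2) - C * m * R * (X : ℝ) ^ ε)) ^ 2 ≤
      C * m * (R : ℝ) ^ 3 * (X : ℝ) ^ (1 + 6 * ε) := by
  obtain ⟨Cv, hCv, hvk⟩ := vk hε
  obtain ⟨Cl, hCl, hlog⟩ := var_log hε
  refine ⟨192 ^ 2 * Cv * Cl + 192 * Cl + 320, by positivity, ?_⟩
  intro X R m H hR hRX hm hmX hRm
  set C : ℝ := 192 ^ 2 * Cv * Cl + 192 * Cl + 320 with hC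
  have hR0 : 0 < R := by omega
  have hX1 : 1 ≤ X := le_trans hm hmX
  have hX1r : (1 : ℝ) ≤ X := by exact_mod_cast hX1
  have hX0 : (0 : ℝ) < X := by linarith
  have hRr : (16 : ℝ) ≤ R := by exact_mod_cast hR
  have hmr : (1 : ℝ) ≤ m := by exact_mod_cast hm
  have hXe1 : (1 : ℝ) ≤ (X : ℝ) ^ ε := Real.one_le_rpow hX1r hε.le
  obtain ⟨k1, k2, k3, k4⟩ := var_K hR
  set K := Nat.sqrt R with hK
  have hKR : (K : ℝ) ^ 2 ≤ R := by exact_mod_cast k2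
  have hRRX : R ≤ X := by
    refine le_trans ?_ hRX
    calc R = R ^ 1 := (pow_one R).symm
      _ ≤ R ^ 3 := Nat.pow_le_pow_right hR0 (by norm_num)
  -- 4 R K ≤ m
  have hRK : 4 * R * K ≤ m := by
    have h1 : (R : ℝ) * K ≤ (R : ℝ) ^ (3 / 2 : ℝ) := by
      have e : (R : ℝ) ^ (3 / 2 : ℝ) = R * Real.sqrt R := by
        rw [Real.sqrt_eq_rpow, ← Real.rpow_one_add' (by positivity) (by norm_num)]
        norm_num
      rw [e]
      apply mul_le_mul_of_nonneg_left _ (by positivity)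
      exact Real.le_sqrt_of_sq_le hKR
    have h2 : 4 * (R : ℝ) * K ≤ m := by
      have h3 : 0 ≤ (R : ℝ) ^ (3 / 2 : ℝ) := by positivity
      have h4 : 4 * (R : ℝ) ^ (3 / 2 : ℝ) ≤ 4 * (R : ℝ) ^ (3 / 2 : ℝ) * (X : ℝ) ^ ε := by
        nlinarith
      linarith
    exact_mod_cast h2
  set ℓ : ℝ := 1 + Real.log X with hℓ
  have hℓ1 : 1 ≤ ℓ := by
    have := Real.log_nonneg hX1r
    rw [hℓ]; linarith
  have hharm : ∑ k ∈ Icc 1 K, (1 : ℝ) / k ≤ ℓ := by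
    refine le_trans (var_harm K) ?_
    rw [hℓ]
    have hKX : (K : ℝ) ≤ X := by
      have : K ≤ X := by omega
      exact_mod_cast this
    have hK0 : (0 : ℝ) < K := by
      have : 0 < K := by omega
      exact_mod_cast this
    have := Real.log_le_log hK0 hKX
    linarith
  obtain ⟨hl4, hl2⟩ := hlog X hX1
  -- one block
  have hblock : ∀ x : ℕ, (∑ n ∈ Icc x (x + m), (G (QQ R) H n) ^ 2) - C * m * R * (X : ℝ) ^ ε ≤
      192 * ℓ * m * Sx R H K m x := by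
    intro x
    have h1 := var_hi hR hm hRK H x
    have h2 := var_lo hR hm H x hharm
    have h3 : ∑ n ∈ Icc x (x + m), (G (QQ R) H n) ^ 2 ≤
        2 * (∑ n ∈ Icc x (x + m), (Lo R H K n) ^ 2) +
          2 * (∑ n ∈ Icc x (x + m), (G (QQ R) H n - Lo R H K n) ^ 2) := by
      rw [Finset.mul_sum, Finset.mul_sum, ← Finset.sum_add_distrib]
      apply Finset.sum_le_sum
      intro n _
      nlinarith [sq_nonneg (G (QQ R) H n - 2 * Lo R H K n)]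
    have h4 : 192 * ℓ * m * (R * ℓ) + 320 * m * R ≤ C * m * R * (X : ℝ) ^ ε := by
      have h5 : 192 * ℓ * m * (R * ℓ) = 192 * (m * R) * ℓ ^ 2 := by ring
      have h6 : (0 : ℝ) ≤ m * R := by positivity
      have h7 : 192 * (m * R) * ℓ ^ 2 ≤ 192 * (m * R) * (Cl * (X : ℝ) ^ ε) := by
        apply mul_le_mul_of_nonneg_left hl2 (by positivity)
      have h8 : 320 * (m : ℝ) * R ≤ 320 * (m * R) * (X : ℝ) ^ ε := by nlinarith
      have h9 : C * m * R * (X : ℝ) ^ ε = 192 ^ 2 * Cv * Cl * (m * R) * (X : ℝ) ^ ε +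
          192 * (m * R) * (Cl * (X : ℝ) ^ ε) + 320 * (m * R) * (X : ℝ) ^ ε := by
        rw [hC]; ring
      have h10 : 0 ≤ 192 ^ 2 * Cv * Cl * (m * R) * (X : ℝ) ^ ε := by positivity
      rw [h5, h9]
      linarith
    have h11 : 96 * ℓ * m * (R * ℓ + Sx R H K m x) = 96 * ℓ * m * (R * ℓ) + 96 * ℓ * m * Sx R H K m x := by
      ring
    rw [h11] at h2
    linarith
  have hSx0 : ∀ x, 0 ≤ Sx R H K m x := by
    intro x
    unfold Sx
    exact Finset.sum_nonneg fun k _ => by positivity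
  have hmax : ∀ x : ℕ, (max 0 ((∑ n ∈ Icc x (x + m), (G (QQ R) H n) ^ 2) - C * m * R * (X : ℝ) ^ ε)) ^ 2 ≤
      192 ^ 2 * ℓ ^ 2 * m ^ 2 * Sx R H K m x ^ 2 := by
    intro x
    have h1 : max 0 ((∑ n ∈ Icc x (x + m), (G (QQ R) H n) ^ 2) - C * m * R * (X : ℝ) ^ ε) ≤
        192 * ℓ * m * Sx R H K m x := by
      apply max_le
      · have := hSx0 x
        positivity
      · exact hblock x
    calc _ ≤ (192 * ℓ * m * Sx R H K m x) ^ 2 := pow_le_pow_left₀ (le_max_left _ _) h1 2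
      _ = _ := by ring
  have hSx2 : ∀ x : ℕ, Sx R H K m x ^ 2 ≤ ℓ * ∑ k ∈ Icc 1 K, (k : ℝ) ^ 3 * ‖fl R H k m x‖ ^ 2 := by
    intro x
    have h2 : Sx R H K m x ^ 2 ≤
        (∑ k ∈ Icc 1 K, (1 : ℝ) / k) * ∑ k ∈ Icc 1 K, (k : ℝ) ^ 3 * ‖fl R H k m x‖ ^ 2 := by
      unfold Sx
      apply Finset.sum_sq_le_sum_mul_sum_of_sq_le_mul
      · intro k _; positivity
      · intro k _; positivity
      · intro k hk
        rw [mem_Icc] at hk
        have : (k : ℝ) ≠ 0 := by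
          have : 0 < k := hk.1
          positivity
        apply le_of_eq
        field_simp
    refine le_trans h2 ?_
    apply mul_le_mul_of_nonneg_right hharm
    exact Finset.sum_nonneg fun k _ => by positivity
  have hE0 : 0 < (X : ℝ) ^ (1 + 5 * ε) := Real.rpow_pos_of_pos hX0 _
  calc ∑ x ∈ range (2 * X + 1),
        (max 0 ((∑ n ∈ Icc x (x + m), (G (QQ R) H n) ^ 2) - C * m * R * (X : ℝ) ^ ε)) ^ 2
      ≤ ∑ x ∈ range (2 * X + 1), 192 ^ 2 * ℓ ^ 2 * m ^ 2 *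
          (ℓ * ∑ k ∈ Icc 1 K, (k : ℝ) ^ 3 * ‖fl R H k m x‖ ^ 2) := by
        apply Finset.sum_le_sum
        intro x _
        refine le_trans (hmax x) ?_
        apply mul_le_mul_of_nonneg_left (hSx2 x) (by positivity)
    _ = 192 ^ 2 * ℓ ^ 3 * m ^ 2 * ∑ k ∈ Icc 1 K, (k : ℝ) ^ 3 *
          ∑ x ∈ range (2 * X + 1), ‖fl R H k m x‖ ^ 2 := by
        rw [← Finset.mul_sum, ← Finset.mul_sum, Finset.sum_comm]
        have e : ∑ k ∈ Icc 1 K, ∑ x ∈ range (2 * X + 1), (k : ℝ) ^ 3 * ‖fl R H k m x‖ ^ 2 =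
            ∑ k ∈ Icc 1 K, (k : ℝ) ^ 3 * ∑ x ∈ range (2 * X + 1), ‖fl R H k m x‖ ^ 2 := by
          apply Finset.sum_congr rfl
          intro k _
          rw [Finset.mul_sum]
        rw [e]
        ring
    _ ≤ 192 ^ 2 * ℓ ^ 3 * m ^ 2 * ∑ k ∈ Icc 1 K, (k : ℝ) ^ 3 *
          (Cv * (X : ℝ) ^ (1 + 5 * ε) * ((R : ℝ) ^ 3 / (m * (k : ℝ) ^ 4))) := by
        apply mul_le_mul_of_nonneg_left _ (by positivity)
        apply Finset.sum_le_sum
        intro k hk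
        rw [mem_Icc] at hk
        apply mul_le_mul_of_nonneg_left _ (by positivity)
        apply hvk X R m k H hR hRX hm hmX hk.1 _ hRm
        calc k ^ 2 ≤ K ^ 2 := Nat.pow_le_pow_left hk.2 2
          _ ≤ R := k2
    _ = 192 ^ 2 * Cv * ℓ ^ 3 * m * (R : ℝ) ^ 3 * (X : ℝ) ^ (1 + 5 * ε) * ∑ k ∈ Icc 1 K, (1 : ℝ) / k := by
        rw [Finset.mul_sum, Finset.mul_sum]
        apply Finset.sum_congr rfl
        intro k hk
        rw [mem_Icc] at hk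
        have : (k : ℝ) ≠ 0 := by
          have : 0 < k := hk.1
          positivity
        field_simp
    _ ≤ 192 ^ 2 * Cv * ℓ ^ 3 * m * (R : ℝ) ^ 3 * (X : ℝ) ^ (1 + 5 * ε) * ℓ := by
        apply mul_le_mul_of_nonneg_left hharm (by positivity)
    _ = 192 ^ 2 * Cv * m * (R : ℝ) ^ 3 * (X : ℝ) ^ (1 + 5 * ε) * ℓ ^ 4 := by ring
    _ ≤ 192 ^ 2 * Cv * m * (R : ℝ) ^ 3 * (X : ℝ) ^ (1 + 5 * ε) * (Cl * (X : ℝ) ^ ε) := by
        apply mul_le_mul_of_nonneg_left hl4 (by positivity)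
    _ = 192 ^ 2 * Cv * Cl * m * (R : ℝ) ^ 3 * ((X : ℝ) ^ (1 + 5 * ε) * (X : ℝ) ^ ε) := by ring
    _ = 192 ^ 2 * Cv * Cl * m * (R : ℝ) ^ 3 * (X : ℝ) ^ (1 + 6 * ε) := by
        rw [← Real.rpow_add hX0]
        congr 2
        ring
    _ ≤ C * m * (R : ℝ) ^ 3 * (X : ℝ) ^ (1 + 6 * ε) := by
        have h1 : 192 ^ 2 * Cv * Cl ≤ C := by
          rw [hC]
          nlinarith
        gcongr

end Pool.Agent.H93.BK
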