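import Pool.Agent.H93.BK.Defs
import Pool.Agent.H93.BK.Var

/-!
# [H93 BK KEY]  bad blocks
-/

set_option autoImplicit false

namespace Pool.Agent.H93.BK

open Finset

open Pool.Agent.H99.GB

/-- one bad block -/
private theorem key1 (m : ℕ) (V T B S : ℝ) (hm : 1 ≤ m) (hV : 0 < V) (hT : 4 * T ≤ (m : ℝ) * V ^ 2)
    (hS : B ^ 2 ≤ ((m : ℝ) + 1) * S) (hB : V * (m + 1) < B) :
    B ≤ 4 / (V ^ 3 * m) * (max 0 (S - T)) ^ 2 := by
  have hm1 : (1 : ℝ) ≤ m := by exact_mod_cast hm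
  have hm0 : (0 : ℝ) < (m : ℝ) + 1 := by linarith
  obtain ⟨a, ha⟩ : ∃ a : ℝ, a = B / (m + 1) := ⟨_, rfl⟩
  have hBa : B = (m + 1) * a := by
    rw [ha]
    field_simp
  have haV : V < a := by
    rw [ha, lt_div_iff₀ hm0]
    exact hB
  have ha0 : 0 < a := hV.trans haV
  have h1 : ((m : ℝ) + 1) * a ^ 2 ≤ S := by
    rw [hBa] at hS
    have e1 : (((m : ℝ) + 1) * a) ^ 2 = (m + 1) * ((m + 1) * a ^ 2) := by ring
    rw [e1] at hS
    exact le_of_mul_le_mul_left hS hm0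
  have hVa : V ^ 2 ≤ a ^ 2 := pow_le_pow_left₀ hV.le haV.le 2
  have h2 : 4 * T ≤ ((m : ℝ) + 1) * a ^ 2 := by
    have e1 : (m : ℝ) * V ^ 2 ≤ (m + 1) * a ^ 2 :=
      mul_le_mul (by linarith) hVa (by positivity) (by linarith)
    linarith
  have h3 : ((m : ℝ) + 1) * a ^ 2 / 2 ≤ max 0 (S - T) := by
    refine le_trans ?_ (le_max_right _ _)
    have e1 : 0 ≤ ((m : ℝ) + 1) * a ^ 2 := by positivity
    linarith
  have h4 : (((m : ℝ) + 1) * a ^ 2 / 2) ^ 2 ≤ (max 0 (S - T)) ^ 2 :=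
    pow_le_pow_left₀ (by positivity) h3 2
  have h5 : B ≤ 4 / (V ^ 3 * m) * (((m : ℝ) + 1) * a ^ 2 / 2) ^ 2 := by
    rw [hBa, div_mul_eq_mul_div, le_div_iff₀ (by positivity)]
    have e1 : V ^ 3 ≤ a ^ 3 := pow_le_pow_left₀ hV.le haV.le 3
    have e2 : 4 * (((m : ℝ) + 1) * a ^ 2 / 2) ^ 2 = (m + 1) * a * (a ^ 3 * (m + 1)) := by ring
    rw [e2]
    refine mul_le_mul_of_nonneg_left ?_ (by positivity)
    exact mul_le_mul e1 (by linarith) (by linarith) (by positivity)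
  refine h5.trans (mul_le_mul_of_nonneg_left h4 (by positivity))

/-- the last step -/
private theorem key2 (C C0 X e r m : ℝ) (hC : 1 ≤ C) (h4 : 4 * C0 ≤ C) (hX : 0 < X) (he : 1 ≤ e) (hr : 0 < r)
    (hm : 0 < m) :
    4 / ((C * r * e) ^ 3 * m) * (C0 * m * (r ^ 2) ^ 3 * (X * e ^ 6)) ≤ C * (X * e ^ 7) * r ^ 3 := by
  have he0 : 0 < e := by linarith
  have hC1 : 0 < C := by linarith
  rw [div_mul_eq_mul_div, div_le_iff₀ (by positivity)]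
  have e1 : 4 * (C0 * m * (r ^ 2) ^ 3 * (X * e ^ 6)) = 4 * C0 * (m * r ^ 6 * X * e ^ 6) := by ring
  have e2 : C * (X * e ^ 7) * r ^ 3 * ((C * r * e) ^ 3 * m) = C ^ 4 * e ^ 4 * (m * r ^ 6 * X * e ^ 6) := by ring
  rw [e1, e2]
  refine mul_le_mul_of_nonneg_right ?_ (by positivity)
  have e3 : C ≤ C ^ 4 := le_self_pow₀ hC (by norm_num)
  have e4 : 1 ≤ e ^ 4 := one_le_pow₀ he
  calc 4 * C0 ≤ C ^ 4 * 1 := by linarith
    _ ≤ C ^ 4 * e ^ 4 := mul_le_mul_of_nonneg_left e4 (by positivity)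

/-- if the mean `a` of `|G|` exceeds `V`, `V² = 4 C0 R X^ε`, then `∑_block G² - C0 m R X^ε ≥ (m+1) a²/2`, `a ≤ a⁴/V³` -/
theorem key {ε : ℝ} (hε : 0 < ε) : ∃ C : ℝ, 0 < C ∧ ∀ X R m H : ℕ, 16 ≤ R → R ^ 3 ≤ X → 1 ≤ m → m ≤ X →
    4 * (R : ℝ) ^ (3 / 2 : ℝ) * (X : ℝ) ^ ε ≤ m →
    ∑ x ∈ (Ioc 0 (2 * X)).filter (fun x => C * √R * (X : ℝ) ^ ε * (m + 1) < ∑ n ∈ Icc x (x + m), |G (QQ R) H n|),
        ∑ n ∈ Icc x (x + m), |G (QQ R) H n| ≤ C * (X : ℝ) ^ (1 + 7 * ε) * (R : ℝ) ^ (3 / 2 : ℝ) := by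
  obtain ⟨C0, hC0, hvar⟩ := var hε
  obtain ⟨C, hC⟩ : ∃ C : ℝ, C = 1 + 4 * C0 := ⟨_, rfl⟩
  have hC1 : 1 ≤ C := by linarith
  have hC2 : 4 * C0 ≤ C := by linarith
  refine ⟨C, by linarith, fun X R m H hR hRX hm hmX hRm => ?_⟩
  have hv := hvar X R m H hR hRX hm hmX hRm
  have hR0 : (0 : ℝ) < R := by
    have : 0 < R := by omega
    exact_mod_cast this
  have hX1 : (1 : ℝ) ≤ X := by
    have : 1 ≤ X := hm.trans hmX
    exact_mod_cast this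
  have hX0 : (0 : ℝ) < X := by linarith
  have hm1 : (1 : ℝ) ≤ m := by exact_mod_cast hm
  have hm0 : (0 : ℝ) < m := by linarith
  obtain ⟨r, hr⟩ : ∃ r : ℝ, r = √R := ⟨_, rfl⟩
  have hr0 : 0 < r := by rw [hr]; exact Real.sqrt_pos.mpr hR0
  have hr2 : r ^ 2 = R := by rw [hr]; exact Real.sq_sqrt hR0.le
  have hr3 : (R : ℝ) ^ (3 / 2 : ℝ) = r ^ 3 := by
    rw [hr, Real.sqrt_eq_rpow, ← Real.rpow_natCast, ← Real.rpow_mul hR0.le]
    norm_num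
  obtain ⟨e, he⟩ : ∃ e : ℝ, e = (X : ℝ) ^ ε := ⟨_, rfl⟩
  have he1 : 1 ≤ e := by rw [he]; exact Real.one_le_rpow hX1 hε.le
  have he0 : 0 < e := by linarith
  have hep : ∀ n : ℕ, (X : ℝ) ^ (1 + n * ε) = X * e ^ n := by
    intro n
    rw [Real.rpow_add hX0, Real.rpow_one, he, ← Real.rpow_natCast, ← Real.rpow_mul hX0.le, mul_comm ε]
  have he6 : (X : ℝ) ^ (1 + 6 * ε) = X * e ^ 6 := by
    have := hep 6
    push_cast at this
    exact this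
  have he7 : (X : ℝ) ^ (1 + 7 * ε) = X * e ^ 7 := by
    have := hep 7
    push_cast at this
    exact this
  rw [← he, he6] at hv
  rw [← hr, ← he, he7, hr3]
  obtain ⟨V, hV⟩ : ∃ V : ℝ, V = C * r * e := ⟨_, rfl⟩
  rw [← hV]
  have hV0 : 0 < V := by
    rw [hV]
    have : 0 < C := by linarith
    positivity
  have hT : 4 * (C0 * m * R * e) ≤ (m : ℝ) * V ^ 2 := by
    have e1 : (m : ℝ) * V ^ 2 = C ^ 2 * e * (m * R * e) := by
      rw [hV, ← hr2]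
      ring
    have e2 : 4 * (C0 * m * R * e) = 4 * C0 * (m * R * e) := by ring
    rw [e1, e2]
    refine mul_le_mul_of_nonneg_right ?_ (by positivity)
    have e3 : C ≤ C ^ 2 := le_self_pow₀ hC1 (by norm_num)
    calc 4 * C0 ≤ C ^ 2 * 1 := by linarith
      _ ≤ C ^ 2 * e := mul_le_mul_of_nonneg_left he1 (by positivity)
  have hCS : ∀ x : ℕ, (∑ n ∈ Icc x (x + m), |G (QQ R) H n|) ^ 2 ≤
      ((m : ℝ) + 1) * ∑ n ∈ Icc x (x + m), (G (QQ R) H n) ^ 2 := by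
    intro x
    have h1 := sq_sum_le_card_mul_sum_sq (s := Icc x (x + m)) (f := fun n => |G (QQ R) H n|)
    rw [Nat.card_Icc] at h1
    have h2 : ((x + m + 1 - x : ℕ) : ℝ) = (m : ℝ) + 1 := by
      have : x + m + 1 - x = m + 1 := by omega
      rw [this]
      push_cast
      ring
    rw [h2] at h1
    simp only [sq_abs] at h1
    exact h1
  calc ∑ x ∈ (Ioc 0 (2 * X)).filter (fun x => V * (m + 1) < ∑ n ∈ Icc x (x + m), |G (QQ R) H n|),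
        ∑ n ∈ Icc x (x + m), |G (QQ R) H n|
      ≤ ∑ x ∈ (Ioc 0 (2 * X)).filter (fun x => V * (m + 1) < ∑ n ∈ Icc x (x + m), |G (QQ R) H n|),
        4 / (V ^ 3 * m) * (max 0 ((∑ n ∈ Icc x (x + m), (G (QQ R) H n) ^ 2) - C0 * m * R * e)) ^ 2 := by
        refine Finset.sum_le_sum fun x hx => ?_
        rw [mem_filter] at hx
        exact key1 m V _ _ _ hm hV0 hT (hCS x) hx.2
    _ ≤ ∑ x ∈ range (2 * X + 1),
        4 / (V ^ 3 * m) * (max 0 ((∑ n ∈ Icc x (x + m), (G (QQ R) H n) ^ 2) - C0 * m * R * e)) ^ 2 := by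
        refine Finset.sum_le_sum_of_subset_of_nonneg ?_ fun x _ _ => by positivity
        intro x hx
        rw [mem_filter, mem_Ioc] at hx
        rw [mem_range]
        omega
    _ = 4 / (V ^ 3 * m) * ∑ x ∈ range (2 * X + 1),
        (max 0 ((∑ n ∈ Icc x (x + m), (G (QQ R) H n) ^ 2) - C0 * m * R * e)) ^ 2 := by
        rw [Finset.mul_sum]
    _ ≤ 4 / (V ^ 3 * m) * (C0 * m * (R : ℝ) ^ 3 * (X * e ^ 6)) :=
        mul_le_mul_of_nonneg_left hv (by positivity)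
    _ ≤ C * (X * e ^ 7) * r ^ 3 := by
        rw [hV, ← hr2]
        exact key2 C C0 X e r m hC1 hC2 hX0 he1 hr0 hm0

end Pool.Agent.H93.BK
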